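import Pool.Agent.Y92.ZX.Stm

/-!
# Project ZX: the block PT in two steps
-/

set_option autoImplicit false
set_option linter.unusedSectionVars false

open UpperHalfPlane H294ZP Polynomial IsDedekindDomain NumberField

namespace Pool.Agent.Y92.ZX

open Pool.Agent.Y226 Pool.Agent.Y226.ZG Pool.Agent.Y226.ZM Pool.Agent.Y226.ZU

/-- the monomial `∏ X_i ^ max (v_i, 0)` -/
noncomputable def mm (A : Type) [CommRing A] {n : ℕ} (v : Fin n → ℤ) : MvPolynomial (Fin n) A :=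
  ∏ i, MvPolynomial.X i ^ (v i).toNat

/-- the polynomial of a relation `h` between the monomials `x ^ v` and `x ^ w` -/
noncomputable def hpol {A : Type} [CommRing A] {n : ℕ} (d : ℕ) (h : A[X][X]) (v w : Fin n → ℤ) :
    MvPolynomial (Fin n) A :=
  ∑ m ∈ box d, MvPolynomial.C (cf h m) *
    (mm A v ^ m.1 * mm A (fun i => -v i) ^ (d - m.1)) *
    (mm A w ^ m.2 * mm A (fun i => -w i) ^ (d - m.2))

/-- the relations are in the ideals of the reduction in all charts -/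
structure Mem {A 𝕜 : Type} [CommRing A] [Field 𝕜] {n : ℕ} {κ : Type} (π : A →+* 𝕜)
    (F : κ → MvPolynomial (Fin n × Bool) A) {N W M d D : ℕ} (𝓡 : RD 𝕜 n N W M d D) : Prop where
  m1 : ∀ (c : Option (Fin n)) (i : Fin n) (s : Bool) (j : Fin n), i ≠ j →
    (s = false ∧ c ≠ some i ∨ s = true ∧ c = some i) → c ≠ some j →
    E2 MvPolynomial.C (MvPolynomial.X i) (MvPolynomial.X j) (𝓡.g i s j) ∈ chI π F c
  m2 : ∀ (c : Option (Fin n)) (v w : Fin n → ℤ), Bv M v → Bv M w → LI v w →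
    (∀ a, c = some a → v a = 0 ∧ w a = 0) → hpol d (𝓡.h v w) v w ∈ chI π F c

/-- the pair relations with corners which are units -/
def Cor {A 𝕜 : Type} [CommRing A] [Field 𝕜] {n : ℕ} {κ : Type} (π : A →+* 𝕜)
    (F : κ → MvPolynomial (Fin n × Bool) A) : Prop :=
  ∀ i j : Fin n, i ≠ j → ∃ (a b : ℕ) (g : ℕ → ℕ → A),
    π (g 0 0) ≠ 0 ∧ π (g a 0) ≠ 0 ∧ π (g 0 b) ≠ 0 ∧ π (g a b) ≠ 0 ∧
    bh i j a b g ∈ Ideal.span (Set.range F)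

/-- Block MEM. -/
def S_MEM : Prop := ∀ (A 𝕜 : Type) [CommRing A] [Field 𝕜] (n : ℕ) (κ : Type) (d₀ : ℕ)
  (π : A →+* 𝕜) (F : κ → MvPolynomial (Fin n × Bool) A), GM d₀ π F →
  ∀ (N W M d D : ℕ) (𝓡 : RD 𝕜 n N W M d D), Rels 𝓡 (chI π F none) → Mem π F 𝓡

/-- Block PT2. -/
def S_PT2 : Prop := ∀ (C : Type) [NormedField C] [IsUltrametricDist C] (p : ℕ) [Fact p.Prime]
  (𝕜 : Type) [Field 𝕜] (ρ : Nr C p →+* 𝕜), Function.Surjective ρ → 0 < ‖(p : C)‖ →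
  ‖(p : C)‖ < 1 → (∀ r : Nr C p, ρ r = 0 ↔ ‖(r : C)‖ < 1) →
  ∀ (n : ℕ) (κ : Type) (F : κ → MvPolynomial (Fin n × Bool) (Nr C p)), (∀ t, MHom (F t)) →
  Cor ρ F → ∀ (N W M d D : ℕ) (𝓡 : RD 𝕜 n N W M d D), Mem ρ F 𝓡 →
  ∃ (ht : (Fin n → ℤ) → (Fin n → ℤ) → (Nr C p)[X][X])
    (rho : (Fin n → ℤ) → (Fin n → ℤ) → MvPolynomial (Fin n × Bool) (OO C)),
    (∀ v w, Bv M v → Bv M w → LI v w →
      (ht v w).map (mapRingHom ρ) = 𝓡.h v w ∧ BD d (ht v w)) ∧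
    ∀ x : Fin n → C, (∀ t, MvPolynomial.eval₂ (Nr C p).subtype (chv none x) (F t) = 0) →
      PtA ρ 𝓡 ht rho x

theorem pt_of (h1 : S_MEM) (h2 : S_PT2) : S_PT := by
  intro C _ _ p _ 𝕜 _ ρ hs hp0 hp1 hk n d₀ κ F hF N W M d D 𝓡 hR
  exact h2 C p 𝕜 ρ hs hp0 hp1 hk n κ F hF.hom
    (fun i j hij => by
      obtain ⟨a, b, g, -, -, h3, h4, h5, h6, -, h7⟩ := hF.gen i j hij
      exact ⟨a, b, g, h3, h4, h5, h6, h7⟩) N W M d D 𝓡
    (h1 _ 𝕜 n κ d₀ ρ F hF N W M d D 𝓡 hR)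

end Pool.Agent.Y92.ZX
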