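import Pool.Agent.Y92.ZX.FamLoc
import Pool.Agent.Y61.ZX.NF
import Pool.Agent.Y226.ZV.Fam

/-!
# Families of curves at one hundred percent of the algebraic parameters
-/

set_option autoImplicit false
set_option linter.unusedSectionVars false

open UpperHalfPlane H294ZP Polynomial IsDedekindDomain NumberField

namespace Pool.Agent.Y92.ZX

open Pool.Agent.Y226 Pool.Agent.Y226.ZG Pool.Agent.Y226.ZM Pool.Agent.Y226.ZU Pool.Agent.Y226.ZR
  Pool.Agent.Y226.ZV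

section local_

variable {C : Type} [NormedField C] [IsUltrametricDist C] [CompleteSpace C] [CharZero C]
  [IsAlgClosed C]
variable {p : ℕ} [hpf : Fact p.Prime]

theorem QF_Nr (hp0 : 0 < ‖(p : C)‖) (hp1 : ‖(p : C)‖ < 1) {x : C} (hx : x ∈ QF C)
    (hx1 : ‖x‖ ≤ 1) : x ∈ Nr C p :=
  ⟨hx1, 1, one_pos, unr_QF hp0 hp1 x hx hx1⟩

/-- values of polynomials at large elements -/
theorem poly_large (hp0 : 0 < ‖(p : C)‖) (hp1 : ‖(p : C)‖ < 1) (φ : QA →+* C) (f : QA[X])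
    (hf : 0 < f.natDegree) (hc : ∀ k ≤ f.natDegree, φ (f.coeff k) ∈ Nr C p)
    (hl : ‖φ f.leadingCoeff‖ = 1) {t : QA} (ht : φ t ∈ QF C) {e : ℕ} (he : 0 < e)
    (hte : ‖φ t‖ = ‖(p : C)‖⁻¹ ^ e) :
    ‖φ (f.eval t)‖ = ‖(p : C)‖ ^ (-((f.natDegree * e : ℕ) : ℤ)) ∧
      φ (f.eval t) * (p : C) ^ (f.natDegree * e) ∈ Nr C p := by
  set w := f.natDegree with hw
  set u : C := φ t * (p : C) ^ e with hu
  have hu1 : ‖u‖ = 1 := by
    rw [hu, norm_mul, norm_pow, hte, ← mul_pow, inv_mul_cancel₀ hp0.ne', one_pow]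
  have huN : u ∈ Nr C p := by
    refine QF_Nr hp0 hp1 (mul_mem ht (pow_mem ?_ _)) hu1.le
    have := rat_mem (C := C) (p : ℚ)
    push_cast at this
    exact this
  have hpN : (p : C) ∈ Nr C p := natCast_mem _ _
  have hsum : φ (f.eval t) * (p : C) ^ (w * e) =
      ∑ k ∈ Finset.range (w + 1), φ (f.coeff k) * u ^ k * (p : C) ^ ((w - k) * e) := by
    rw [eval_eq_sum_range, map_sum, Finset.sum_mul]
    refine Finset.sum_congr rfl fun k hk => ?_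
    have hk' : k ≤ w := Nat.lt_succ_iff.1 (Finset.mem_range.1 hk)
    obtain ⟨r, hr⟩ : ∃ r, w = k + r := ⟨w - k, by omega⟩
    have h1 : w - k = r := by omega
    rw [h1, hr, map_mul, map_pow, hu, mul_pow, ← pow_mul, add_mul, pow_add, mul_comm k e]
    ring
  have hN : φ (f.eval t) * (p : C) ^ (w * e) ∈ Nr C p := by
    rw [hsum]
    exact sum_mem fun k hk => mul_mem (mul_mem (hc k (Nat.lt_succ_iff.1 (Finset.mem_range.1 hk)))
      (pow_mem huN _)) (pow_mem hpN _)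
  have hn : ‖φ (f.eval t) * (p : C) ^ (w * e)‖ = 1 := by
    refine neq_one (y := φ (f.coeff w) * u ^ w) ?_ ?_
    · rw [hsum, Finset.sum_range_succ, Nat.sub_self, zero_mul, pow_zero, mul_one, add_sub_cancel_right]
      refine (nsum_le (r := ‖(p : C)‖) _ _ hp0.le fun k hk => ?_).trans_lt hp1
      have hk' : k < w := Finset.mem_range.1 hk
      rw [norm_mul, norm_mul, norm_pow, norm_pow, hu1, one_pow, mul_one]
      calc ‖φ (f.coeff k)‖ * ‖(p : C)‖ ^ ((w - k) * e) ≤ 1 * ‖(p : C)‖ ^ 1 := by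
            refine mul_le_mul (Nr_le (hc k hk'.le)) ?_ (by positivity) zero_le_one
            exact pow_le_pow_of_le_one hp0.le hp1.le (Nat.mul_pos (by omega) he)
        _ = ‖(p : C)‖ := by rw [one_mul, pow_one]
    · rw [norm_mul, norm_pow, hu1, one_pow, mul_one]
      exact hl
  refine ⟨?_, hN⟩
  rw [norm_mul, norm_pow] at hn
  rw [zpow_neg, zpow_natCast]
  exact eq_inv_of_mul_eq_one_left hn

end local_

/-- the conclusion -/
def ZPC {n : ℕ} (Γ : Set ℂ) (S : Set (Fin n → ℂ)) : Prop :=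
  {x : Fin n → ℂ | x ∈ S ∧ ∃ (r : ℕ) (Z : SV Γ n r), r + 2 ≤ n ∧ x ∈ Z.locus}.Finite ∧
  ∀ (r : ℕ) (Z : SV Γ n r), r < n → {x : Fin n → ℂ | x ∈ S ∧ x ∈ Z.locus}.Finite

/-- the member of the family at the parameter `t` -/
def famS {n : ℕ} {κ : Type} (F : κ → MvPolynomial (Fin n × Bool) (MvPolynomial (Fin 1) QA))
    (lam : Fin n → QA[X]) (t : ℂ) : Set (Fin n → ℂ) :=
  {x | ∃ y ∈ VS F (fun _ => t⁻¹), ∀ i, x i = (lam i).eval₂ rA t * y i}

theorem fam_prime2 (hFam : S_FAM) (hPT : S_PT2) (hCo : S_CORE) (hFi : S_FIN)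
    (n : ℕ) (κ : Type) [Finite κ] (d₀ : ℕ)
    (F : κ → MvPolynomial (Fin n × Bool) (MvPolynomial (Fin 1) QA))
    (hF : GM d₀ (MvPolynomial.eval (0 : Fin 1 → QA)) F) (lam : Fin n → QA[X])
    (hlam : ∀ i, 0 < (lam i).natDegree) (Γ : Finset ℂ) (hΓ : ∀ γ ∈ Γ, IsAlgebraic ℚ γ) :
    ∃ D : ℕ, ∀ p : ℕ, p.Prime → D < p → ∀ (s : ℕ) (a : ℕ → ℤ), (p : ℤ) ∣ a (s + 1) →
      ¬ (p : ℤ) ∣ a s → a (s + 1) ≠ 0 → ∀ t : ℂ, (minpoly ℚ t).natDegree = s + 1 →
      ∑ k ∈ Finset.range (s + 2), (a k : ℂ) * t ^ k = 0 → ZPC (Γ : Set ℂ) (famS F lam t) := by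
  classical
  obtain ⟨D, hD⟩ := fam_loc hFam hPT hCo hFi n 1 (∑ i, (lam i).natDegree) κ d₀ F hF
  choose Dn hDn using nr_large
  have hΓ' : ∀ γ : ℂ, ∃ c : QA, IsAlgebraic ℚ γ → rA c = γ := by
    intro γ
    by_cases h : IsAlgebraic ℚ γ
    · exact ⟨⟨γ, mem_QA.2 h⟩, fun _ => rfl⟩
    · exact ⟨0, fun h' => absurd h' h⟩
  choose cc hcc using hΓ'
  set cb : QA[X] → ℕ := fun f =>
    ∑ k ∈ Finset.range (f.natDegree + 1), (Dn (f.coeff k) + Dn (f.coeff k)⁻¹) with hcb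
  refine ⟨D + ∑ i, cb (lam i) + ∑ γ ∈ Γ, Dn (cc γ), ?_⟩
  intro p hp hDp
  haveI hpf : Fact p.Prime := ⟨hp⟩
  obtain ⟨C, _, _, _, _, _, -, hpn⟩ := exists_padic p
  have hpR : (1 : ℝ) < p := by exact_mod_cast hp.one_lt
  have hp0 : 0 < ‖(p : C)‖ := by rw [hpn]; exact inv_pos.2 (by linarith)
  have hp1 : ‖(p : C)‖ < 1 := by rw [hpn]; exact inv_lt_one_of_one_lt₀ hpR
  obtain ⟨k, _, _, _, red, hker, hsurj⟩ := Y61.ZX.exists_residue3 (C := C) (p := p) hp1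
  obtain ⟨𝕜, _, _, _, ρ, ι, hρ, hι⟩ := Y61.ZX.exists_res_Nr (C := C) (p := p) hp1 red hker hsurj
  intro s a h1 h2 h3 t ht hr
  obtain ⟨t', φ, ht't, htF, htn⟩ := exists_conj (C := C) hp1 a h1 h2 h3 ht hr
  -- the exponent
  obtain ⟨e, m', hm', hme⟩ := Nat.exists_eq_pow_mul_and_not_dvd (Int.natAbs_ne_zero.2 h3) p
    hp.one_lt.ne'
  have he : 0 < e := by
    rcases Nat.eq_zero_or_pos e with h | h
    · exfalso
      subst h
      rw [pow_zero, one_mul] at hme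
      exact hm' (hme ▸ Int.natCast_dvd.1 h1)
    · exact h
  have hmn : ‖(a (s + 1) : C)‖ = ‖(p : C)‖ ^ e := by
    have h4 : ‖(a (s + 1) : C)‖ = ‖(((a (s + 1)).natAbs : ℕ) : C)‖ := by
      rcases Int.natAbs_eq (a (s + 1)) with h | h
      · conv_lhs => rw [h]
        rw [Int.cast_natCast]
      · conv_lhs => rw [h]
        rw [Int.cast_neg, Int.cast_natCast, norm_neg]
    have h5 : ‖((m' : ℤ) : C)‖ = 1 := int_unit hp1 (by exact_mod_cast hm')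
    rw [Int.cast_natCast] at h5
    rw [h4, hme]
    push_cast
    rw [norm_mul, norm_pow, h5, mul_one]
  have htn' : ‖φ t'‖ = ‖(p : C)‖⁻¹ ^ e := by rw [htn, hmn, inv_pow]
  have hle : ∀ i, cb (lam i) ≤ ∑ i, cb (lam i) := fun i =>
    Finset.single_le_sum (f := fun i => cb (lam i)) (fun _ _ => Nat.zero_le _) (Finset.mem_univ i)
  have hcoef : ∀ i, ∀ k ≤ (lam i).natDegree, φ ((lam i).coeff k) ∈ Nr C p ∧
      φ ((lam i).coeff k)⁻¹ ∈ Nr C p := by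
    intro i k hk
    have h4 : Dn ((lam i).coeff k) + Dn ((lam i).coeff k)⁻¹ ≤ cb (lam i) :=
      Finset.single_le_sum (f := fun k => Dn ((lam i).coeff k) + Dn ((lam i).coeff k)⁻¹)
        (fun _ _ => Nat.zero_le _) (Finset.mem_range.2 (Nat.lt_succ_of_le hk))
    have h5 := hle i
    exact ⟨hDn _ p (by omega) C φ hp1, hDn _ p (by omega) C φ hp1⟩
  have hlead : ∀ i, ‖φ (lam i).leadingCoeff‖ = 1 := by
    intro i
    obtain ⟨h4, h5⟩ := hcoef i _ le_rfl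
    have hne : (lam i).leadingCoeff ≠ 0 := by
      intro h0
      have := hlam i
      rw [leadingCoeff_eq_zero.1 h0, natDegree_zero] at this
      exact absurd this (lt_irrefl 0)
    have h6 : ‖φ (lam i).leadingCoeff‖ * ‖φ (lam i).leadingCoeff⁻¹‖ = 1 := by
      rw [← norm_mul, ← map_mul, mul_inv_cancel₀ hne, map_one, norm_one]
    have h7 := Nr_le h4
    have h8 := Nr_le h5
    have h9 : ‖φ (lam i).leadingCoeff‖ ≤ 1 := h7
    have h10 : ‖φ (lam i).leadingCoeff⁻¹‖ ≤ 1 := h8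
    have h11 := norm_nonneg (φ (lam i).leadingCoeff)
    have h12 := norm_nonneg (φ (lam i).leadingCoeff⁻¹)
    nlinarith
  have hpoly := fun i => poly_large hp0 hp1 φ (lam i) (hlam i) (fun k hk => (hcoef i k hk).1)
    (hlead i) htF he htn'
  have hinv : φ t'⁻¹ ∈ Nr C p ∧ ‖φ t'⁻¹‖ < 1 := by
    have h4 : ‖φ t'⁻¹‖ < 1 := by
      rw [map_inv₀, norm_inv, htn', ← inv_pow, inv_inv]
      exact pow_lt_one₀ hp0.le hp1 he.ne'
    refine ⟨QF_Nr hp0 hp1 ?_ h4.le, h4⟩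
    rw [map_inv₀]
    exact inv_mem htF
  have hfin := hD p (by omega) C k red 𝕜 ρ ι φ hp0 hp1 hker hρ hι (fun _ => t'⁻¹)
    (fun _ => hinv) (fun i => (lam i).eval t') e (fun i => (lam i).natDegree) he
    (fun i => ⟨hlam i, Finset.single_le_sum (f := fun i => (lam i).natDegree)
      (fun _ _ => Nat.zero_le _) (Finset.mem_univ i), hpoly i⟩) (Γ : Set ℂ) (by
      intro γ hγ
      refine ⟨cc γ, hcc γ (hΓ γ hγ), Nr_le (hDn (cc γ) p ?_ C φ hp1)⟩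
      have : Dn (cc γ) ≤ ∑ γ ∈ Γ, Dn (cc γ) :=
        Finset.single_le_sum (f := fun γ => Dn (cc γ)) (fun _ _ => Nat.zero_le _) hγ
      omega)
  have hev : ∀ i, rA ((lam i).eval t') = (lam i).eval₂ rA t := by
    intro i
    rw [← ht't, eval₂_at_apply]
  have hinv' : rA t'⁻¹ = t⁻¹ := by rw [map_inv₀, ht't]
  simp only [hev, hinv'] at hfin
  exact hfin

theorem ZPC_congr_set {n : ℕ} {Γ : Set ℂ} {S S' : Set (Fin n → ℂ)} (h : S' ⊆ S)
    (hS : ZPC Γ S) : ZPC Γ S' :=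
  ⟨hS.1.subset fun _ hx => ⟨h hx.1, hx.2⟩, fun r Z hr => (hS.2 r Z hr).subset
    fun _ hx => ⟨h hx.1, hx.2⟩⟩

/-- the density theorem for families -/
theorem fam_density (hFam : S_FAM) (hPT : S_PT2) (hCo : S_CORE) (hFi : S_FIN)
    (n : ℕ) (κ : Type) [Finite κ] (d₀ : ℕ)
    (F : κ → MvPolynomial (Fin n × Bool) (MvPolynomial (Fin 1) QA))
    (hF : GM d₀ (MvPolynomial.eval (0 : Fin 1 → QA)) F) (lam : Fin n → QA[X])
    (hlam : ∀ i, 0 < (lam i).natDegree) (Γ : Finset ℂ) (hΓ : ∀ γ ∈ Γ, IsAlgebraic ℚ γ)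
    (δ : ℕ) (hδ : 0 < δ) (ε : ℝ) (hε : 0 < ε) :
    ∃ H₀ : ℕ, ∀ H : ℕ, H₀ ≤ H → (1 - ε) * (2 * H + 1) ^ (δ + 1) ≤
      ({a : Fin (δ + 1) → ℤ | (∀ k, |a k| ≤ H) ∧ ∀ t : ℂ, (minpoly ℚ t).natDegree = δ →
        ∑ k : Fin (δ + 1), (a k : ℂ) * t ^ (k : ℕ) = 0 →
          ZPC (Γ : Set ℂ) (famS F lam t)}.ncard : ℝ) := by
  classical
  obtain ⟨D, hD⟩ := fam_prime2 hFam hPT hCo hFi n κ d₀ F hF lam hlam Γ hΓ
  obtain ⟨s, rfl⟩ : ∃ s, δ = s + 1 := ⟨δ - 1, by omega⟩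
  obtain ⟨T', H₀, hH₀⟩ := density (MvPolynomial.X (Fin.last s) : MvPolynomial (Fin (s + 1)) ℤ)
    (MvPolynomial.X_ne_zero _) D ε hε
  refine ⟨H₀, fun H hH => ?_⟩
  have h1 := hH₀ H hH
  rw [Fintype.card_fin, add_comm 1] at h1
  refine h1.trans (Nat.cast_le.2 ?_)
  have hfin : {a : Fin (s + 1 + 1) → ℤ | ∀ k, |a k| ≤ (H : ℤ)}.Finite := by
    refine (Finset.finite_toSet (Fintype.piFinset fun _ : Fin (s + 1 + 1) =>
      Finset.Icc (-(H : ℤ)) H)).subset ?_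
    intro a ha
    rw [Finset.mem_coe, Fintype.mem_piFinset]
    exact fun k => Finset.mem_Icc.2 (abs_le.1 (ha k))
  refine Set.ncard_le_ncard_of_injOn
    (fun q : ℤ × (Fin (s + 1) → ℤ) => (Fin.snoc q.2 q.1 : Fin (s + 1 + 1) → ℤ)) ?_ ?_
    (hfin.subset fun a ha => ha.1)
  · rintro ⟨m, b⟩ ⟨h2, h3, h4, p, hp, hpD, hpT', hpq, hpR⟩
    rw [MvPolynomial.eval_X] at hpR
    simp only at h2 h3 h4 hpq hpR
    refine ⟨fun k => ?_, fun t ht hr => ?_⟩
    · refine Fin.lastCases ?_ (fun k => ?_) k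
      · rw [Fin.snoc_last]; exact h2
      · rw [Fin.snoc_castSucc]; exact h3 k
    · set a : ℕ → ℤ := fun k => if h : k < s + 1 + 1 then
        (Fin.snoc b m : Fin (s + 1 + 1) → ℤ) ⟨k, h⟩ else 0 with ha
      have ha1 : a (s + 1) = m := by
        rw [ha]
        simp only
        rw [dif_pos (by omega)]
        exact Fin.snoc_last (α := fun _ => ℤ) m b
      have ha2 : a s = b (Fin.last s) := by
        rw [ha]
        simp only
        rw [dif_pos (by omega)]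
        exact Fin.snoc_castSucc (α := fun _ => ℤ) m b (Fin.last s)
      have hr' : ∑ k ∈ Finset.range (s + 2), (a k : ℂ) * t ^ k = 0 := by
        rw [Finset.sum_range, ← hr]
        refine Finset.sum_congr rfl fun k _ => ?_
        have : a (k : ℕ) = (Fin.snoc b m : Fin (s + 1 + 1) → ℤ) k := by
          rw [ha]
          simp only
          rw [dif_pos k.2]
        rw [this]
      exact hD p hp hpD s a (by rw [ha1]; exact hpq) (by rw [ha2]; exact hpR)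
        (by rw [ha1]; exact h4) t ht hr'
  · rintro ⟨m, b⟩ _ ⟨m', b'⟩ _ h
    have h2 := (Fin.snoc_inj (α := fun _ => ℤ)).1 h
    exact Prod.ext h2.2 h2.1

end Pool.Agent.Y92.ZX
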