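import Pool.Agent.Y92.ZX.Stm2

/-!
# Project ZX: families of curves
-/

set_option autoImplicit false
set_option linter.unusedSectionVars false

open UpperHalfPlane H294ZP Polynomial IsDedekindDomain NumberField

namespace Pool.Agent.Y92.ZX

open Pool.Agent.Y226 Pool.Agent.Y226.ZG Pool.Agent.Y226.ZM Pool.Agent.Y226.ZU

/-- the pair relations of a family over `R` at the origin, after reduction by `χ` -/
def Cor2 {R 𝕜 : Type} [CommRing R] [Field 𝕜] {n m : ℕ} {κ : Type} (χ : R →+* 𝕜)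
    (FR : κ → MvPolynomial (Fin n × Bool) (MvPolynomial (Fin m) R)) : Prop :=
  ∀ i j : Fin n, i ≠ j → ∃ (a b : ℕ) (g : ℕ → ℕ → MvPolynomial (Fin m) R),
    χ (MvPolynomial.eval 0 (g 0 0)) ≠ 0 ∧ χ (MvPolynomial.eval 0 (g a 0)) ≠ 0 ∧
    χ (MvPolynomial.eval 0 (g 0 b)) ≠ 0 ∧ χ (MvPolynomial.eval 0 (g a b)) ≠ 0 ∧
    (∀ c : 𝕜, ∃ v ≤ b, ∑ u ∈ Finset.range (a + 1),
      χ (MvPolynomial.eval 0 (g u v)) * c ^ u ≠ 0) ∧
    bh i j a b g ∈ Ideal.span (Set.range FR)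

/-- Block FAM: the data for a family whose fibre at the origin is a curve in general position;
everything is defined over all sufficiently large rings. -/
def S_FAM : Prop := ∀ (n m W : ℕ) (κ : Type) [Finite κ] (d₀ : ℕ)
  (F : κ → MvPolynomial (Fin n × Bool) (MvPolynomial (Fin m) QA)),
  GM d₀ (MvPolynomial.eval (0 : Fin m → QA)) F →
  ∃ (N M d D B : ℕ) (S₀ : Finset QA), 0 < N ∧ W * N + W ≤ M ∧
  ∀ R : Subring QA, (∀ s ∈ S₀, s ∈ R) →
  ∃ FR : κ → MvPolynomial (Fin n × Bool) (MvPolynomial (Fin m) R),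
    (∀ t, MvPolynomial.map (MvPolynomial.map R.subtype) (FR t) = F t) ∧ (∀ t, MHom (FR t)) ∧
    ∀ (𝕜 : Type) [Field 𝕜] (χ : R →+* 𝕜),
      (∃ 𝓡 : RD 𝕜 n N W M d D, RDB 𝓡 B ∧
        Mem (χ.comp (MvPolynomial.eval (0 : Fin m → R))) FR 𝓡) ∧ Cor2 χ FR

/-- the relations are in the ideals `J c` of the charts `c` -/
structure MemI {A : Type} [CommRing A] {n : ℕ} (J : Option (Fin n) → Ideal (MvPolynomial (Fin n) A))
    {N W M d D : ℕ} (𝓡 : RD A n N W M d D) : Prop where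
  m1 : ∀ (c : Option (Fin n)) (i : Fin n) (s : Bool) (j : Fin n), i ≠ j →
    (s = false ∧ c ≠ some i ∨ s = true ∧ c = some i) → c ≠ some j →
    E2 MvPolynomial.C (MvPolynomial.X i) (MvPolynomial.X j) (𝓡.g i s j) ∈ J c
  m2 : ∀ (c : Option (Fin n)) (v w : Fin n → ℤ), Bv M v → Bv M w → LI v w →
    (∀ a, c = some a → v a = 0 ∧ w a = 0) → hpol d (𝓡.h v w) v w ∈ J c

/-- Block FAM1: the data of one curve over all sufficiently large rings. -/
def S_FAM1 : Prop := ∀ (n W d₀ : ℕ) (κ : Type) [Finite κ]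
  (G : Option (Fin n) → κ → MvPolynomial (Fin n) QA),
  CC d₀ (Ideal.span (Set.range (G none))) →
  (∀ (N M d D : ℕ) (𝓡 : RD QA n N W M d D), Rels 𝓡 (Ideal.span (Set.range (G none))) →
    MemI (fun c => Ideal.span (Set.range (G c))) 𝓡) →
  ∃ (N M d D B : ℕ) (S₀ : Finset QA), 0 < N ∧ W * N + W ≤ M ∧
  ∀ R : Subring QA, (∀ s ∈ S₀, s ∈ R) →
  ∀ GR : Option (Fin n) → κ → MvPolynomial (Fin n) R,
    (∀ c t, MvPolynomial.map R.subtype (GR c t) = G c t) →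
    ∃ 𝓡 : RD R n N W M d D, RDB 𝓡 B ∧ MemI (fun c => Ideal.span (Set.range (GR c))) 𝓡

/-- Block FAM2: the model and its pair relations over all sufficiently large rings. -/
def S_FAM2 : Prop := ∀ (n m : ℕ) (κ : Type) [Finite κ] (d₀ : ℕ)
  (F : κ → MvPolynomial (Fin n × Bool) (MvPolynomial (Fin m) QA)),
  GM d₀ (MvPolynomial.eval (0 : Fin m → QA)) F →
  ∃ S₀ : Finset QA, ∀ R : Subring QA, (∀ s ∈ S₀, s ∈ R) →
  ∃ FR : κ → MvPolynomial (Fin n × Bool) (MvPolynomial (Fin m) R),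
    (∀ t, MvPolynomial.map (MvPolynomial.map R.subtype) (FR t) = F t) ∧ (∀ t, MHom (FR t)) ∧
    ∀ (𝕜 : Type) [Field 𝕜] (χ : R →+* 𝕜), Cor2 χ FR

end Pool.Agent.Y92.ZX
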