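import Pool.Agent.Y92.ZX.Main
import Pool.Agent.Y92.ZX.Fam
import Pool.Agent.Y427.ZX.Pt2
import Pool.Agent.Y948.ZX.Fam1
import Pool.Agent.Y108.ZX.Fam2

/-!
# The theorem on families, unconditionally
-/

set_option autoImplicit false
set_option linter.unusedSectionVars false

open UpperHalfPlane H294ZP Polynomial IsDedekindDomain NumberField

namespace Pool.Agent.Y92.ZX

open Pool.Agent.Y226 Pool.Agent.Y226.ZG Pool.Agent.Y226.ZM Pool.Agent.Y226.ZU

theorem chart_map {A B A' B' : Type} [CommRing A] [CommRing B] [CommRing A'] [CommRing B'] {n : ℕ}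
    (π : A →+* B) (π' : A' →+* B') (f : A →+* A') (g : B →+* B') (h : π'.comp f = g.comp π)
    (c : Option (Fin n)) (F : MvPolynomial (Fin n × Bool) A) :
    MvPolynomial.map g (MvPolynomial.eval₂ (MvPolynomial.C.comp π) (chv c MvPolynomial.X) F) =
      MvPolynomial.eval₂ (MvPolynomial.C.comp π') (chv c MvPolynomial.X)
        (MvPolynomial.map f F) := by
  have h1 := MvPolynomial.eval₂_comp_left (MvPolynomial.map g : MvPolynomial (Fin n) B →+*
    MvPolynomial (Fin n) B') ((MvPolynomial.C (R := B) (σ := Fin n)).comp π)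
    (chv c MvPolynomial.X) F
  rw [h1, MvPolynomial.eval₂_map]
  congr 1
  · rw [RingHom.comp_assoc, h]
    refine RingHom.ext fun r => ?_
    simp
  · rw [Y151.ZX.map_chv]
    congr 1
    funext i
    simp

theorem eval0_map {A B : Type} [CommRing A] [CommRing B] {m : ℕ} (f : A →+* B) :
    (MvPolynomial.eval (0 : Fin m → B)).comp (MvPolynomial.map f) =
      f.comp (MvPolynomial.eval (0 : Fin m → A)) := by
  refine MvPolynomial.ringHom_ext ?_ ?_
  · intro r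
    simp
  · intro l
    simp

theorem fam : S_FAM := by
  classical
  intro n m W κ _ d₀ F hF
  set π : MvPolynomial (Fin m) QA →+* QA := MvPolynomial.eval (0 : Fin m → QA) with hπ
  let G : Option (Fin n) → κ → MvPolynomial (Fin n) QA := fun c t =>
    MvPolynomial.eval₂ (MvPolynomial.C.comp π) (chv c MvPolynomial.X) (F t)
  have hCC : CC d₀ (Ideal.span (Set.range (G none))) := Y945.ZX.gmcc _ _ n κ d₀ π F hF
  obtain ⟨N, M, d, D, B, S₀, hN, hM, h1⟩ := Y948.ZX.fam1 n W d₀ κ G hCC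
    (fun N' M' d' D' 𝓡 hR => by
      have h2 := Y427.ZX.mem Y151.ZX.cht _ _ n κ d₀ π F hF N' W M' d' D' 𝓡 hR
      exact ⟨h2.m1, h2.m2⟩)
  obtain ⟨S₁, h2⟩ := Y108.ZX.fam2 n m κ d₀ F hF
  refine ⟨N, M, d, D, B, S₀ ∪ S₁, hN, hM, fun R hR => ?_⟩
  obtain ⟨FR, hFR, hHom, hcor⟩ := h2 R fun s hs => hR s (Finset.mem_union_right _ hs)
  refine ⟨FR, hFR, hHom, fun 𝕜 _ χ => ⟨?_, hcor 𝕜 χ⟩⟩
  obtain ⟨𝓡, hB, hm⟩ := h1 R (fun s hs => hR s (Finset.mem_union_left _ hs))
    (fun c t => MvPolynomial.eval₂ (MvPolynomial.C.comp (MvPolynomial.eval (0 : Fin m → R)))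
      (chv c MvPolynomial.X) (FR t)) (fun c t => by
      rw [chart_map _ π (MvPolynomial.map R.subtype) R.subtype (eval0_map _), hFR])
  have hsp : ∀ c : Option (Fin n), ∀ f ∈ Ideal.span (Set.range fun t =>
      MvPolynomial.eval₂ (MvPolynomial.C.comp (MvPolynomial.eval (0 : Fin m → R)))
      (chv c MvPolynomial.X) (FR t)), MvPolynomial.map χ f ∈
        chI (χ.comp (MvPolynomial.eval (0 : Fin m → R))) FR c := by
    intro c f hf
    have h3 := Ideal.mem_map_of_mem (MvPolynomial.map χ) hf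
    rw [Ideal.map_span, ← Set.range_comp] at h3
    unfold chI
    convert h3 using 4 with t
    simp only [Function.comp_apply]
    rw [chart_map _ (χ.comp (MvPolynomial.eval (0 : Fin m → R))) (RingHom.id _) χ
      (RingHom.comp_id _), MvPolynomial.map_id]
  refine ⟨Y448.ZX.mapRD χ 𝓡, Y448.ZX.mapRD_RDB χ hB, ⟨?_, ?_⟩⟩
  · intro c i s j hij h3 h4
    have h5 := hsp c _ (hm.m1 c i s j hij h3 h4)
    rw [Y948.ZX.E2X_map] at h5
    exact h5
  · intro c v w hv hw hvw h3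
    have h5 := hsp c _ (hm.m2 c v w hv hw hvw h3)
    rw [Y948.ZX.hpol_map] at h5
    exact h5

/-- The theorem on families. -/
theorem fam_all (n m W : ℕ) (κ : Type) [Finite κ] (d₀ : ℕ)
    (F : κ → MvPolynomial (Fin n × Bool) (MvPolynomial (Fin m) QA))
    (hF : GM d₀ (MvPolynomial.eval (0 : Fin m → QA)) F) :
    ∃ D : ℕ, ∀ (K : Type) [Field K] [NumberField K] (σ : K →+* ℂ)
    (v : HeightOneSpectrum (𝓞 K)) (p : ℕ), p.Prime → D < p → (p : 𝓞 K) ∈ v.asIdeal →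
    (p : 𝓞 K) ∉ v.asIdeal ^ 2 → ∀ s : Fin m → K, (∀ l, v.valuation K (s l) < 1) →
    ∀ (lam : Fin n → K) (e : ℕ) (w : Fin n → ℕ), 0 < e →
    (∀ i, 0 < w i ∧ w i ≤ W ∧ v.valuation K (lam i) = WithZero.exp ((w i * e : ℕ) : ℤ)) →
    {x : Fin n → ℂ | (∃ y ∈ VS F (fun l => σ (s l)), ∀ i, x i = σ (lam i) * y i) ∧
      ∃ (r : ℕ) (Z : SV (intAt σ v) n r), r + 2 ≤ n ∧ x ∈ Z.locus}.Finite ∧
    ∀ (r : ℕ) (Z : SV (intAt σ v) n r), r < n →
      {x : Fin n → ℂ | (∃ y ∈ VS F (fun l => σ (s l)), ∀ i, x i = σ (lam i) * y i) ∧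
        x ∈ Z.locus}.Finite :=
  main_fam fam (Y427.ZX.pt2 Y151.ZX.eva) core_all Y219.ZX.fin Y61.ZX.nf n m W κ d₀ F hF

end Pool.Agent.Y92.ZX
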