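import Pool.Agent.Y92.ZX.AA
import Pool.Agent.Y92.ZX.FamAll

/-!
# The density theorem for families, unconditionally
-/

set_option autoImplicit false
set_option linter.unusedSectionVars false

open UpperHalfPlane H294ZP Polynomial IsDedekindDomain NumberField

namespace Pool.Agent.Y92.ZX

open Pool.Agent.Y226 Pool.Agent.Y226.ZG Pool.Agent.Y226.ZM Pool.Agent.Y226.ZU

/-- the member of the family at the parameter `t`, for families over the affine line -/
def famP {n : ℕ} {κ : Type} (F : κ → MvPolynomial (Fin n × Bool) QA[X])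
    (lam : Fin n → QA[X]) (t : ℂ) : Set (Fin n → ℂ) :=
  {x | ∃ y : Fin n → ℂ, (∀ τ, MvPolynomial.eval₂ (Polynomial.eval₂RingHom rA t⁻¹) (chv none y)
    (F τ) = 0) ∧ ∀ i, x i = (lam i).eval₂ rA t * y i}

/-- The density theorem for families. -/
theorem fam_density_all (n : ℕ) (κ : Type) [Finite κ] (d₀ : ℕ)
    (F : κ → MvPolynomial (Fin n × Bool) QA[X])
    (hF : GM d₀ (Polynomial.evalRingHom (0 : QA)) F) (lam : Fin n → QA[X])
    (hlam : ∀ i, 0 < (lam i).natDegree) (Γ : Finset ℂ) (hΓ : ∀ γ ∈ Γ, IsAlgebraic ℚ γ)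
    (δ : ℕ) (hδ : 0 < δ) (ε : ℝ) (hε : 0 < ε) :
    ∃ H₀ : ℕ, ∀ H : ℕ, H₀ ≤ H → (1 - ε) * (2 * H + 1) ^ (δ + 1) ≤
      ({a : Fin (δ + 1) → ℤ | (∀ k, |a k| ≤ H) ∧ ∀ t : ℂ, (minpoly ℚ t).natDegree = δ →
        ∑ k : Fin (δ + 1), (a k : ℂ) * t ^ (k : ℕ) = 0 →
          ZPC (Γ : Set ℂ) (famP F lam t)}.ncard : ℝ) := by
  let θ : QA[X] →+* MvPolynomial (Fin 1) QA :=
    Polynomial.eval₂RingHom MvPolynomial.C (MvPolynomial.X 0)
  have hθ0 : (MvPolynomial.eval (0 : Fin 1 → QA)).comp θ = Polynomial.evalRingHom (0 : QA) := by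
    refine Polynomial.ringHom_ext ?_ ?_
    · intro r
      simp [θ]
    · simp [θ]
  have hF' : GM d₀ (MvPolynomial.eval (0 : Fin 1 → QA)) (fun τ => MvPolynomial.map θ (F τ)) := by
    refine GM.map (θ := θ) ?_
    rw [hθ0]
    exact hF
  obtain ⟨H₀, h⟩ := fam_density fam (Y427.ZX.pt2 Y151.ZX.eva) core_all Y219.ZX.fin n κ d₀ _ hF'
    lam hlam Γ hΓ δ hδ ε hε
  refine ⟨H₀, fun H hH => ?_⟩
  have hS : ∀ t : ℂ, famS (fun τ => MvPolynomial.map θ (F τ)) lam t = famP F lam t := by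
    intro t
    have hc : (MvPolynomial.eval₂Hom rA (fun _ : Fin 1 => t⁻¹)).comp θ =
        Polynomial.eval₂RingHom rA t⁻¹ := by
      refine Polynomial.ringHom_ext ?_ ?_
      · intro r
        simp [θ]
      · simp [θ]
    have hVS : VS (fun τ => MvPolynomial.map θ (F τ)) (fun _ => t⁻¹) =
        {y | ∀ τ, MvPolynomial.eval₂ (Polynomial.eval₂RingHom rA t⁻¹) (chv none y)
          (F τ) = 0} := by
      ext y
      show (∀ τ, _ = _) ↔ ∀ τ, _ = _
      refine forall_congr' fun τ => ?_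
      rw [MvPolynomial.eval₂_map, hc]
    unfold famS famP
    rw [hVS]
    rfl
  have h1 := h H hH
  simp only [hS] at h1
  exact h1

end Pool.Agent.Y92.ZX
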