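import Pool.Agent.Y92.ZX.Stm

/-!
# The local theorem

Adapted from `Pool.Agent.Y226.ZU.Core` (helper226).
-/

set_option autoImplicit false
set_option linter.unusedSectionVars false

open UpperHalfPlane H294ZP Polynomial

namespace Pool.Agent.Y92.ZX

open Pool.Agent.Y226 Pool.Agent.Y226.ZG

section PB

variable {C : Type} [NormedField C] [IsUltrametricDist C] {p : ℕ} [hpf : Fact p.Prime]
  {k 𝕜 : Type} [Field k] [Field 𝕜] {n N W M d D B : ℕ} {𝓛 : LB C p k 𝕜 n N W M d D B}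
  {κ : Fin n → OO C} {Y : Fin n → Cˣ} {X : Fin n → QA} {j l : Fin n} {A B₁ g' s : ℕ} {ζ' ε : Cˣ}

theorem PB.close (h : PB 𝓛 κ Y X j l A B₁ g' s ζ' ε) (hYj : ‖((Y j : Cˣ) : C)‖ = 1)
    (hYl : ‖((Y l : Cˣ) : C)‖ = 1) :
    ‖((𝓛.Λ l ^ B₁ * (𝓛.Λ j ^ A)⁻¹ * (Y l ^ B₁ * (Y j ^ A)⁻¹) * (ζ' * ε) : Cˣ) : C) - 1‖ ≤
      ‖(p : C)‖ := by
  have e1 : ((𝓛.Λ l ^ B₁ * (𝓛.Λ j ^ A)⁻¹ * (Y l ^ B₁ * (Y j ^ A)⁻¹) * (ζ' * ε) : Cˣ) : C) - 1 =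
      (((𝓛.Λ l ^ B₁ * (𝓛.Λ j ^ A)⁻¹ * (Y l ^ B₁ * (Y j ^ A)⁻¹) * (ζ' * ε) : Cˣ) : C) -
        (1 + p * (B₁ * (κ l * ((Y l : Cˣ) : C)⁻¹) - A * (κ j * ((Y j : Cˣ) : C)⁻¹)))) +
        p * (B₁ * (κ l * ((Y l : Cˣ) : C)⁻¹) - A * (κ j * ((Y j : Cˣ) : C)⁻¹)) := by ring
  rw [e1]
  refine nadd_le (h.hexp.trans (pow_le_of_le_one (norm_nonneg _) 𝓛.hp1.le two_ne_zero)) ?_
  refine nmul_le' le_rfl (nsub_le (nmul_le (nnat B₁) (nmul_le (κ l).2 ?_))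
    (nmul_le (nnat A) (nmul_le (κ j).2 ?_)))
  · rw [norm_inv, hYl, inv_one]
  · rw [norm_inv, hYj, inv_one]

/-- membership in `GG` -/
theorem PB.mem_GG (h : PB 𝓛 κ Y X j l A B₁ g' s ζ' ε) (hYj : ‖((Y j : Cˣ) : C)‖ = 1)
    (hYl : ‖((Y l : Cˣ) : C)‖ = 1) :
    (Y l ^ B₁ * (Y j ^ A)⁻¹) * ε ∈ GG C p ‖(p : C)‖ (norm_nonneg _) 𝓛.hp1 := by
  have h1 : 𝓛.Λ l ^ B₁ * (𝓛.Λ j ^ A)⁻¹ * (Y l ^ B₁ * (Y j ^ A)⁻¹) * (ζ' * ε) ∈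
      GG C p ‖(p : C)‖ (norm_nonneg _) 𝓛.hp1 :=
    GG_of_close (one_mem _) norm_one (h.close hYj hYl)
  have h2 : ζ' ∈ GG C p ‖(p : C)‖ (norm_nonneg _) 𝓛.hp1 := by
    obtain ⟨f', hf', hff⟩ := fixed_of_pow_eq_one h.hcop h.hζ.pow_eq_one
    refine GG_of_close (w := (ζ' : C)) (Nr_of_fixed hf' hff) ?_ (by simp)
    have h1 : ‖(ζ' : C)‖ ^ g' = 1 := by rw [← norm_pow, h.hζ.pow_eq_one, norm_one]
    exact (pow_eq_one_iff_of_nonneg (norm_nonneg _) h.hg.ne').1 h1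
  have h3 := GG_mono (h0' := norm_nonneg _) (h1' := 𝓛.hp1) (norm_nonneg (p : C)) h.hμ
  have e2 : (Y l ^ B₁ * (Y j ^ A)⁻¹) * ε =
      (𝓛.Λ l ^ B₁ * (𝓛.Λ j ^ A)⁻¹ * (Y l ^ B₁ * (Y j ^ A)⁻¹) * (ζ' * ε)) *
        (𝓛.Λ l ^ B₁ * (𝓛.Λ j ^ A)⁻¹)⁻¹ * ζ'⁻¹ := by
    generalize 𝓛.Λ l ^ B₁ * (𝓛.Λ j ^ A)⁻¹ = μ
    generalize Y l ^ B₁ * (Y j ^ A)⁻¹ = F
    calc F * ε = (μ * μ⁻¹) * (ζ' * ζ'⁻¹) * (F * ε) := by
          rw [mul_inv_cancel, mul_inv_cancel, one_mul, one_mul]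
      _ = μ * F * (ζ' * ε) * μ⁻¹ * ζ'⁻¹ := by ac_rfl
  rw [e2]
  exact mul_mem (mul_mem h1 (inv_mem h3)) (inv_mem h2)

/-- no wild torsion for two distinct pairs -/
theorem no_wildB (hW : S_WILD) {x : Fin n → C} (hx : 𝓛.Pt x)
    {j l j' l' : Fin n} (hYj : (Y j : C) = x j) (hYl : (Y l : C) = x l)
    (hYj' : (Y j' : C) = x j') (hYl' : (Y l' : C) = x l') (hnj : ‖x j‖ = 1) (hnl : ‖x l‖ = 1)
    (hnj' : ‖x j'‖ = 1) (hnl' : ‖x l'‖ = 1) (hjl : j ≠ l) (hjl' : j' ≠ l')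
    (hne : ¬ ((j' = j ∧ l' = l) ∨ (j' = l ∧ l' = j))) {A B₁ g₁ s₁ A' B₁' g₂ s₂ : ℕ}
    {ζ₁ ε₁ ζ₂ ε₂ : Cˣ} (h₁ : PB 𝓛 κ Y X j l A B₁ g₁ s₁ ζ₁ ε₁)
    (h₂ : PB 𝓛 κ Y X j' l' A' B₁' g₂ s₂ ζ₂ ε₂) : s₁ = 0 ∧ s₂ = 0 := by
  have hG₁ := h₁.mem_GG (by rw [hYj]; exact hnj) (by rw [hYl]; exact hnl)
  have hG₂ := h₂.mem_GG (by rw [hYj']; exact hnj') (by rw [hYl']; exact hnl')
  by_contra hcon
  rcases le_total s₂ s₁ with h12 | h12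
  · have hs : s₁ ≠ 0 := by rintro rfl; exact hcon ⟨rfl, by omega⟩
    obtain ⟨s, rfl⟩ : ∃ s, s₁ = s + 1 := ⟨s₁ - 1, by omega⟩
    refine hW C p k 𝕜 n N W M d D B 𝓛 x hx Y j l j' l' hYj hYl hYj' hYl' hnj hnl hnj' hnl' hjl
      hjl' hne A B₁ A' B₁' h₁.hA h₁.hB h₂.hB h₁.hAW h₁.hBW h₂.hAW h₂.hBW ε₁ ε₂ s h₁.hε ?_ hG₁ hG₂
    obtain ⟨q, hq⟩ := Nat.pow_dvd_pow p h12
    rw [hq, pow_mul, h₂.hε.pow_eq_one, one_pow]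
  · have hs : s₂ ≠ 0 := by rintro rfl; exact hcon ⟨by omega, rfl⟩
    obtain ⟨s, rfl⟩ : ∃ s, s₂ = s + 1 := ⟨s₂ - 1, by omega⟩
    refine hW C p k 𝕜 n N W M d D B 𝓛 x hx Y j' l' j l hYj' hYl' hYj hYl hnj' hnl' hnj hnl hjl'
      hjl ?_ A' B₁' A B₁ h₂.hA h₂.hB h₁.hB h₂.hAW h₂.hBW h₁.hAW h₁.hBW ε₂ ε₁ s h₂.hε ?_ hG₂ hG₁
    · rintro (⟨h1, h2⟩ | ⟨h1, h2⟩)
      · exact hne (Or.inl ⟨h1.symm, h2.symm⟩)
      · exact hne (Or.inr ⟨h2.symm, h1.symm⟩)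
    · obtain ⟨q, hq⟩ := Nat.pow_dvd_pow p h12
      rw [hq, pow_mul, h₁.hε.pow_eq_one, one_pow]

end PB

theorem red_congrB {C : Type} [NormedField C] [IsUltrametricDist C] {p : ℕ} [hpf : Fact p.Prime]
    {k 𝕜 : Type} [Field k] [Field 𝕜] {n N W M d D B : ℕ} (𝓛 : LB C p k 𝕜 n N W M d D B)
    {x y : OO C} (h : ‖(x : C) - y‖ < 1) : 𝓛.red x = 𝓛.red y := by
  rw [← sub_eq_zero, ← map_sub, 𝓛.hker]
  exact h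

/-- The local theorem. -/
theorem core (hR : S_ROOT) (hW : S_WILD) (hWC : S_WILDCM) (hE : S_EXC) (hTa : S_TAME)
    (hO : S_ORD) : S_CORE := by
  classical
  intro C _ _ _ _ _ p hpf k 𝕜 _ _ _ _ n N W M d D B 𝓛
  -- the numbers `κ`
  have hp0 := 𝓛.hp0
  have hp1 := 𝓛.hp1
  have hpC : (p : C) ≠ 0 := norm_pos_iff.1 hp0
  have hΛpos : ∀ i, 0 < ‖((𝓛.Λ i : Cˣ) : C)‖ := fun i => norm_pos_iff.2 (𝓛.Λ i).ne_zero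
  have hΛinv : ∀ i, ‖((𝓛.Λ i : Cˣ) : C)‖⁻¹ ≤ ‖(p : C)‖ := by
    intro i
    rw [Lam_norm 𝓛.hp0 𝓛.hpu (𝓛.hΛ i), inv_pow, inv_inv]
    exact pow_le_of_le_one (norm_nonneg _) 𝓛.hp1.le (Nat.mul_pos (𝓛.hw i).1 𝓛.he).ne'
  have hpL : ∀ i, 1 ≤ ‖(p : C) * ((𝓛.Λ i : Cˣ) : C)‖ := by
    intro i
    have h1 := hΛinv i
    rw [inv_le_iff_one_le_mul₀ (hΛpos i)] at h1
    rw [norm_mul]
    exact h1
  have hpL0 : ∀ i, (p : C) * ((𝓛.Λ i : Cˣ) : C) ≠ 0 := fun i =>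
    mul_ne_zero hpC (𝓛.Λ i).ne_zero
  have hκex : ∃ κ : Fin n → OO C, ∀ i, (p : C) * κ i * 𝓛.Λ i = 𝓛.φ (iA (cj 1)) - 0 := by
    refine ⟨fun i => ⟨𝓛.φ (iA (cj 1)) * ((p : C) * ((𝓛.Λ i : Cˣ) : C))⁻¹, ?_⟩, fun i => ?_⟩
    · rw [mem_OO]
      refine nmul_le (psi_norm 𝓛.φ (cj 1)) ?_
      rw [norm_inv]
      exact inv_le_one_of_one_le₀ (hpL i)
    · show (p : C) * (𝓛.φ (iA (cj 1)) * ((p : C) * ((𝓛.Λ i : Cˣ) : C))⁻¹) * 𝓛.Λ i = _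
      have := hpL0 i
      have h2 := (𝓛.Λ i).ne_zero
      field_simp
      ring
  obtain ⟨κ, hκ⟩ := hκex
  -- the tame sets
  let J := (Fin n × Fin n × Fin (W + 1) × Fin (W + 1)) × (Fin n × Fin n × Fin (W + 1) × Fin (W + 1))
  have hT : ∀ q : J, ∃ T : Set (Fin n → k), T.Finite ∧ (q.1.1 ≠ q.1.2.1 → q.2.1 ≠ q.2.2.1 →
      ¬ ((q.2.1 = q.1.1 ∧ q.2.2.1 = q.1.2.1) ∨ (q.2.1 = q.1.2.1 ∧ q.2.2.1 = q.1.1)) →
      0 < (q.1.2.2.1 : ℕ) → 0 < (q.1.2.2.2 : ℕ) → 0 < (q.2.2.2.2 : ℕ) →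
      𝓛.Λ q.1.2.1 ^ (q.1.2.2.2 : ℕ) * (𝓛.Λ q.1.1 ^ (q.1.2.2.1 : ℕ))⁻¹ ∈ GG C p 0 le_rfl one_pos →
      𝓛.Λ q.2.2.1 ^ (q.2.2.2.2 : ℕ) * (𝓛.Λ q.2.1 ^ (q.2.2.2.1 : ℕ))⁻¹ ∈ GG C p 0 le_rfl one_pos →
      ∀ (x : Fin n → C), 𝓛.Pt x → ∀ (xO : Fin n → OO C)
      (Y : Fin n → Cˣ), (∀ i, (xO i : C) = x i) → (∀ i, (Y i : C) = xO i) →
      (∀ i, ‖(xO i : C)‖ = 1) →
      ∀ (ζ ζ' : Cˣ) (f f' : ℕ), 0 < f → (ζ : C) ^ p ^ f = ζ → 0 < f' → (ζ' : C) ^ p ^ f' = ζ' →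
      ‖((𝓛.Λ q.1.2.1 ^ (q.1.2.2.2 : ℕ) * (𝓛.Λ q.1.1 ^ (q.1.2.2.1 : ℕ))⁻¹ *
        (Y q.1.2.1 ^ (q.1.2.2.2 : ℕ) * (Y q.1.1 ^ (q.1.2.2.1 : ℕ))⁻¹) * ζ : Cˣ) : C) -
        (1 + p * ((q.1.2.2.2 : ℕ) * (κ q.1.2.1 * ((Y q.1.2.1 : Cˣ) : C)⁻¹) -
          (q.1.2.2.1 : ℕ) * (κ q.1.1 * ((Y q.1.1 : Cˣ) : C)⁻¹)))‖ ≤ ‖(p : C)‖ ^ 2 →
      ‖((𝓛.Λ q.2.2.1 ^ (q.2.2.2.2 : ℕ) * (𝓛.Λ q.2.1 ^ (q.2.2.2.1 : ℕ))⁻¹ *
        (Y q.2.2.1 ^ (q.2.2.2.2 : ℕ) * (Y q.2.1 ^ (q.2.2.2.1 : ℕ))⁻¹) * ζ' : Cˣ) : C) -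
        (1 + p * ((q.2.2.2.2 : ℕ) * (κ q.2.2.1 * ((Y q.2.2.1 : Cˣ) : C)⁻¹) -
          (q.2.2.2.1 : ℕ) * (κ q.2.1 * ((Y q.2.1 : Cˣ) : C)⁻¹)))‖ ≤ ‖(p : C)‖ ^ 2 →
      (fun i => 𝓛.red (xO i)) ∈ T) := by
    rintro ⟨⟨j, l, A, B₁⟩, ⟨j', l', A', B₁'⟩⟩
    by_cases h : j ≠ l ∧ j' ≠ l' ∧ ¬ ((j' = j ∧ l' = l) ∨ (j' = l ∧ l' = j)) ∧ 0 < (A : ℕ) ∧
        0 < (B₁ : ℕ) ∧ 0 < (B₁' : ℕ) ∧
        𝓛.Λ l ^ (B₁ : ℕ) * (𝓛.Λ j ^ (A : ℕ))⁻¹ ∈ GG C p 0 le_rfl one_pos ∧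
        𝓛.Λ l' ^ (B₁' : ℕ) * (𝓛.Λ j' ^ (A' : ℕ))⁻¹ ∈ GG C p 0 le_rfl one_pos
    · obtain ⟨h1, h2, h3, h4, h5, h6, h7, h8⟩ := h
      obtain ⟨T, hT, hT'⟩ := hTa C p k 𝕜 n N W M d D B 𝓛 κ j l j' l' A B₁ A' B₁' h1 h2 h3 h4 h5 h6
        (Nat.lt_succ_iff.1 A.2) (Nat.lt_succ_iff.1 B₁.2) (Nat.lt_succ_iff.1 A'.2)
        (Nat.lt_succ_iff.1 B₁'.2) h7 h8
      exact ⟨T, hT, fun _ _ _ _ _ _ _ _ => hT'⟩
    · exact ⟨∅, Set.finite_empty, fun h1 h2 h3 h4 h5 h6 h7 h8 =>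
        absurd ⟨h1, h2, h3, h4, h5, h6, h7, h8⟩ h⟩
  choose T hTfin hTmem using hT
  set S : Set k := (⋃ q : Fin n × Bool × Fin n, ((fun y : (PowerSeries 𝕜)ˣ =>
      𝓛.ι (PowerSeries.coeff 0 (y : PowerSeries 𝕜))) '' {y | y ∈ 𝓛.𝓡.ys q.1 q.2.1 q.2.2})) ∪
      ⋃ q : J × Fin n, (fun t : Fin n → k => t q.2) '' (T q.1) with hS
  have hSfin : S.Finite := by
    refine Set.Finite.union (Set.finite_iUnion fun q => Set.Finite.image _ ?_)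
      (Set.finite_iUnion fun q => (hTfin q.1).image _)
    exact Multiset.finite_toSet _
  obtain ⟨G₁, hG₁⟩ := hO C p k 𝕜 n N W M d D B 𝓛 S hSfin
  refine ⟨W * W * (G₁ * p ^ 2) ^ 2, ?_⟩
  intro X x hx hX r cls hr hcm hZ
  have hXn : ∀ i, ‖𝓛.φ (X i)‖ = ‖((𝓛.Λ i : Cˣ) : C)‖ * ‖x i‖ := fun i => by
    rw [hX, norm_mul]
  have hbigp : ∀ i, ‖(p : C)‖ < ‖x i‖ → 1 < ‖𝓛.φ (X i)‖ := by
    intro i hi
    rw [hXn]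
    have h1 := hΛinv i
    rw [inv_le_iff_one_le_mul₀ (hΛpos i)] at h1
    have h2 := hΛpos i
    nlinarith
  -- the units
  have hYex : ∀ i, ∃ y : Cˣ, ‖x i‖ = 1 → (y : C) = x i := by
    intro i
    by_cases h : ‖x i‖ = 1
    · exact ⟨Units.mk0 (x i) (norm_pos_iff.1 (by rw [h]; exact one_pos)), fun _ => rfl⟩
    · exact ⟨1, fun h' => absurd h' h⟩
  choose Y hY using hYex
  have hYn : ∀ i, ‖x i‖ = 1 → ‖((Y i : Cˣ) : C)‖ = 1 := fun i hi => by rw [hY i hi]; exact hi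
  have hgood1 : ∀ i, ‖x i‖ = 1 → 1 < ‖𝓛.φ (X i)‖ := fun i hi =>
    hbigp i (by rw [hi]; exact hp1)
  have hnone : ∀ i, ‖x i‖ = 1 → cls i ≠ none := by
    intro i hi h
    exact absurd (hgood1 i hi) (not_lt.2 (hcm i h))
  -- information on pairs
  have hinfo : ∀ j l, j ≠ l → ‖x j‖ = 1 → ‖x l‖ = 1 → (∃ c, cls j = some c ∧ cls l = some c) →
      ∃ (A B₁ g' s : ℕ) (ζ' ε : Cˣ), PB 𝓛 κ Y X j l A B₁ g' s ζ' ε := by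
    intro j l hjl hj hl ⟨c, hcj, hcl⟩
    obtain ⟨w, w', a, b, c', d', hdet, hrel, hw, hw'⟩ := hZ _ _ _ hjl hcj hcl
    obtain ⟨A, B₁, g', s, ζ', ε, h1, h2, h3, h4, h5, h6, h7, h8, h9, h10, h11⟩ :=
      pair_info2 𝓛.φ 𝓛.hp0 𝓛.hp1 𝓛.hpu 𝓛.he (𝓛.hw j).1 (𝓛.hw l).1 (𝓛.hΛ j) (𝓛.hΛ l)
        (hκ j) (hκ l) (hYn j hj) (hYn l hl) (by rw [hX, hY j hj, add_zero])
        (by rw [hX, hY l hl, add_zero]) hdet hrel hw hw'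
    refine ⟨A, B₁, g', s, ζ', ε, h1, h2, ?_, ?_, h5, h6, h7, h8, h9, h10, h11⟩
    · have h12 : A ∣ B₁ * 𝓛.w l := ⟨_, h4⟩
      exact (Nat.le_of_dvd (𝓛.hw l).1 (h3.dvd_of_dvd_mul_left h12)).trans (𝓛.hw l).2
    · have h12 : B₁ ∣ A * 𝓛.w j := ⟨_, h4.symm⟩
      exact (Nat.le_of_dvd (𝓛.hw j).1 (h3.symm.dvd_of_dvd_mul_left h12)).trans (𝓛.hw j).2
  -- from the tame bound to the conclusion
  have hfin : ∀ j l, j ≠ l → ∀ (hj : ‖x j‖ = 1) (hl : ‖x l‖ = 1),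
      𝓛.red ⟨x j, hj.le⟩ ∈ S → 𝓛.red ⟨x l, hl.le⟩ ∈ S →
      ∀ (A B₁ g' s : ℕ) (ζ' ε : Cˣ), PB 𝓛 κ Y X j l A B₁ g' s ζ' ε → s ≤ 2 →
      ∃ j l : Fin n, j ≠ l ∧ ∃ N' : ℕ, 0 < N' ∧ N' ≤ W * W * (G₁ * p ^ 2) ^ 2 ∧
        PsiE ιZ (mP N') (mD N') (rA (X j)) (rA (X l)) = 0 := by
    intro j l hjl hj hl hSj hSl A B₁ g' s ζ' ε h hs
    have h1 := hG₁ κ Y X j l A B₁ g' s ζ' ε h ⟨x j, hj.le⟩ ⟨x l, hl.le⟩ (hY j hj).symm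
      (hY l hl).symm (hYn j hj) (hYn l hl) hSj hSl
    refine ⟨j, l, hjl, A * B₁ * (g' * p ^ s) ^ 2, ?_, ?_, h.hrel⟩
    · have h2 := hpf.out.pos
      have h3 := h.hA
      have h4 := h.hB
      have h5 := h.hg
      positivity
    · exact Nat.mul_le_mul (Nat.mul_le_mul h.hAW h.hBW) (Nat.pow_le_pow_left
        (Nat.mul_le_mul h1 (Nat.pow_le_pow_right hpf.out.pos hs)) 2)
  -- the combinatorics
  by_cases hall : ∀ i, ‖x i‖ = 1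
  · obtain ⟨j, -, l, -, hjl, hc⟩ := coll cls Finset.univ (by simp; omega)
      (fun x _ => hnone x (hall x))
    obtain ⟨j', hj', l', hl', hjl', hc'⟩ := coll cls (Finset.univ.erase l)
      (by rw [Finset.card_erase_of_mem (Finset.mem_univ l)]; simp; omega)
      (fun x _ => hnone x (hall x))
    have h1 := Finset.ne_of_mem_erase hj'
    have h2 := Finset.ne_of_mem_erase hl'
    have hne : ¬ ((j' = j ∧ l' = l) ∨ (j' = l ∧ l' = j)) := by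
      rintro (⟨-, h⟩ | ⟨h, -⟩)
      · exact h2 h
      · exact h1 h
    obtain ⟨A, B₁, g₁, s₁, ζ₁, ε₁, hP₁⟩ := hinfo j l hjl (hall j) (hall l) hc
    obtain ⟨A', B₁', g₂, s₂, ζ₂, ε₂, hP₂⟩ := hinfo j' l' hjl' (hall j') (hall l') hc'
    obtain ⟨rfl, rfl⟩ := no_wildB hW hx (hY j (hall j)) (hY l (hall l)) (hY j' (hall j'))
      (hY l' (hall l')) (hall j) (hall l) (hall j') (hall l') hjl hjl' hne hP₁ hP₂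
    have hε₁ : ε₁ = 1 := Units.ext (by
      have := hP₁.hε.pow_eq_one
      simpa using this)
    have hε₂ : ε₂ = 1 := Units.ext (by
      have := hP₂.hε.pow_eq_one
      simpa using this)
    obtain ⟨f₁, hf₁, hff₁⟩ := fixed_of_pow_eq_one (p := p) hP₁.hcop hP₁.hζ.pow_eq_one
    obtain ⟨f₂, hf₂, hff₂⟩ := fixed_of_pow_eq_one (p := p) hP₂.hcop hP₂.hζ.pow_eq_one
    have e₁ := hP₁.hexp
    have e₂ := hP₂.hexp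
    rw [hε₁, mul_one] at e₁
    rw [hε₂, mul_one] at e₂
    have hTm := hTmem ((j, l, ⟨A, Nat.lt_succ_of_le hP₁.hAW⟩, ⟨B₁, Nat.lt_succ_of_le hP₁.hBW⟩),
      (j', l', ⟨A', Nat.lt_succ_of_le hP₂.hAW⟩, ⟨B₁', Nat.lt_succ_of_le hP₂.hBW⟩))
      hjl hjl' hne hP₁.hA hP₁.hB hP₂.hB hP₁.hμ hP₂.hμ x hx (fun i => ⟨x i, (hall i).le⟩) Y
      (fun i => rfl) (fun i => hY i (hall i)) hall ζ₁ ζ₂ f₁ f₂ hf₁ hff₁ hf₂ hff₂ e₁ e₂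
    have hmemS : ∀ i, 𝓛.red ⟨x i, (hall i).le⟩ ∈ S := by
      intro i
      right
      rw [Set.mem_iUnion]
      exact ⟨(_, i), _, hTm, rfl⟩
    exact hfin j l hjl (hall j) (hall l) (hmemS j) (hmemS l) A B₁ g₁ 0 ζ₁ ε₁ hP₁ (by norm_num)
  · push Not at hall
    obtain ⟨a, ha⟩ := hall
    have hg : ∀ j, j ≠ a → ‖x j‖ = 1 := fun j hj => (hx.ob j a hj).resolve_right ha
    obtain ⟨s, z, e, hz, hC, heX, hn, hs, hroot⟩ := hR C p k 𝕜 n N W M d D B 𝓛 x hx a ha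
    have hmemS : ∀ i (hi : ‖x i‖ = 1), i ≠ a → 𝓛.red ⟨x i, hi.le⟩ ∈ S := by
      intro i hi hia
      obtain ⟨y, hy, y', hyy, hxy⟩ := hroot i hia
      left
      rw [Set.mem_iUnion]
      refine ⟨(a, s, i), y, hy, ?_⟩
      show 𝓛.ι (PowerSeries.coeff 0 (y : PowerSeries 𝕜)) = _
      rw [← hyy, PowerSeries.coeff_map, 𝓛.hι]
      symm
      apply red_congrB
      show ‖x i - ((PowerSeries.coeff 0 (y' : PowerSeries (Nr C p)) : Nr C p) : C)‖ < 1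
      have h1 : ‖x i - e (y' : PowerSeries (Nr C p))‖ < 1 := by
        by_contra hcon
        push Not at hcon
        have h2 := one_le_pow₀ hcon (n := B)
        linarith
      have h2 := ev_sub_le (ψ := (Nr C p).subtype) (fun r => hC r) heX hn hz.le
        (y' : PowerSeries (Nr C p))
      have e1 : x i - ((PowerSeries.coeff 0 (y' : PowerSeries (Nr C p)) : Nr C p) : C) =
          (x i - e (y' : PowerSeries (Nr C p))) + (e (y' : PowerSeries (Nr C p)) -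
            (Nr C p).subtype (PowerSeries.coeff 0 (y' : PowerSeries (Nr C p)))) := by
        show _ = (x i - e (y' : PowerSeries (Nr C p))) + (e (y' : PowerSeries (Nr C p)) -
          ((PowerSeries.coeff 0 (y' : PowerSeries (Nr C p)) : Nr C p) : C))
        ring
      rw [e1]
      exact nadd_lt h1 (h2.trans_lt hz)
    obtain ⟨j, hj, l, hl, hjl, hc⟩ := coll cls (Finset.univ.erase a)
      (by rw [Finset.card_erase_of_mem (Finset.mem_univ a)]; simp; omega)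
      (fun x hx => hnone x (hg x (Finset.ne_of_mem_erase hx)))
    have hja := Finset.ne_of_mem_erase hj
    have hla := Finset.ne_of_mem_erase hl
    obtain ⟨A, B₁, g₁, s₁, ζ₁, ε₁, hP₁⟩ := hinfo j l hjl (hg j hja) (hg l hla) hc
    have hG := hP₁.mem_GG (hYn j (hg j hja)) (hYn l (hg l hla))
    refine hfin j l hjl (hg j hja) (hg l hla) (hmemS j (hg j hja) hja)
      (hmemS l (hg l hla) hla) A B₁ g₁ s₁ ζ₁ ε₁ hP₁ ?_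
    obtain ⟨y, hy, u, huy, hxy⟩ := hroot j hja
    obtain ⟨y', hy', u', huy', hxy'⟩ := hroot l hla
    by_cases hsmall : ‖z‖ ^ N ≤ ‖(p : C)‖
    · by_contra hs₁
      obtain ⟨t, rfl⟩ : ∃ t, s₁ = t + 1 := ⟨s₁ - 1, by omega⟩
      exact hWC C p k 𝕜 n N W M d D B 𝓛 Y j l z e hz hC heX hn hsmall u u'
        (by rw [hY j (hg j hja)]; exact hxy) (by rw [hY l (hg l hla)]; exact hxy') A B₁ ε₁ t
        hP₁.hε hG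
    · push Not at hsmall
      have hcls : cls a ≠ none := by
        intro hcls
        have h1 := hcm a hcls
        have h2 : ‖(p : C)‖ < ‖x a‖ := by
          rcases hs with ⟨-, -, h⟩ | ⟨h, -, -⟩
          · rw [← h, norm_pow]; exact hsmall
          · exact 𝓛.hp1.trans h
        exact absurd (hbigp a h2) (not_lt.2 h1)
      have hnone' : ∀ x, cls x ≠ none := by
        intro i
        by_cases hi : i = a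
        · rw [hi]; exact hcls
        · exact hnone i (hg i hi)
      obtain ⟨j', hj', l', hl', hjl', hc'⟩ := coll cls (Finset.univ.erase l)
        (by rw [Finset.card_erase_of_mem (Finset.mem_univ l)]; simp; omega)
        (fun x _ => hnone' x)
      have h1 := Finset.ne_of_mem_erase hj'
      have h2 := Finset.ne_of_mem_erase hl'
      have hexc : ∀ m, m ≠ a → (∃ c, cls m = some c ∧ cls a = some c) → s₁ ≤ 2 := by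
        intro m hma ⟨c, hcm', hca⟩
        by_contra hs₁
        obtain ⟨t, rfl⟩ : ∃ t, s₁ = t + 1 := ⟨s₁ - 1, by omega⟩
        obtain ⟨w, w', a', b', c', d', hdet, hrel, hw, hw'⟩ := hZ _ _ _ hma hcm' hca
        obtain ⟨y'', hy'', u'', huy'', hxy''⟩ := hroot m hma
        have := hE C p k 𝕜 n N W M d D B 𝓛 x hx Y X hX a s z e hz hC heX hn hs hsmall j l m hja
          hla hma hjl y y' y'' hy hy' hy'' u u' u'' huy huy' huy'' hxy hxy' hxy''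
          (hY j (hg j hja)) (hY l (hg l hla)) (hY m (hg m hma)) (hg j hja) (hg l hla) (hg m hma)
          A B₁ hP₁.hA hP₁.hB hP₁.hAW hP₁.hBW ε₁ t hP₁.hε hG w w' a' b' c' d' hdet hrel hw hw'
        omega
      by_cases hj'a : j' = a
      · subst hj'a
        obtain ⟨c, hc1, hc2⟩ := hc'
        exact hexc l' hjl'.symm ⟨c, hc2, hc1⟩
      · by_cases hl'a : l' = a
        · subst hl'a
          obtain ⟨c, hc1, hc2⟩ := hc'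
          exact hexc j' hjl' ⟨c, hc1, hc2⟩
        · obtain ⟨A', B₁', g₂, s₂, ζ₂, ε₂, hP₂⟩ := hinfo j' l' hjl' (hg j' hj'a) (hg l' hl'a) hc'
          have := (no_wildB hW hx (hY j (hg j hja)) (hY l (hg l hla)) (hY j' (hg j' hj'a))
            (hY l' (hg l' hl'a)) (hg j hja) (hg l hla) (hg j' hj'a) (hg l' hl'a) hjl hjl' (by
              rintro (⟨-, h⟩ | ⟨h, -⟩)
              · exact h2 h
              · exact h1 h) hP₁ hP₂).1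
          omega

end Pool.Agent.Y92.ZX
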