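import Pool.Agent.Y92.ZX.Fam

/-!
# The theorem on families, in terms of embeddings of the algebraic numbers
-/

set_option autoImplicit false
set_option linter.unusedSectionVars false

open UpperHalfPlane H294ZP Polynomial IsDedekindDomain NumberField

namespace Pool.Agent.Y92.ZX

open Pool.Agent.Y226 Pool.Agent.Y226.ZG Pool.Agent.Y226.ZM Pool.Agent.Y226.ZU

/-- The theorem on families, local form. -/
theorem fam_loc (hFam : S_FAM) (hPT : S_PT2) (hCo : S_CORE) (hFi : S_FIN)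
    (n m W : ℕ) (κ : Type) [Finite κ] (d₀ : ℕ)
    (F : κ → MvPolynomial (Fin n × Bool) (MvPolynomial (Fin m) QA))
    (hF : GM d₀ (MvPolynomial.eval (0 : Fin m → QA)) F) :
    ∃ D : ℕ, ∀ (p : ℕ) [hpf : Fact p.Prime], D < p → ∀ (C : Type) [NormedField C]
    [IsUltrametricDist C] [CompleteSpace C] [CharZero C] [IsAlgClosed C] (k : Type) [Field k]
    [CharP k p] [IsAlgClosed k] (red : OO C →+* k) (𝕜 : Type) [Field 𝕜] (ρ : Nr C p →+* 𝕜)
    (ι : 𝕜 →+* k) (φ : QA →+* C), 0 < ‖(p : C)‖ → ‖(p : C)‖ < 1 →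
    (∀ x : OO C, red x = 0 ↔ ‖(x : C)‖ < 1) → Function.Surjective ρ →
    (∀ r : Nr C p, ι (ρ r) = red ⟨r, Nr_le r.2⟩) →
    ∀ s : Fin m → QA, (∀ l, φ (s l) ∈ Nr C p ∧ ‖φ (s l)‖ < 1) →
    ∀ (lam : Fin n → QA) (e : ℕ) (w : Fin n → ℕ), 0 < e →
    (∀ i, 0 < w i ∧ w i ≤ W ∧ ‖φ (lam i)‖ = ‖(p : C)‖ ^ (-((w i * e : ℕ) : ℤ)) ∧
      φ (lam i) * (p : C) ^ (w i * e) ∈ Nr C p) →
    ∀ Γ : Set ℂ, (∀ γ ∈ Γ, ∃ c : QA, rA c = γ ∧ ‖φ c‖ ≤ 1) →
    {x : Fin n → ℂ | (∃ y ∈ VS F (fun l => rA (s l)), ∀ i, x i = rA (lam i) * y i) ∧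
      ∃ (r : ℕ) (Z : SV Γ n r), r + 2 ≤ n ∧ x ∈ Z.locus}.Finite ∧
    ∀ (r : ℕ) (Z : SV Γ n r), r < n →
      {x : Fin n → ℂ | (∃ y ∈ VS F (fun l => rA (s l)), ∀ i, x i = rA (lam i) * y i) ∧
        x ∈ Z.locus}.Finite := by
  classical
  obtain ⟨N, M, d, D, B₀, S₀, hN, hM, hS⟩ := hFam n m W κ d₀ F hF
  choose Dn hDn using nr_large
  set B := B₀ + N + M + d + D + 1 with hBdef
  refine ⟨16 * B ^ 2 * B ^ 2 + (16 * B ^ 2 + 2) + (B + 2) + W + 2 * B ^ 2 +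
    (B * (B + 1) + 1) + (B ^ 2 + 1) + S₀.sup Dn, ?_⟩
  intro p hpf hDp C _ _ _ _ _ k _ _ _ red 𝕜 _ ρ ι φ hp0 hp1 hker hρs hι s hs lam e w he hw Γ hΓ
  have hρ0 : ∀ r : Nr C p, ρ r = 0 ↔ ‖(r : C)‖ < 1 := by
    intro r
    rw [← map_eq_zero ι, hι, hker]
  -- the ring of coefficients
  let R : Subring QA := (Nr C p).comap φ
  have hRS : ∀ x ∈ S₀, x ∈ R := by
    intro x hx
    have h1 : Dn x ≤ S₀.sup Dn := Finset.le_sup hx
    exact hDn x p (by omega) C φ hp1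
  obtain ⟨FR, hFR, hHom, hdat⟩ := hS R hRS
  let φR : R →+* Nr C p := (φ.comp R.subtype).codRestrict (Nr C p) fun x => x.2
  let χ : R →+* 𝕜 := ρ.comp φR
  obtain ⟨⟨𝓡, hRB, hMem⟩, hCor⟩ := hdat 𝕜 χ
  let sN : Fin m → Nr C p := fun l => ⟨φ (s l), (hs l).1⟩
  let sQ : Fin m → QA := s
  let θ : MvPolynomial (Fin m) R →+* Nr C p := MvPolynomial.eval₂Hom φR sN
  let θQ : MvPolynomial (Fin m) R →+* QA := MvPolynomial.eval₂Hom R.subtype sQ
  have hsN : ∀ l, ρ (sN l) = 0 := by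
    intro l
    rw [hρ0]
    exact (hs l).2
  have hθ0 : ρ.comp θ = χ.comp (MvPolynomial.eval (0 : Fin m → R)) := by
    refine MvPolynomial.ringHom_ext ?_ ?_
    · intro r
      simp [θ, χ]
    · intro l
      simp [θ, hsN]
  have hθφ : (Nr C p).subtype.comp θ = φ.comp θQ := by
    refine MvPolynomial.ringHom_ext ?_ ?_
    · intro r
      simp only [θ, θQ, RingHom.comp_apply, MvPolynomial.eval₂Hom_C]
      rfl
    · intro l
      simp only [θ, θQ, RingHom.comp_apply, MvPolynomial.eval₂Hom_X']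
      rfl
  have hθφ' : ∀ x, ((θ x : Nr C p) : C) = φ (θQ x) := fun x => congrArg (fun f => f x) hθφ
  have hθ0' : ∀ x, ρ (θ x) = χ (MvPolynomial.eval 0 x) := fun x => congrArg (fun f => f x) hθ0
  have hne1 : ∀ r : Nr C p, ρ r ≠ 0 → ‖(r : C)‖ = 1 := fun r hr =>
    le_antisymm (Nr_le r.2) (not_lt.1 fun h => hr ((hρ0 r).2 h))
  have hMem' : Mem ρ (fun t => MvPolynomial.map θ (FR t)) 𝓡 := by
    constructor
    · intro c i s' j hij h1 h2
      rw [chI_map, hθ0]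
      exact hMem.m1 c i s' j hij h1 h2
    · intro c v' w' h1 h2 h3 h4
      rw [chI_map, hθ0]
      exact hMem.m2 c v' w' h1 h2 h3 h4
  have hCor' : Cor ρ (fun t => MvPolynomial.map θ (FR t)) := by
    intro i j hij
    obtain ⟨a, b, g, h3, h4, h5, h6, -, h8⟩ := hCor i j hij
    exact ⟨a, b, fun u v => θ (g u v), by rw [hθ0']; exact h3, by rw [hθ0']; exact h4,
      by rw [hθ0']; exact h5, by rw [hθ0']; exact h6, bh_span_map θ h8⟩
  obtain ⟨ht, rho, hht, hpt⟩ := hPT C p 𝕜 ρ hρs hp0 hp1 hρ0 n κ _ (fun t => (hHom t).map θ)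
    hCor' N W M d D 𝓡 hMem'
  set pu : Cˣ := Units.mk0 (p : C) (norm_pos_iff.1 hp0) with hpu
  have hΛex : ∀ i, ∃ Λ : Cˣ, (Λ : C) = φ (lam i) ∧
      Λ * pu ^ (w i * e) ∈ GG C p 0 le_rfl one_pos := by
    intro i
    exact Lam_unit2 hp0 (hw i).2.2.1 (hw i).2.2.2 rfl
  choose Λ hΛ1 hΛ2 using hΛex
  have q1 : N ≤ B := by omega
  have q2 : M ≤ B := by omega
  have q3 : d ≤ B := by omega
  have q4 : D ≤ B := by omega
  have e1 : 16 * D ^ 2 * d ^ 2 ≤ 16 * B ^ 2 * B ^ 2 := by gcongr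
  have e2 : 16 * d ^ 2 + 2 ≤ 16 * B ^ 2 + 2 := by gcongr
  have e3 : 2 * M ^ 2 ≤ 2 * B ^ 2 := by gcongr
  have e4 : B * (D + 1) + 1 ≤ B * (B + 1) + 1 := by gcongr
  let 𝓛 : LB C p k 𝕜 n N W M d D B :=
    { φ := φ, red := red, hker := hker, hp0 := hp0, hp1 := hp1, ρ := ρ, hρs := hρs, ι := ι
      hι := hι, 𝓡 := 𝓡, h𝓡 := hRB.mono (by omega), ht := ht, hht := hht, rho := rho
      Λ := Λ, w := w, hw := fun i => ⟨(hw i).1, (hw i).2.1⟩, e := e, he := he, pu := pu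
      hpu := rfl, hΛ := hΛ2
      b1 := by omega
      b2 := by omega
      b3 := by omega
      b4 := by omega
      b5 := by omega
      b6 := by omega
      b7 := by omega
      b8 := by omega
      hB := by omega
      hN := hN
      hM := hM }
  -- the model over `QA`
  set F' : κ → MvPolynomial (Fin n × Bool) QA := fun t =>
    MvPolynomial.map (MvPolynomial.eval sQ) (F t) with hF'
  have hF'R : ∀ t, F' t = MvPolynomial.map θQ (FR t) := by
    intro t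
    show MvPolynomial.map (MvPolynomial.eval sQ) (F t) = _
    rw [← hFR t, MvPolynomial.map_map]
    congr 1
    refine MvPolynomial.ringHom_ext ?_ ?_
    · intro r
      simp [θQ]
    · intro l
      simp [θQ]
  have hrσ : rA.comp (MvPolynomial.eval sQ) = MvPolynomial.eval₂Hom rA (fun l => rA (s l)) := by
    refine MvPolynomial.ringHom_ext ?_ ?_
    · intro r
      simp
    · intro l
      simp [sQ]
  have hVF : VF F' = VS F (fun l => rA (s l)) := by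
    ext y
    show (∀ t, _ = _) ↔ ∀ t, _ = _
    refine forall_congr' fun t => ?_
    rw [hF', MvPolynomial.eval₂_map, hrσ]
  have hgen : ∀ i j : Fin n, i ≠ j → ∃ (a b : ℕ) (g : ℕ → ℕ → QA), g 0 0 ≠ 0 ∧ g a 0 ≠ 0 ∧
      g 0 b ≠ 0 ∧ g a b ≠ 0 ∧ (∀ c : QA, ∃ v ≤ b, ∑ u ∈ Finset.range (a + 1), g u v * c ^ u ≠ 0) ∧
      bh i j a b g ∈ Ideal.span (Set.range F') := by
    intro i j hij
    obtain ⟨a, b, g, h3, h4, h5, h6, h7, h8⟩ := (hdat k (ι.comp χ)).2 i j hij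
    have hn1 : ∀ x : MvPolynomial (Fin m) R, (ι.comp χ) (MvPolynomial.eval 0 x) ≠ 0 →
        ‖φ (θQ x)‖ = 1 := by
      intro x hx
      rw [← hθφ']
      apply hne1
      rw [hθ0']
      intro h0
      apply hx
      rw [RingHom.comp_apply, h0, map_zero]
    have hn0 : ∀ x : MvPolynomial (Fin m) R, (ι.comp χ) (MvPolynomial.eval 0 x) ≠ 0 →
        θQ x ≠ 0 := fun x hx h0 => by
      have := hn1 x hx
      rw [h0, map_zero, norm_zero] at this
      exact zero_ne_one this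
    refine ⟨a, b, fun u v => θQ (g u v), hn0 _ h3, hn0 _ h4, hn0 _ h5, hn0 _ h6, ?_, ?_⟩
    · refine nonvert φ red hker (fun u v => by rw [← hθφ']; exact Nr_le (θ (g u v)).2)
        (hn1 _ h6) ?_
      intro c
      obtain ⟨v', hv', hne⟩ := h7 c
      refine ⟨v', hv', ?_⟩
      convert hne using 3 with u hu
      have h9 : (⟨φ (θQ (g u v')), by rw [← hθφ']; exact Nr_le (θ (g u v')).2⟩ : OO C) =
          ⟨((θ (g u v') : Nr C p) : C), Nr_le (θ (g u v')).2⟩ := Subtype.ext (hθφ' _).symm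
      rw [h9, ← hι, hθ0']
      rfl
    · have h9 : F' = fun t => MvPolynomial.map θQ (FR t) := funext hF'R
      rw [h9]
      exact bh_span_map θQ h8
  have hfin := finish hCo hFi 𝓛 hgen (lam := lam) (fun i => (hΛ1 i).symm) (Γ := Γ) hΓ (by
      intro s' hs'
      refine hpt _ fun t => ?_
      have h1 := congrArg φ (hs' t)
      rw [map_zero, hF'R, MvPolynomial.eval_map] at h1
      rw [MvPolynomial.eval₂_map, chv_map φ none s', ← h1, hθφ]
      exact (MvPolynomial.eval₂_comp_left φ θQ (chv none s') (FR t)).symm)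
  rw [hVF] at hfin
  exact hfin

end Pool.Agent.Y92.ZX
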