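import Pool.Agent.Y92.ZX.Stm

/-!
# From the local theorem to finiteness
-/

set_option autoImplicit false
set_option linter.unusedSectionVars false

open UpperHalfPlane H294ZP Polynomial

namespace Pool.Agent.Y92.ZX

open Pool.Agent.Y226 Pool.Agent.Y226.ZG Pool.Agent.Y226.ZM Pool.Agent.Y226.ZU

theorem chv_map {A B : Type} [CommRing A] [CommRing B] {n : ℕ} (θ : A →+* B)
    (a : Option (Fin n)) (y : Fin n → A) : chv a (fun i => θ (y i)) = fun q => θ (chv a y q) := by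
  funext q
  unfold chv
  by_cases h1 : a = some q.1
  · rw [if_pos h1, if_pos h1]
    by_cases h2 : q.2 = true
    · rw [if_pos h2, if_pos h2]
    · rw [if_neg h2, if_neg h2, map_one]
  · rw [if_neg h1, if_neg h1]
    by_cases h2 : q.2 = true
    · rw [if_pos h2, if_pos h2, map_one]
    · rw [if_neg h2, if_neg h2]

/-- integral constants are algebraic -/
theorem int_algS {Γ : Set ℂ} (hΓ : ∀ γ ∈ Γ, ∃ c : QA, rA c = γ) (c : ℂ)
    (hc : IsIntegral (Algebra.adjoin ℤ Γ) c) : ∃ s : QA, rA s = c := by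
  have hle : ∀ z ∈ Algebra.adjoin ℤ Γ, ∃ s : QA, rA s = z := by
    intro z hz
    refine Algebra.adjoin_induction (p := fun z _ => ∃ s : QA, rA s = z) ?_ ?_ ?_ ?_ hz
    · exact fun γ hγ => hΓ γ hγ
    · intro r
      exact ⟨(r : QA), by simp⟩
    · rintro x y - - ⟨a, rfl⟩ ⟨b, rfl⟩
      exact ⟨a + b, map_add _ _ _⟩
    · rintro x y - - ⟨a, rfl⟩ ⟨b, rfl⟩
      exact ⟨a * b, map_mul _ _ _⟩
  choose g hg using hle
  obtain ⟨P, hP, hPc⟩ := hc
  let G : Algebra.adjoin ℤ Γ →+* QA :=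
    { toFun := fun z => g z z.2
      map_one' := rA.injective (by rw [hg, map_one]; rfl)
      map_mul' := fun x y => rA.injective (by rw [hg, map_mul, hg, hg]; rfl)
      map_zero' := rA.injective (by rw [hg, map_zero]; rfl)
      map_add' := fun x y => rA.injective (by rw [hg, map_add, hg, hg]; rfl) }
  refine root_algebraic (g := P.map G) (hP.map G).ne_zero ?_
  unfold Pool.Agent.Y226.ev
  rw [eval_map, eval₂_map, ← hPc]
  congr 1
  refine RingHom.ext fun z => ?_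
  exact hg z z.2

/-- from the local theorem to finiteness -/
theorem finish (hCo : S_CORE) (hFi : S_FIN) {C : Type} [NormedField C] [IsUltrametricDist C]
    [CompleteSpace C] [CharZero C] [IsAlgClosed C] {p : ℕ} [Fact p.Prime] {k 𝕜 : Type} [Field k]
    [CharP k p] [IsAlgClosed k] [Field 𝕜] {n N W M d D B : ℕ} (𝓛 : LB C p k 𝕜 n N W M d D B)
    {κ : Type} {F : κ → MvPolynomial (Fin n × Bool) QA}
    (hgen : ∀ i j : Fin n, i ≠ j → ∃ (a b : ℕ) (g : ℕ → ℕ → QA), g 0 0 ≠ 0 ∧ g a 0 ≠ 0 ∧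
      g 0 b ≠ 0 ∧ g a b ≠ 0 ∧ (∀ c : QA, ∃ v ≤ b, ∑ u ∈ Finset.range (a + 1), g u v * c ^ u ≠ 0) ∧
      bh i j a b g ∈ Ideal.span (Set.range F))
    {lam : Fin n → QA} (hlam : ∀ i, 𝓛.φ (lam i) = 𝓛.Λ i) {Γ : Set ℂ}
    (hΓ : ∀ γ ∈ Γ, ∃ c : QA, rA c = γ ∧ ‖𝓛.φ c‖ ≤ 1)
    (hPt : ∀ s : Fin n → QA, (∀ t, MvPolynomial.eval (chv none s) (F t) = 0) →
      𝓛.Pt (fun i => 𝓛.φ (s i))) :
    {x : Fin n → ℂ | (∃ y ∈ VF F, ∀ i, x i = rA (lam i) * y i) ∧
      ∃ (r : ℕ) (Z : SV Γ n r), r + 2 ≤ n ∧ x ∈ Z.locus}.Finite ∧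
    ∀ (r : ℕ) (Z : SV Γ n r), r < n →
      {x : Fin n → ℂ | (∃ y ∈ VF F, ∀ i, x i = rA (lam i) * y i) ∧ x ∈ Z.locus}.Finite := by
  classical
  have hlam0 : ∀ i, lam i ≠ 0 := by
    intro i h0
    have h1 := hlam i
    rw [h0, map_zero] at h1
    exact (𝓛.Λ i).ne_zero h1.symm
  obtain ⟨hF1, hF2⟩ := hFi n κ F hgen lam hlam0
  have hconst : ∀ {r : ℕ} (Z : SV Γ n r), ∀ i, ∃ c : QA, rA c = Z.const i := fun Z i =>
    int_algS (fun γ hγ => by
      obtain ⟨c, hc, -⟩ := hΓ γ hγ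
      exact ⟨c, hc⟩) _ (Z.int i)
  set E : (Fin n → ℂ) → (Fin n → ℂ) := fun y i => rA (lam i) * y i with hE
  have hxE : ∀ {x y : Fin n → ℂ}, (∀ i, x i = rA (lam i) * y i) → x = E y := fun h => funext h
  refine ⟨?_, ?_⟩
  · obtain ⟨G, hG⟩ := hCo C p k 𝕜 n N W M d D B 𝓛
    set Q : Finset (Fin n × Fin n × ℕ) :=
      Finset.univ ×ˢ Finset.univ ×ˢ Finset.range (G + 1) with hQ
    have hU : (⋃ q ∈ Q, E '' {y | y ∈ VF F ∧ (q.1 ≠ q.2.1 ∧ 0 < q.2.2 ∧
        PsiE ιZ (mP q.2.2) (mD q.2.2) (rA (lam q.1) * y q.1) (rA (lam q.2.1) * y q.2.1) = 0)}).Finite := by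
      refine Set.Finite.biUnion (Finset.finite_toSet _) fun q _ => Set.Finite.image _ ?_
      by_cases h : q.1 ≠ q.2.1 ∧ 0 < q.2.2
      · exact (hF1 q.1 q.2.1 h.1 q.2.2 h.2).subset fun y hy => ⟨hy.1, hy.2.2.2⟩
      · refine Set.finite_empty.subset ?_
        rintro y ⟨-, h1, h2, -⟩
        exact h ⟨h1, h2⟩
    refine hU.subset ?_
    rintro x ⟨⟨y, hy, hxy⟩, r, Z, hr, hZ⟩
    have hxy' := hxE hxy
    rw [hxy'] at hZ
    obtain ⟨s, hs⟩ := (hF2 Γ r Z (by omega) (hconst Z)).2 y hy hZ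
    have hsF : ∀ t, MvPolynomial.eval (chv none s) (F t) = 0 := by
      intro t
      apply rA.injective
      have h1 := hy t
      have h2 : (fun i => rA (s i)) = y := funext hs
      rw [← h2] at h1
      have h3 : chv none (fun i => rA (s i)) = fun q => rA (chv none s q) := chv_map rA none s
      rw [h3] at h1
      rw [map_zero, ← h1, MvPolynomial.eval_eq', map_sum, MvPolynomial.eval₂_eq']
      refine Finset.sum_congr rfl fun m _ => ?_
      rw [map_mul, map_prod]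
      simp only [map_pow]
    obtain ⟨j, l, hjl, N', hN0, hN, hΨ⟩ := hG (fun i => lam i * s i) (fun i => 𝓛.φ (s i))
      (hPt s hsF) (fun i => by rw [map_mul, hlam]) r Z.cls hr (by
        intro i hi
        refine norm_le_one_of_adjoin 𝓛.φ hΓ ?_
        have h1 : rA (lam i * s i) = Z.const i := by
          obtain ⟨z, hz⟩ := hZ
          rw [map_mul, hs]
          exact (hz i).1 hi
        rw [h1]
        exact Z.int i) (by
        intro j l c _ hcj hcl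
        obtain ⟨a', b', c', d', hdet, hrel⟩ := Z.rel_unif hcj hcl
        obtain ⟨w, w', hww, hw, hw'⟩ := hrel _ hZ
        refine ⟨w, w', a', b', c', d', hdet, hww, ?_, ?_⟩
        · rw [← hw, map_mul, hs]
        · rw [← hw', map_mul, hs])
    rw [Set.mem_iUnion₂]
    refine ⟨(j, l, N'), ?_, y, ⟨hy, hjl, hN0, ?_⟩, hxy'.symm⟩
    · simp only [hQ, Finset.mem_product, Finset.mem_univ, Finset.mem_range, true_and]
      omega
    · rw [map_mul, map_mul, hs, hs] at hΨ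
      exact hΨ
  · intro r Z hr
    refine ((hF2 Γ r Z hr (hconst Z)).1.image E).subset ?_
    rintro x ⟨⟨y, hy, hxy⟩, hZ⟩
    have hxy' := hxE hxy
    rw [hxy'] at hZ
    exact ⟨y, ⟨hy, hZ⟩, hxy'.symm⟩

end Pool.Agent.Y92.ZX
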