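import Pool.Agent.Y92.ZX.Finish
import Pool.Agent.Y92.ZX.Stm2

/-!
# The uniform theorem
-/

set_option autoImplicit false
set_option linter.unusedSectionVars false

open UpperHalfPlane H294ZP Polynomial IsDedekindDomain NumberField

namespace Pool.Agent.Y92.ZX

open Pool.Agent.Y226 Pool.Agent.Y226.ZG Pool.Agent.Y226.ZM Pool.Agent.Y226.ZU

/-! ### models of curves -/

/-- the zero set of the model in `ℂ^n` -/
def VK {K : Type} [Field K] [NumberField K] (σ : K →+* ℂ) {n : ℕ} {κ : Type}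
    (F : κ → MvPolynomial (Fin n × Bool) (𝓞 K)) : Set (Fin n → ℂ) :=
  {y | ∀ t, MvPolynomial.eval₂ (σ.comp (algebraMap (𝓞 K) K)) (chv none y) (F t) = 0}

/-- good reduction at `v` -/
structure GoodRed {K : Type} [Field K] [NumberField K] (v : HeightOneSpectrum (𝓞 K)) {n : ℕ}
    (d : ℕ) {κ : Type} (F : κ → MvPolynomial (Fin n × Bool) (𝓞 K)) : Prop where
  hom : ∀ t, MHom (F t)
  prime : ∀ (𝕜 : Type) [Field 𝕜] [IsAlgClosed 𝕜] (π : 𝓞 K →+* 𝕜), RingHom.ker π = v.asIdeal →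
    ∀ a, (chI π F a).IsPrime
  const : ∀ (𝕜 : Type) [Field 𝕜] [IsAlgClosed 𝕜] (π : 𝓞 K →+* 𝕜), RingHom.ker π = v.asIdeal →
    ∀ (i : Fin n) (c : 𝕜), MvPolynomial.X i - MvPolynomial.C c ∉ chI π F none
  gen : ∀ i j : Fin n, i ≠ j → ∃ (a b : ℕ) (g : ℕ → ℕ → 𝓞 K), a ≤ d ∧ b ≤ d ∧
    g 0 0 ∉ v.asIdeal ∧ g a 0 ∉ v.asIdeal ∧ g 0 b ∉ v.asIdeal ∧ g a b ∉ v.asIdeal ∧
    (∀ (𝕜 : Type) [Field 𝕜] [IsAlgClosed 𝕜] (π : 𝓞 K →+* 𝕜), RingHom.ker π = v.asIdeal →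
      ∀ c : 𝕜, ∃ v' ≤ b, ∑ u ∈ Finset.range (a + 1), π (g u v') * c ^ u ≠ 0) ∧
    bh i j a b g ∈ Ideal.span (Set.range F)

/-- the numbers in `K` which are integral at `v` -/
def intAt {K : Type} [Field K] [NumberField K] (σ : K →+* ℂ) (v : HeightOneSpectrum (𝓞 K)) :
    Set ℂ :=
  {z | ∃ x : K, v.valuation K x ≤ 1 ∧ σ x = z}

/-! ### maps of models -/

theorem MHom.map {A B : Type} [CommRing A] [CommRing B] {n : ℕ} (θ : A →+* B)
    {F : MvPolynomial (Fin n × Bool) A} (h : MHom F) : MHom (MvPolynomial.map θ F) := by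
  obtain ⟨δ, hδ⟩ := h
  exact ⟨δ, fun m hm => hδ m (MvPolynomial.support_map_subset θ F hm)⟩

theorem bh_map {A B : Type} [CommRing A] [CommRing B] {n : ℕ} (θ : A →+* B) (i j : Fin n)
    (a b : ℕ) (g : ℕ → ℕ → A) : MvPolynomial.map θ (bh i j a b g) =
      bh i j a b (fun u v => θ (g u v)) := by
  unfold bh
  simp only [map_sum, map_mul, map_pow, MvPolynomial.map_C, MvPolynomial.map_X]

theorem bh_span_map {A B : Type} [CommRing A] [CommRing B] {n : ℕ} (θ : A →+* B) {i j : Fin n}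
    {a b : ℕ} {g : ℕ → ℕ → A} {κ : Type} {F : κ → MvPolynomial (Fin n × Bool) A}
    (h : bh i j a b g ∈ Ideal.span (Set.range F)) :
    bh i j a b (fun u v => θ (g u v)) ∈
      Ideal.span (Set.range fun t => MvPolynomial.map θ (F t)) := by
  rw [← bh_map]
  have h1 := Ideal.mem_map_of_mem (MvPolynomial.map θ) h
  rw [Ideal.map_span, ← Set.range_comp] at h1
  exact h1

theorem chI_map {A B 𝕜 : Type} [CommRing A] [CommRing B] [Field 𝕜] {n : ℕ} {κ : Type}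
    (θ : A →+* B) (π : B →+* 𝕜) (F : κ → MvPolynomial (Fin n × Bool) A) (a : Option (Fin n)) :
    chI π (fun t => MvPolynomial.map θ (F t)) a = chI (π.comp θ) F a := by
  unfold chI
  congr 1
  congr 1
  funext t
  rw [MvPolynomial.eval₂_map]
  rfl

theorem GM.map {A B 𝕜 : Type} [CommRing A] [CommRing B] [Field 𝕜] {n : ℕ} {κ : Type} {d₀ : ℕ}
    {θ : A →+* B} {π : B →+* 𝕜} {F : κ → MvPolynomial (Fin n × Bool) A}
    (h : GM d₀ (π.comp θ) F) : GM d₀ π (fun t => MvPolynomial.map θ (F t)) where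
  hom := fun t => (h.hom t).map θ
  prime := fun a => by rw [chI_map]; exact h.prime a
  const := fun i c => by rw [chI_map]; exact h.const i c
  gen := fun i j hij => by
    obtain ⟨a, b, g, h1, h2, h3, h4, h5, h6, h7, h8⟩ := h.gen i j hij
    exact ⟨a, b, fun u v => θ (g u v), h1, h2, h3, h4, h5, h6, h7, bh_span_map θ h8⟩

theorem GoodRed.gm {K : Type} [Field K] [NumberField K] {v : HeightOneSpectrum (𝓞 K)} {n d : ℕ}
    {κ : Type} {F : κ → MvPolynomial (Fin n × Bool) (𝓞 K)} (h : GoodRed v d F) {𝕜 : Type}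
    [Field 𝕜] [IsAlgClosed 𝕜] {π : 𝓞 K →+* 𝕜} (hπ : RingHom.ker π = v.asIdeal) :
    GM d π F where
  hom := h.hom
  prime := h.prime 𝕜 π hπ
  const := h.const 𝕜 π hπ
  gen := fun i j hij => by
    obtain ⟨a, b, g, h1, h2, h3, h4, h5, h6, h7, h8⟩ := h.gen i j hij
    have hne : ∀ x, x ∉ v.asIdeal → π x ≠ 0 := fun x hx h0 => hx (by rw [← hπ]; exact h0)
    exact ⟨a, b, g, h1, h2, hne _ h3, hne _ h4, hne _ h5, hne _ h6, h7 𝕜 π hπ, h8⟩

/-! ### no vertical components -/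

section nv

variable {C : Type} [NormedField C] [IsUltrametricDist C] {k : Type} [Field k]

theorem nonvert (φ : QA →+* C) (red : OO C →+* k)
    (hker : ∀ x : OO C, red x = 0 ↔ ‖(x : C)‖ < 1) {a b : ℕ} {g : ℕ → ℕ → QA}
    (h1 : ∀ u v, ‖φ (g u v)‖ ≤ 1) (h2 : ‖φ (g a b)‖ = 1)
    (h3 : ∀ c : k, ∃ v ≤ b, ∑ u ∈ Finset.range (a + 1), red ⟨φ (g u v), h1 u v⟩ * c ^ u ≠ 0)
    (c : QA) : ∃ v ≤ b, ∑ u ∈ Finset.range (a + 1), g u v * c ^ u ≠ 0 := by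
  classical
  by_cases hc : ‖φ c‖ ≤ 1
  · obtain ⟨v, hv, hne⟩ := h3 (red ⟨φ c, hc⟩)
    refine ⟨v, hv, fun h0 => hne ?_⟩
    have e1 : (∑ u ∈ Finset.range (a + 1), (⟨φ (g u v), h1 u v⟩ : OO C) * ⟨φ c, hc⟩ ^ u) = 0 := by
      apply Subtype.ext
      have h4 := congrArg φ h0
      rw [map_sum, map_zero] at h4
      push_cast
      rw [← h4]
      exact Finset.sum_congr rfl fun u _ => by rw [map_mul, map_pow]
    have e2 := congrArg red e1
    rw [map_sum, map_zero] at e2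
    rw [← e2]
    exact Finset.sum_congr rfl fun u _ => by rw [map_mul, map_pow]
  · push Not at hc
    refine ⟨b, le_rfl, fun h0 => ?_⟩
    have h4 := congrArg φ h0
    rw [map_sum, map_zero, Finset.sum_range_succ] at h4
    have h5 : φ (g a b * c ^ a) = -∑ u ∈ Finset.range a, φ (g u b * c ^ u) :=
      eq_neg_of_add_eq_zero_right h4
    have h6 := congrArg norm h5
    rw [norm_neg, map_mul, map_pow, norm_mul, h2, one_mul, norm_pow] at h6
    have h7 : ‖∑ u ∈ Finset.range a, φ (g u b * c ^ u)‖ < ‖φ c‖ ^ a := by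
      by_cases ha : (Finset.range a).Nonempty
      · obtain ⟨u, hu, hle⟩ := IsUltrametricDist.exists_norm_finset_sum_le_of_nonempty ha
          (fun u => φ (g u b * c ^ u))
        refine hle.trans_lt ?_
        rw [map_mul, map_pow, norm_mul, norm_pow]
        calc ‖φ (g u b)‖ * ‖φ c‖ ^ u ≤ 1 * ‖φ c‖ ^ u := by gcongr; exact h1 u b
          _ = ‖φ c‖ ^ u := one_mul _
          _ < ‖φ c‖ ^ a := pow_lt_pow_right₀ hc (Finset.mem_range.1 hu)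
      · rw [Finset.not_nonempty_iff_eq_empty.1 ha, Finset.sum_empty, norm_zero]
        exact pow_pos (one_pos.trans hc) _
    rw [← h6] at h7
    exact lt_irrefl _ h7

end nv

theorem RDB.mono {R : Type} [CommRing R] {n N W M d D : ℕ} {𝓡 : RD R n N W M d D} {B B' : ℕ}
    (h : RDB 𝓡 B) (hB : B ≤ B') : RDB 𝓡 B' where
  card := fun i s j hij => (h.card i s j hij).trans hB
  br := fun i s j k hij hik hjk y hy y' hy' A hA B₁ hB₁ hB0 => by
    rcases h.br i s j k hij hik hjk y hy y' hy' A hA B₁ hB₁ hB0 with ⟨m, h1, h2⟩ | h1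
    · exact Or.inl ⟨m, h1.trans hB, h2⟩
    · exact Or.inr h1

/-- the units `Λ` from the parameters -/
theorem Lam_unit2 {C : Type} [NormedField C] [IsUltrametricDist C] {p : ℕ} [hpf : Fact p.Prime]
    (hp0 : 0 < ‖(p : C)‖) {x : C} {w e : ℕ} (hx : ‖x‖ = ‖(p : C)‖ ^ (-((w * e : ℕ) : ℤ)))
    (hNr : x * (p : C) ^ (w * e) ∈ Nr C p) {pu : Cˣ} (hpu : (pu : C) = p) :
    ∃ Λ : Cˣ, (Λ : C) = x ∧ Λ * pu ^ (w * e) ∈ GG C p 0 le_rfl one_pos := by
  have hx0 : x ≠ 0 := norm_pos_iff.1 (by rw [hx]; exact zpow_pos hp0 _)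
  refine ⟨Units.mk0 x hx0, rfl, ?_⟩
  refine GG_of_close hNr ?_ ?_
  · rw [norm_mul, norm_pow, hx, zpow_neg, zpow_natCast]
    exact inv_mul_cancel₀ (pow_pos hp0 _).ne'
  · rw [Units.val_mul, Units.val_mk0, Units.val_pow_eq_pow_val, hpu, sub_self, norm_zero]

/-- The uniform theorem. -/
theorem main_uni (hRe : S_RED) (hPT : S_PT) (hGM : S_GMCC) (hCo : S_CORE) (hFi : S_FIN)
    (hNF : S_NF) (n d₀ W : ℕ) : ∃ D : ℕ, ∀ (K : Type) [Field K] [NumberField K] (σ : K →+* ℂ)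
    (v : HeightOneSpectrum (𝓞 K)) (p : ℕ), p.Prime → D < p → (p : 𝓞 K) ∈ v.asIdeal →
    (p : 𝓞 K) ∉ v.asIdeal ^ 2 → ∀ (κ : Type) (F : κ → MvPolynomial (Fin n × Bool) (𝓞 K)),
    GoodRed v d₀ F → ∀ (lam : Fin n → K) (e : ℕ) (w : Fin n → ℕ), 0 < e →
    (∀ i, 0 < w i ∧ w i ≤ W ∧ v.valuation K (lam i) = WithZero.exp ((w i * e : ℕ) : ℤ)) →
    {x : Fin n → ℂ | (∃ y ∈ VK σ F, ∀ i, x i = σ (lam i) * y i) ∧
      ∃ (r : ℕ) (Z : SV (intAt σ v) n r), r + 2 ≤ n ∧ x ∈ Z.locus}.Finite ∧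
    ∀ (r : ℕ) (Z : SV (intAt σ v) n r), r < n →
      {x : Fin n → ℂ | (∃ y ∈ VK σ F, ∀ i, x i = σ (lam i) * y i) ∧ x ∈ Z.locus}.Finite := by
  obtain ⟨B₀, hB₀⟩ := hRe n d₀ W
  set B := B₀ + 1 with hBdef
  refine ⟨16 * B ^ 2 * B ^ 2 + (16 * B ^ 2 + 2) + (B + 2) + W + 2 * B ^ 2 +
    (B * (B + 1) + 1) + (B ^ 2 + 1), ?_⟩
  intro K _ _ σ v p hp hDp hpv hpv2 κ F hF lam e w he hw
  haveI hpf : Fact p.Prime := ⟨hp⟩
  obtain ⟨C, _, _, _, _, _, k, _, _, _, red, 𝕜, _, _, _, ρ, ι, φ, σ', hσ', hp0, hp1, hker, hρs,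
    hι, hNr, hv1, hval⟩ := hNF p K σ v hpv hpv2
  have hle1 : ∀ x : 𝓞 K, v.valuation K (algebraMap (𝓞 K) K x) ≤ 1 := fun x =>
    v.valuation_le_one x
  -- the map to the ring of almost unramified elements
  let θ₀ : 𝓞 K →+* C := (φ.comp σ').comp (algebraMap (𝓞 K) K)
  let θ : 𝓞 K →+* Nr C p := θ₀.codRestrict (Nr C p) fun x => hNr _ (hle1 x)
  have hθ : ∀ x, ((θ x : Nr C p) : C) = φ (σ' (algebraMap (𝓞 K) K x)) := fun x => rfl
  have hρ0 : ∀ r : Nr C p, ρ r = 0 ↔ ‖(r : C)‖ < 1 := by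
    intro r
    rw [← map_eq_zero ι, hι, hker]
  have hkerπ : RingHom.ker (ρ.comp θ) = v.asIdeal := by
    ext x
    rw [RingHom.mem_ker, RingHom.comp_apply, hρ0, hθ, hv1]
  have hkerk : RingHom.ker (ι.comp (ρ.comp θ)) = v.asIdeal := by
    rw [← hkerπ]
    ext x
    rw [RingHom.mem_ker, RingHom.mem_ker, RingHom.comp_apply, map_eq_zero]
  have hGM' : GM d₀ ρ (fun t => MvPolynomial.map θ (F t)) := (hF.gm hkerπ).map
  obtain ⟨N, M, d, D, 𝓡, hN, hNB, hM, hMB, hdB, hDB, hRB, hRel⟩ := hB₀ p (by omega) 𝕜 _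
    (hGM _ _ n κ d₀ ρ _ hGM')
  obtain ⟨ht, rho, hht, hpt⟩ := hPT C p 𝕜 ρ hρs hp0 hp1 hρ0 n d₀ κ _ hGM' N W M d D 𝓡 hRel
  set pu : Cˣ := Units.mk0 (p : C) (norm_pos_iff.1 hp0) with hpu
  have hΛex : ∀ i, ∃ Λ : Cˣ, (Λ : C) = φ (σ' (lam i)) ∧
      Λ * pu ^ (w i * e) ∈ GG C p 0 le_rfl one_pos := by
    intro i
    refine Lam_unit2 hp0 (hval _ _ (hw i).2.2) ?_ rfl
    have h1 : φ (σ' (lam i)) * (p : C) ^ (w i * e) = φ (σ' (lam i * (p : K) ^ (w i * e))) := by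
      simp
    rw [h1]
    apply hNr
    rw [map_mul, map_pow, (hw i).2.2, val_p hpv hpv2, ← WithZero.exp_nsmul, ← WithZero.exp_add]
    simp
  choose Λ hΛ1 hΛ2 using hΛex
  have q1 : N ≤ B := by omega
  have q2 : M ≤ B := by omega
  have q3 : d ≤ B := by omega
  have q4 : D ≤ B := by omega
  have e1 : 16 * D ^ 2 * d ^ 2 ≤ 16 * B ^ 2 * B ^ 2 := by gcongr
  have e2 : 16 * d ^ 2 + 2 ≤ 16 * B ^ 2 + 2 := by gcongr
  have e3 : 2 * M ^ 2 ≤ 2 * B ^ 2 := by gcongr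
  have e4 : B * (D + 1) + 1 ≤ B * (B + 1) + 1 := by gcongr
  let 𝓛 : LB C p k 𝕜 n N W M d D B :=
    { φ := φ, red := red, hker := hker, hp0 := hp0, hp1 := hp1, ρ := ρ, hρs := hρs, ι := ι
      hι := hι, 𝓡 := 𝓡, h𝓡 := hRB.mono (by omega), ht := ht, hht := hht, rho := rho
      Λ := Λ, w := w, hw := fun i => ⟨(hw i).1, (hw i).2.1⟩, e := e, he := he, pu := pu
      hpu := rfl, hΛ := hΛ2
      b1 := by omega
      b2 := by omega
      b3 := by omega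
      b4 := by omega
      b5 := by omega
      b6 := by omega
      b7 := by omega
      b8 := by omega
      hB := by omega
      hN := hN
      hM := hM }
  -- the model over `QA`
  set F' : κ → MvPolynomial (Fin n × Bool) QA := fun t =>
    MvPolynomial.map (σ'.comp (algebraMap (𝓞 K) K)) (F t) with hF'
  have hrσ : rA.comp (σ'.comp (algebraMap (𝓞 K) K)) = σ.comp (algebraMap (𝓞 K) K) :=
    RingHom.ext fun x => hσ' _
  have hVF : VF F' = VK σ F := by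
    ext y
    show (∀ t, _ = _) ↔ ∀ t, _ = _
    refine forall_congr' fun t => ?_
    rw [hF', MvPolynomial.eval₂_map, hrσ]
  have hgen : ∀ i j : Fin n, i ≠ j → ∃ (a b : ℕ) (g : ℕ → ℕ → QA), g 0 0 ≠ 0 ∧ g a 0 ≠ 0 ∧
      g 0 b ≠ 0 ∧ g a b ≠ 0 ∧ (∀ c : QA, ∃ v ≤ b, ∑ u ∈ Finset.range (a + 1), g u v * c ^ u ≠ 0) ∧
      bh i j a b g ∈ Ideal.span (Set.range F') := by
    intro i j hij
    obtain ⟨a, b, g, -, -, h3, h4, h5, h6, h7, h8⟩ := hF.gen i j hij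
    have hn1 : ∀ x : 𝓞 K, x ∉ v.asIdeal → ‖φ (σ' (algebraMap (𝓞 K) K x))‖ = 1 := fun x hx =>
      le_antisymm (Nr_le (hNr _ (hle1 x))) (not_lt.1 fun h => hx ((hv1 x).1 h))
    have hn0 : ∀ x : 𝓞 K, x ∉ v.asIdeal → σ' (algebraMap (𝓞 K) K x) ≠ 0 := fun x hx h0 => by
      have := hn1 x hx
      rw [h0, map_zero, norm_zero] at this
      exact zero_ne_one this
    refine ⟨a, b, fun u v => (σ'.comp (algebraMap (𝓞 K) K)) (g u v), hn0 _ h3, hn0 _ h4,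
      hn0 _ h5, hn0 _ h6, ?_, bh_span_map _ h8⟩
    refine nonvert φ red hker (fun u v => Nr_le (hNr _ (hle1 (g u v)))) (hn1 _ h6) ?_
    intro c
    obtain ⟨v', hv', hne⟩ := h7 k (ι.comp (ρ.comp θ)) hkerk c
    refine ⟨v', hv', ?_⟩
    convert hne using 3 with u hu
    exact (hι (θ (g u v'))).symm
  have hfin := finish hCo hFi 𝓛 hgen (lam := fun i => σ' (lam i)) (fun i => (hΛ1 i).symm)
    (Γ := intAt σ v) (by
      rintro _ ⟨x, hx, rfl⟩
      exact ⟨σ' x, hσ' x, Nr_le (hNr x hx)⟩) (by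
      intro s hs
      refine hpt _ fun t => ?_
      have h1 := congrArg φ (hs t)
      rw [map_zero, MvPolynomial.eval_map] at h1
      rw [MvPolynomial.eval₂_map, chv_map φ none s, ← h1]
      exact (MvPolynomial.eval₂_comp_left φ (σ'.comp (algebraMap (𝓞 K) K)) (chv none s) (F t)).symm)
  rw [hVF] at hfin
  simp only [hσ'] at hfin
  exact hfin

end Pool.Agent.Y92.ZX
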