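import Pool.Agent.Y92.ZX.Core
import Pool.Agent.Y92.ZX.Uni
import Pool.Agent.Y108.ZX.Ul
import Pool.Agent.Y448.ZX.Red
import Pool.Agent.Y151.ZX.Eva
import Pool.Agent.Y151.ZX.Root
import Pool.Agent.Y574.ZX.Pt
import Pool.Agent.Y858.ZX.Wild
import Pool.Agent.Y290.ZX.ExcM
import Pool.Agent.Y948.ZX.Tame
import Pool.Agent.Y219.ZX.Fin
import Pool.Agent.Y61.ZX.NF
import Pool.Agent.Y945.ZX.Ord

/-!
# The uniform theorem, unconditionally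
-/

set_option autoImplicit false
set_option linter.unusedSectionVars false

open UpperHalfPlane H294ZP Polynomial IsDedekindDomain NumberField

namespace Pool.Agent.Y92.ZX

open Pool.Agent.Y226 Pool.Agent.Y226.ZG Pool.Agent.Y226.ZM Pool.Agent.Y226.ZU

/-- The local theorem. -/
theorem core_all : S_CORE :=
  core Y151.ZX.root Y858.ZX.wild Y858.ZX.wildcm Y290.ZX.exc Y948.ZX.tame Y945.ZX.ord

/-- The uniform theorem. -/
theorem uni_all (n d₀ W : ℕ) : ∃ D : ℕ, ∀ (K : Type) [Field K] [NumberField K]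
    (σ : K →+* ℂ) (v : HeightOneSpectrum (𝓞 K)) (p : ℕ), p.Prime → D < p → (p : 𝓞 K) ∈ v.asIdeal →
    (p : 𝓞 K) ∉ v.asIdeal ^ 2 → ∀ (κ : Type) (F : κ → MvPolynomial (Fin n × Bool) (𝓞 K)),
    GoodRed v d₀ F → ∀ (lam : Fin n → K) (e : ℕ) (w : Fin n → ℕ), 0 < e →
    (∀ i, 0 < w i ∧ w i ≤ W ∧ v.valuation K (lam i) = WithZero.exp ((w i * e : ℕ) : ℤ)) →
    {x : Fin n → ℂ | (∃ y ∈ VK σ F, ∀ i, x i = σ (lam i) * y i) ∧
      ∃ (r : ℕ) (Z : SV (intAt σ v) n r), r + 2 ≤ n ∧ x ∈ Z.locus}.Finite ∧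
    ∀ (r : ℕ) (Z : SV (intAt σ v) n r), r < n →
      {x : Fin n → ℂ | (∃ y ∈ VK σ F, ∀ i, x i = σ (lam i) * y i) ∧ x ∈ Z.locus}.Finite :=
  main_uni (Y448.ZX.red Y108.ZX.ul) (Y574.ZX.pt Y151.ZX.cht Y151.ZX.eva Y945.ZX.gmcc)
    Y945.ZX.gmcc core_all Y219.ZX.fin Y61.ZX.nf n d₀ W

end Pool.Agent.Y92.ZX
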