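import Pool.Agent.Y92.ZX.Mixed
import Pool.Agent.Y92.ZX.FamAll
import Pool.Agent.Y153.ZX.WGen
import Pool.Agent.Y948.ZX.Tmix
import Pool.Agent.Y839.ZX.Lmix
import Pool.Agent.Y44.ZX.Lev
import Pool.Agent.Y44.ZX.MFin
import Pool.Agent.Y961.ZX.PK
import Pool.Agent.Y833.ZX.Comb
import Pool.Agent.Y949.ZX.Mixx

/-!
# The mixed theorems, unconditionally
-/

set_option autoImplicit false
set_option linter.unusedSectionVars false

open UpperHalfPlane H294ZP Polynomial IsDedekindDomain NumberField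

namespace Pool.Agent.Y92.ZX

open Pool.Agent.Y226 Pool.Agent.Y226.ZG Pool.Agent.Y226.ZM Pool.Agent.Y226.ZU

theorem pk_all : S_PK :=
  Y961.ZX.pk (Y839.ZX.lmix Y153.ZX.wgen Y948.ZX.tmix Y945.ZX.ord)
    (Y44.ZX.lev Y151.ZX.root Y945.ZX.ord) (Y44.ZX.mulb Y151.ZX.root) core_all

theorem mixx_all : S_MIXX :=
  Y949.ZX.mixx Y833.ZX.comb' Y44.ZX.mfin Y219.ZX.fin

/-- The uniform mixed theorem. -/
theorem mixed_uni_all (n k d₀ W K : ℕ) (hK3 : 3 ≤ K) (hK : k * (k - 1) ≤ K) : ∃ D : ℕ,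
    ∀ (L : Type) [Field L] [NumberField L] (σ : L →+* ℂ) (v : Fin K → HeightOneSpectrum (𝓞 L))
    (p : Fin K → ℕ), Function.Injective p → (∀ i, (p i).Prime ∧ D < p i ∧
      (p i : 𝓞 L) ∈ (v i).asIdeal ∧ (p i : 𝓞 L) ∉ (v i).asIdeal ^ 2) →
    ∀ (κ : Type) (F : κ → MvPolynomial (Fin (n + k) × Bool) (𝓞 L)), (∀ i, GoodRed (v i) d₀ F) →
    ∀ (lam : Fin n → L) (nu : Fin k → L) (e f : Fin K → ℕ) (w : Fin K → Fin n → ℕ)
      (c : Fin K → Fin k → ℤ), Indep c → (∀ i, SC (v i) W lam nu (e i) (f i) (w i) (c i)) →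
    Concl (intAll σ v) (scl (VK σ F) (fun j => σ (lam j)) (fun l => σ (nu l))) :=
  mixed_uni mixx_all (Y448.ZX.red Y108.ZX.ul) (Y574.ZX.pt Y151.ZX.cht Y151.ZX.eva Y945.ZX.gmcc)
    Y945.ZX.gmcc Y61.ZX.nf pk_all n k d₀ W K hK3 hK

/-- The mixed theorem on families. -/
theorem mixed_fam_all (n k m W K : ℕ) (hK3 : 3 ≤ K) (hK : k * (k - 1) ≤ K) (κ : Type) [Finite κ]
    (d₀ : ℕ) (F : κ → MvPolynomial (Fin (n + k) × Bool) (MvPolynomial (Fin m) QA))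
    (hF : GM d₀ (MvPolynomial.eval (0 : Fin m → QA)) F) : ∃ D : ℕ,
    ∀ (L : Type) [Field L] [NumberField L] (σ : L →+* ℂ) (v : Fin K → HeightOneSpectrum (𝓞 L))
    (p : Fin K → ℕ), Function.Injective p → (∀ i, (p i).Prime ∧ D < p i ∧
      (p i : 𝓞 L) ∈ (v i).asIdeal ∧ (p i : 𝓞 L) ∉ (v i).asIdeal ^ 2) →
    ∀ s : Fin m → L, (∀ i l, (v i).valuation L (s l) < 1) →
    ∀ (lam : Fin n → L) (nu : Fin k → L) (e f : Fin K → ℕ) (w : Fin K → Fin n → ℕ)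
      (c : Fin K → Fin k → ℤ), Indep c → (∀ i, SC (v i) W lam nu (e i) (f i) (w i) (c i)) →
    Concl (intAll σ v)
      (scl (VS F (fun l => σ (s l))) (fun j => σ (lam j)) (fun l => σ (nu l))) :=
  mixed_fam mixx_all fam (Y427.ZX.pt2 Y151.ZX.eva) Y61.ZX.nf pk_all n k m W K hK3 hK κ d₀ F hF

end Pool.Agent.Y92.ZX
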