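import Pool.Agent.Y92.ZX.Place
import Pool.Agent.Y226.ZM.Fin

/-!
# The mixed theorems
-/

set_option autoImplicit false
set_option linter.unusedSectionVars false

open UpperHalfPlane H294ZP Polynomial IsDedekindDomain NumberField

namespace Pool.Agent.Y92.ZX

open Pool.Agent.Y226 Pool.Agent.Y226.ZG Pool.Agent.Y226.ZM Pool.Agent.Y226.ZU

/-- embeddings of number fields have values in the algebraic numbers -/
theorem exists_sig {K : Type} [Field K] [NumberField K] (σ : K →+* ℂ) :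
    ∃ σ' : K →+* QA, ∀ x, rA (σ' x) = σ x := by
  refine ⟨σ.codRestrict QA.toSubalgebra.toSubring fun x => ?_, fun x => rfl⟩
  have h1 : IsAlgebraic ℚ x := Algebra.IsAlgebraic.isAlgebraic x
  have h2 : IsAlgebraic ℚ (σ.toRatAlgHom x) := h1.algHom σ.toRatAlgHom
  exact mem_QA.2 h2

/-- a bound for the exponent vectors -/
theorem exists_W (K k W : ℕ) : ∃ W' : ℕ, W ≤ W' ∧ 1 ≤ W' ∧ ∀ c : Fin K → Fin k → ℤ,
    (∀ i l, |c i l| ≤ W) → ∀ S : Finset (Fin K),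
    (∃ a : Fin k → ℤ, a ≠ 0 ∧ ∀ i ∈ S, ∑ l, a l * c i l = 0) →
    ∃ b : Fin k → ℤ, Bv W' b ∧ b ≠ 0 ∧ ∀ i ∈ S, ∑ l, b l * c i l = 0 := by
  classical
  have hb : ∀ (c : Fin K → Fin k → ℤ) (S : Finset (Fin K)), ∃ b : Fin k → ℤ,
      (∃ a : Fin k → ℤ, a ≠ 0 ∧ ∀ i ∈ S, ∑ l, a l * c i l = 0) →
      b ≠ 0 ∧ ∀ i ∈ S, ∑ l, b l * c i l = 0 := by
    intro c S
    by_cases h : ∃ a : Fin k → ℤ, a ≠ 0 ∧ ∀ i ∈ S, ∑ l, a l * c i l = 0
    · exact ⟨h.choose, fun _ => h.choose_spec⟩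
    · exact ⟨0, fun h' => absurd h' h⟩
  choose b hb using hb
  set T := (finite_exp K k W).toFinset with hT
  refine ⟨W + 1 + ∑ c ∈ T, ∑ S, ∑ l, (b c S l).natAbs, by omega, by omega, ?_⟩
  intro c hc S hS
  obtain ⟨h1, h2⟩ := hb c S hS
  refine ⟨b c S, fun l => ?_, h1, h2⟩
  have hcT : c ∈ T := by
    rw [hT, Set.Finite.mem_toFinset]
    exact hc
  have e1 : (b c S l).natAbs ≤ ∑ l, (b c S l).natAbs :=
    Finset.single_le_sum (f := fun l => (b c S l).natAbs) (fun _ _ => Nat.zero_le _)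
      (Finset.mem_univ l)
  have e2 : ∑ l, (b c S l).natAbs ≤ ∑ S, ∑ l, (b c S l).natAbs :=
    Finset.single_le_sum (f := fun S => ∑ l, (b c S l).natAbs) (fun _ _ => Nat.zero_le _)
      (Finset.mem_univ S)
  have e3 : ∑ S, ∑ l, (b c S l).natAbs ≤ ∑ c ∈ T, ∑ S, ∑ l, (b c S l).natAbs :=
    Finset.single_le_sum (f := fun c => ∑ S, ∑ l, (b c S l).natAbs) (fun _ _ => Nat.zero_le _)
      hcT
  rw [Int.abs_eq_natAbs]
  have h3 : (b c S l).natAbs ≤ W + 1 + ∑ c ∈ T, ∑ S, ∑ l, (b c S l).natAbs := by omega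
  exact_mod_cast h3

/-- the elements of `K` which are integral at all places `v i` -/
def intAll {K : Type} [Field K] [NumberField K] (σ : K →+* ℂ) {q : ℕ}
    (v : Fin q → HeightOneSpectrum (𝓞 K)) : Set ℂ :=
  {z | ∃ x : K, (∀ i, (v i).valuation K x ≤ 1) ∧ σ x = z}

/-- the conclusion: finiteness for the special subvarieties of `Y(1)^n × G_m^k` -/
def Concl {n k : ℕ} (Γ : Set ℂ) (S : Set (Fin (n + k) → ℂ)) : Prop :=
  {x : Fin (n + k) → ℂ | x ∈ S ∧ (∀ l, x (Fin.natAdd n l) ≠ 0) ∧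
      ∃ (r : ℕ) (Z : SV Γ n r) (M : Submodule ℤ (Fin k → ℤ)) (η : Fin k → ℂ),
        (∀ l, ∃ o : ℕ, 0 < o ∧ η l ^ o = 1) ∧ r + 2 ≤ n + Module.finrank ℤ M ∧
        (fun j => x (Fin.castAdd k j)) ∈ Z.locus ∧
        ∀ a ∈ M, ∏ l, x (Fin.natAdd n l) ^ a l = ∏ l, η l ^ a l}.Finite ∧
  ∀ (r : ℕ) (Z : SV Γ n r) (M : Submodule ℤ (Fin k → ℤ)) (η : Fin k → ℂ),
    (∀ l, ∃ o : ℕ, 0 < o ∧ η l ^ o = 1) → r + 1 ≤ n + Module.finrank ℤ M →
    {x : Fin (n + k) → ℂ | x ∈ S ∧ (∀ l, x (Fin.natAdd n l) ≠ 0) ∧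
      (fun j => x (Fin.castAdd k j)) ∈ Z.locus ∧
      ∀ a ∈ M, ∏ l, x (Fin.natAdd n l) ^ a l = ∏ l, η l ^ a l}.Finite

/-- the scaled image of a set -/
def scl {n k : ℕ} (V : Set (Fin (n + k) → ℂ)) (lam : Fin n → ℂ) (nu : Fin k → ℂ) :
    Set (Fin (n + k) → ℂ) :=
  {x | ∃ y ∈ V, (∀ j, x (Fin.castAdd k j) = lam j * y (Fin.castAdd k j)) ∧
      ∀ l, x (Fin.natAdd n l) = nu l * y (Fin.natAdd n l)}

/-- The conditions on the scaling factors at one place. -/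
structure SC {L : Type} [Field L] [NumberField L] (v : HeightOneSpectrum (𝓞 L)) {n k : ℕ}
    (W : ℕ) (lam : Fin n → L) (nu : Fin k → L) (e f : ℕ) (w : Fin n → ℕ) (c : Fin k → ℤ) :
    Prop where
  he : 0 < e
  hf : 0 < f
  hlam : ∀ j, 0 < w j ∧ w j ≤ W ∧ v.valuation L (lam j) = WithZero.exp ((w j * e : ℕ) : ℤ)
  hnu : ∀ l, |c l| ≤ W ∧ v.valuation L (nu l) = WithZero.exp (-((f : ℤ) * c l))

section

variable {L : Type} [Field L] [NumberField L] {n k K W W' : ℕ} {σ' : L →+* QA}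
  {v : Fin K → HeightOneSpectrum (𝓞 L)} {p : Fin K → ℕ} {lam : Fin n → L} {nu : Fin k → L}
  {e f : Fin K → ℕ} {w : Fin K → Fin n → ℕ} {c : Fin K → Fin k → ℤ}

theorem val_ne {v : HeightOneSpectrum (𝓞 L)} {x : L} {m : ℤ}
    (h : v.valuation L x = WithZero.exp m) : x ≠ 0 := by
  rintro rfl
  rw [map_zero] at h
  exact WithZero.exp_ne_zero h.symm

/-- from the places to the conclusion -/
theorem concl_of (hMix : S_MIXX) (hK3 : 3 ≤ K) (hK : k * (k - 1) ≤ K) {κ : Type}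
    {F' : κ → MvPolynomial (Fin (n + k) × Bool) QA} (σ : L →+* ℂ) (hσ' : ∀ x, rA (σ' x) = σ x)
    (hgen : Gen F') (hc : Indep c) (hW' : ∀ c : Fin K → Fin k → ℤ,
    (∀ i l, |c i l| ≤ W) → ∀ S : Finset (Fin K),
    (∃ a : Fin k → ℤ, a ≠ 0 ∧ ∀ i ∈ S, ∑ l, a l * c i l = 0) →
    ∃ b : Fin k → ℤ, Bv W' b ∧ b ≠ 0 ∧ ∀ i ∈ S, ∑ l, b l * c i l = 0)
    (hp : ∀ i, (p i).Prime) (hpi : Function.Injective p)
    (hSC : ∀ i, SC (v i) W lam nu (e i) (f i) (w i) (c i))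
    (hpk : ∀ i, Nonempty (PK (fun P => ∀ t, MvPolynomial.eval (chv none P) (F' t) = 0)
      (intAll σ v) W' (p i)
      (fun j => σ' ((Fin.append lam (fun _ => ((p i : L) ^ e i)⁻¹) : Fin (n + k) → L) j))
      (fun j => σ' ((Fin.append (fun _ => 1) nu : Fin (n + k) → L) j))
      (Fin.append (fun _ => 0) fun l => (f i : ℤ) * c i l))) :
    Concl (intAll σ v) (scl (VF F') (fun j => σ (lam j)) (fun l => σ (nu l))) := by
  have hi₀ : 0 < K := by omega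
  have hap : ∀ (a : Fin n → L) (b : Fin k → L),
      (fun j => σ' ((Fin.append a b : Fin (n + k) → L) j)) =
      Fin.append (fun j => σ' (a j)) (fun l => σ' (b l)) := by
    intro a b
    funext j
    refine Fin.addCases (motive := fun j => σ' ((Fin.append a b : Fin (n + k) → L) j) =
      (Fin.append (fun j => σ' (a j)) (fun l => σ' (b l)) : Fin (n + k) → QA) j) ?_ ?_ j
    · intro j
      rw [Fin.append_left, Fin.append_left]
    · intro l
      rw [Fin.append_right, Fin.append_right]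
  have h1 := hMix n k K κ F' hgen (intAll σ v) (by
      rintro _ ⟨x, -, rfl⟩
      exact ⟨σ' x, hσ' x⟩) W' p (fun j => σ' (lam j)) (fun l => σ' (nu l))
    (fun i _ => σ' ((p i : L) ^ e i)⁻¹) (fun j => by
      rw [Ne, map_eq_zero]
      exact val_ne ((hSC ⟨0, hi₀⟩).hlam j).2.2) (fun l => by
      rw [Ne, map_eq_zero]
      exact val_ne ((hSC ⟨0, hi₀⟩).hnu l).2) (fun i l => by
      rw [Ne, map_eq_zero]
      exact inv_ne_zero (pow_ne_zero _ (Nat.cast_ne_zero.2 (hp i).ne_zero))) hK3 hK c hc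
    (hW' c fun i l => ((hSC i).hnu l).1) hp hpi f (fun i => (hSC i).hf) (fun i => by
      have h2 := hpk i
      rw [hap, hap] at h2
      simp only [map_one] at h2
      exact h2)
  simp only [hσ'] at h1
  exact h1

/-- the extended scaling factors -/
theorem lam_ext {v : HeightOneSpectrum (𝓞 L)} {p : ℕ} [hpf : Fact p.Prime]
    (hpv : (p : 𝓞 L) ∈ v.asIdeal) (hpv2 : (p : 𝓞 L) ∉ v.asIdeal ^ 2) {e f : ℕ} {w : Fin n → ℕ}
    {c : Fin k → ℤ} (hW : W ≤ W') (hW1 : 1 ≤ W') (h : SC v W lam nu e f w c) :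
    (∀ i, 0 < (Fin.append w (fun _ => 1) : Fin (n + k) → ℕ) i ∧
      (Fin.append w (fun _ => 1) : Fin (n + k) → ℕ) i ≤ W' ∧
      v.valuation L ((Fin.append lam (fun _ => ((p : L) ^ e)⁻¹) : Fin (n + k) → L) i) =
        WithZero.exp (((Fin.append w (fun _ => 1) : Fin (n + k) → ℕ) i * e : ℕ) : ℤ)) ∧
    ∀ i, v.valuation L ((Fin.append (fun _ => 1) nu : Fin (n + k) → L) i) =
      WithZero.exp (-((Fin.append (fun _ => 0) fun l => (f : ℤ) * c l : Fin (n + k) → ℤ) i)) := by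
  refine ⟨fun i => ?_, fun i => ?_⟩
  · refine Fin.addCases (motive := fun i => 0 < (Fin.append w (fun _ => 1) : Fin (n + k) → ℕ) i ∧
      (Fin.append w (fun _ => 1) : Fin (n + k) → ℕ) i ≤ W' ∧
      v.valuation L ((Fin.append lam (fun _ => ((p : L) ^ e)⁻¹) : Fin (n + k) → L) i) =
        WithZero.exp (((Fin.append w (fun _ => 1) : Fin (n + k) → ℕ) i * e : ℕ) : ℤ)) ?_ ?_ i
    · intro j
      rw [Fin.append_left, Fin.append_left]
      exact ⟨(h.hlam j).1, (h.hlam j).2.1.trans hW, (h.hlam j).2.2⟩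
    · intro l
      rw [Fin.append_right, Fin.append_right]
      refine ⟨one_pos, hW1, ?_⟩
      rw [map_inv₀, map_pow, val_p hpv hpv2, ← WithZero.exp_nsmul, ← WithZero.exp_neg]
      simp
  · refine Fin.addCases (motive := fun i =>
      v.valuation L ((Fin.append (fun _ => 1) nu : Fin (n + k) → L) i) =
      WithZero.exp (-((Fin.append (fun _ => 0) fun l => (f : ℤ) * c l : Fin (n + k) → ℤ) i)))
      ?_ ?_ i
    · intro j
      rw [Fin.append_left, Fin.append_left, map_one, neg_zero, WithZero.exp_zero]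
    · intro l
      rw [Fin.append_right, Fin.append_right]
      exact (h.hnu l).2

end

/-- The uniform mixed theorem. -/
theorem mixed_uni (hMix : S_MIXX) (hRe : S_RED) (hPT : S_PT) (hGM : S_GMCC) (hNF : S_NF)
    (hPK : S_PK) (n k d₀ W K : ℕ) (hK3 : 3 ≤ K) (hK : k * (k - 1) ≤ K) : ∃ D : ℕ,
    ∀ (L : Type) [Field L] [NumberField L] (σ : L →+* ℂ) (v : Fin K → HeightOneSpectrum (𝓞 L))
    (p : Fin K → ℕ), Function.Injective p → (∀ i, (p i).Prime ∧ D < p i ∧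
      (p i : 𝓞 L) ∈ (v i).asIdeal ∧ (p i : 𝓞 L) ∉ (v i).asIdeal ^ 2) →
    ∀ (κ : Type) (F : κ → MvPolynomial (Fin (n + k) × Bool) (𝓞 L)), (∀ i, GoodRed (v i) d₀ F) →
    ∀ (lam : Fin n → L) (nu : Fin k → L) (e f : Fin K → ℕ) (w : Fin K → Fin n → ℕ)
      (c : Fin K → Fin k → ℤ), Indep c → (∀ i, SC (v i) W lam nu (e i) (f i) (w i) (c i)) →
    Concl (intAll σ v) (scl (VK σ F) (fun j => σ (lam j)) (fun l => σ (nu l))) := by
  obtain ⟨W', hW, hW1, hW'⟩ := exists_W K k W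
  obtain ⟨D, hD⟩ := pk_uni hRe hPT hGM hNF hPK (n + k) d₀ W'
  refine ⟨D, fun L _ _ σ v p hpi hp κ F hF lam nu e f w c hc hSC => ?_⟩
  obtain ⟨σ', hσ'⟩ := exists_sig σ
  have hloc := fun i => hD L σ σ' hσ' (v i) (p i) (hp i).1 (hp i).2.1 (hp i).2.2.1 (hp i).2.2.2
    κ F (hF i)
  have hpk := fun i => by
    haveI : Fact (p i).Prime := ⟨(hp i).1⟩
    obtain ⟨h1, h2⟩ := lam_ext (n := n) (k := k) (hp i).2.2.1 (hp i).2.2.2 hW hW1 (hSC i)
    exact hloc i _ (e i) _ (hSC i).he h1 _ _ h2 (intAll σ v) (fun z hz => by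
      obtain ⟨x, hx, rfl⟩ := hz
      exact ⟨x, hx i, rfl⟩)
  have h1 := concl_of hMix hK3 hK σ hσ' (hpk ⟨0, by omega⟩).2 hc hW' (fun i => (hp i).1) hpi hSC
    (fun i => (hpk i).1)
  have hrσ : rA.comp (σ'.comp (algebraMap (𝓞 L) L)) = σ.comp (algebraMap (𝓞 L) L) :=
    RingHom.ext fun x => hσ' _
  have hVF : VF (fun t => MvPolynomial.map (σ'.comp (algebraMap (𝓞 L) L)) (F t)) = VK σ F := by
    ext y
    show (∀ t, _ = _) ↔ ∀ t, _ = _
    refine forall_congr' fun t => ?_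
    rw [MvPolynomial.eval₂_map, hrσ]
  rw [hVF] at h1
  exact h1

/-- The mixed theorem on families. -/
theorem mixed_fam (hMix : S_MIXX) (hFam : S_FAM) (hPT : S_PT2) (hNF : S_NF) (hPK : S_PK)
    (n k m W K : ℕ) (hK3 : 3 ≤ K) (hK : k * (k - 1) ≤ K) (κ : Type) [Finite κ] (d₀ : ℕ)
    (F : κ → MvPolynomial (Fin (n + k) × Bool) (MvPolynomial (Fin m) QA))
    (hF : GM d₀ (MvPolynomial.eval (0 : Fin m → QA)) F) : ∃ D : ℕ,
    ∀ (L : Type) [Field L] [NumberField L] (σ : L →+* ℂ) (v : Fin K → HeightOneSpectrum (𝓞 L))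
    (p : Fin K → ℕ), Function.Injective p → (∀ i, (p i).Prime ∧ D < p i ∧
      (p i : 𝓞 L) ∈ (v i).asIdeal ∧ (p i : 𝓞 L) ∉ (v i).asIdeal ^ 2) →
    ∀ s : Fin m → L, (∀ i l, (v i).valuation L (s l) < 1) →
    ∀ (lam : Fin n → L) (nu : Fin k → L) (e f : Fin K → ℕ) (w : Fin K → Fin n → ℕ)
      (c : Fin K → Fin k → ℤ), Indep c → (∀ i, SC (v i) W lam nu (e i) (f i) (w i) (c i)) →
    Concl (intAll σ v)
      (scl (VS F (fun l => σ (s l))) (fun j => σ (lam j)) (fun l => σ (nu l))) := by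
  obtain ⟨W', hW, hW1, hW'⟩ := exists_W K k W
  obtain ⟨D, hD⟩ := pk_fam hFam hPT hNF hPK (n + k) m W' κ d₀ F hF
  refine ⟨D, fun L _ _ σ v p hpi hp s hs lam nu e f w c hc hSC => ?_⟩
  obtain ⟨σ', hσ'⟩ := exists_sig σ
  have hloc := fun i => hD L σ σ' hσ' (v i) (p i) (hp i).1 (hp i).2.1 (hp i).2.2.1 (hp i).2.2.2
    s (hs i)
  have hpk := fun i => by
    haveI : Fact (p i).Prime := ⟨(hp i).1⟩
    obtain ⟨h1, h2⟩ := lam_ext (n := n) (k := k) (hp i).2.2.1 (hp i).2.2.2 hW hW1 (hSC i)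
    exact hloc i _ (e i) _ (hSC i).he h1 _ _ h2 (intAll σ v) (fun z hz => by
      obtain ⟨x, hx, rfl⟩ := hz
      exact ⟨x, hx i, rfl⟩)
  have h1 := concl_of hMix hK3 hK σ hσ' (hpk ⟨0, by omega⟩).2 hc hW' (fun i => (hp i).1) hpi hSC
    (fun i => (hpk i).1)
  have hrσ : rA.comp (MvPolynomial.eval fun l => σ' (s l)) =
      MvPolynomial.eval₂Hom rA (fun l => σ (s l)) := by
    refine MvPolynomial.ringHom_ext ?_ ?_
    · intro r
      simp
    · intro l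
      simp [hσ']
  have hVF : VF (fun t => MvPolynomial.map (MvPolynomial.eval fun l => σ' (s l)) (F t)) =
      VS F (fun l => σ (s l)) := by
    ext y
    show (∀ t, _ = _) ↔ ∀ t, _ = _
    refine forall_congr' fun t => ?_
    rw [MvPolynomial.eval₂_map, hrσ]
  rw [hVF] at h1
  exact h1

end Pool.Agent.Y92.ZX
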