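import Pool.Agent.Y92.ZX.Core
import Pool.Agent.Y226.ZM.Mix

/-!
# Information on pairs from isogenies
-/

set_option autoImplicit false
set_option linter.unusedSectionVars false

open UpperHalfPlane H294ZP Polynomial

namespace Pool.Agent.Y92.ZX

open Pool.Agent.Y226 Pool.Agent.Y226.ZG Pool.Agent.Y226.ZM

section

variable {C : Type} [NormedField C] [IsUltrametricDist C] [CompleteSpace C] [CharZero C]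
  [IsAlgClosed C] {p : ℕ} [hpf : Fact p.Prime]
  {k 𝕜 : Type} [Field k] [Field 𝕜] {n N W M d D B : ℕ} (𝓛 : LB C p k 𝕜 n N W M d D B)

theorem LB.Lam_inv' (i : Fin n) : ‖((𝓛.Λ i : Cˣ) : C)‖⁻¹ ≤ ‖(p : C)‖ := by
  rw [Lam_norm 𝓛.hp0 𝓛.hpu (𝓛.hΛ i), inv_pow, inv_inv]
  exact pow_le_of_le_one (norm_nonneg _) 𝓛.hp1.le (Nat.mul_pos (𝓛.hw i).1 𝓛.he).ne'

/-- the numbers `κ` -/
theorem LB.exists_kap : ∃ κ : Fin n → OO C, ∀ i, (p : C) * κ i * 𝓛.Λ i = 𝓛.φ (iA (cj 1)) - 0 := by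
  have hp0 := 𝓛.hp0
  have hpC : (p : C) ≠ 0 := norm_pos_iff.1 hp0
  have hΛpos : ∀ i, 0 < ‖((𝓛.Λ i : Cˣ) : C)‖ := fun i => norm_pos_iff.2 (𝓛.Λ i).ne_zero
  have hpL : ∀ i, 1 ≤ ‖(p : C) * ((𝓛.Λ i : Cˣ) : C)‖ := by
    intro i
    have h1 := 𝓛.Lam_inv' i
    rw [inv_le_iff_one_le_mul₀ (hΛpos i)] at h1
    rw [norm_mul]
    exact h1
  have hpL0 : ∀ i, (p : C) * ((𝓛.Λ i : Cˣ) : C) ≠ 0 := fun i =>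
    mul_ne_zero hpC (𝓛.Λ i).ne_zero
  refine ⟨fun i => ⟨𝓛.φ (iA (cj 1)) * ((p : C) * ((𝓛.Λ i : Cˣ) : C))⁻¹, ?_⟩, fun i => ?_⟩
  · rw [mem_OO]
    refine nmul_le (psi_norm 𝓛.φ (cj 1)) ?_
    rw [norm_inv]
    exact inv_le_one_of_one_le₀ (hpL i)
  · show (p : C) * (𝓛.φ (iA (cj 1)) * ((p : C) * ((𝓛.Λ i : Cˣ) : C))⁻¹) * 𝓛.Λ i = _
    have := hpL0 i
    have h2 := (𝓛.Λ i).ne_zero
    field_simp
    ring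

/-- a good coordinate is not integral -/
theorem LB.X_gt' {i : Fin n} {x X : C} (hX : X = 𝓛.Λ i * x) (hx : ‖x‖ = 1) : 1 < ‖X‖ := by
  have h3 := 𝓛.Lam_inv' i
  have h4 : 0 < ‖((𝓛.Λ i : Cˣ) : C)‖ := norm_pos_iff.2 (𝓛.Λ i).ne_zero
  rw [hX, norm_mul, hx, mul_one]
  rw [inv_le_iff_one_le_mul₀ h4] at h3
  have h5 := 𝓛.hp1
  by_contra hcon
  push Not at hcon
  have h6 : ‖(p : C)‖ * ‖((𝓛.Λ i : Cˣ) : C)‖ ≤ ‖(p : C)‖ * 1 := by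
    have := 𝓛.hp0
    gcongr
  linarith

/-- information on a pair from an isogeny -/
theorem LB.PB_of_rel {κ : Fin n → OO C}
    (hκ : ∀ i, (p : C) * κ i * 𝓛.Λ i = 𝓛.φ (iA (cj 1)) - 0) {X : Fin n → QA} {x : Fin n → C}
    {Y : Fin n → Cˣ} (hX : ∀ i, 𝓛.φ (X i) = 𝓛.Λ i * x i) {j l : Fin n}
    (hj : ‖x j‖ = 1) (hl : ‖x l‖ = 1) (hYj : (Y j : C) = x j) (hYl : (Y l : C) = x l)
    {τ w : ℍ} {a b c d' : ℤ}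
    (hdet : 0 < a * d' - b * c) (hw : (w : ℂ) * (c * τ + d') = a * τ + b)
    (hjτ : rA (X j) = jj τ) (hkw : rA (X l) = jj w) :
    ∃ (A B₁ g' s : ℕ) (ζ' ε : Cˣ), PB 𝓛 κ Y X j l A B₁ g' s ζ' ε ∧ A * B₁ * (g' * p ^ s) ^ 2 ≤
      (a * d' - b * c).toNat ∧ ∃ h : ℕ, 0 < h ∧
        ((A * B₁ * (g' * p ^ s) ^ 2 * h ^ 2 : ℕ) : ℤ) = a * d' - b * c := by
  have hYjn : ‖((Y j : Cˣ) : C)‖ = 1 := by rw [hYj]; exact hj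
  have hYln : ‖((Y l : Cˣ) : C)‖ = 1 := by rw [hYl]; exact hl
  obtain ⟨A, B₁, g', s, ζ', ε, h1, h2, h3, h4, h5, h6, h7, h8, h9, h10, h11, h, h12, h13⟩ :=
    pair_info3 𝓛.φ 𝓛.hp0 𝓛.hp1 𝓛.hpu 𝓛.he (𝓛.hw j).1 (𝓛.hw l).1 (𝓛.hΛ j) (𝓛.hΛ l)
      (hκ j) (hκ l) hYjn hYln (by rw [hX, hYj, add_zero]) (by rw [hX, hYl, add_zero]) hdet hw
      hjτ hkw
  refine ⟨A, B₁, g', s, ζ', ε, ⟨h1, h2, ?_, ?_, h5, h6, h7, h8, h9, h10, h11⟩, ?_, h, h12, h13⟩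
  · have h14 : A ∣ B₁ * 𝓛.w l := ⟨_, h4⟩
    exact (Nat.le_of_dvd (𝓛.hw l).1 (h3.dvd_of_dvd_mul_left h14)).trans (𝓛.hw l).2
  · have h14 : B₁ ∣ A * 𝓛.w j := ⟨_, h4.symm⟩
    exact (Nat.le_of_dvd (𝓛.hw j).1 (h3.symm.dvd_of_dvd_mul_left h14)).trans (𝓛.hw j).2
  · have h14 : A * B₁ * (g' * p ^ s) ^ 2 ≤ A * B₁ * (g' * p ^ s) ^ 2 * h ^ 2 :=
      Nat.le_mul_of_pos_right _ (pow_pos h12 2)
    refine h14.trans ?_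
    rw [← h13, Int.toNat_natCast]

end

end Pool.Agent.Y92.ZX
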