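import Pool.Agent.Y92.ZX.Stm4
import Pool.Agent.Y92.ZX.Fam

/-!
# The package at one place of a number field
-/

set_option autoImplicit false
set_option linter.unusedSectionVars false

open UpperHalfPlane H294ZP Polynomial IsDedekindDomain NumberField

namespace Pool.Agent.Y92.ZX

open Pool.Agent.Y226 Pool.Agent.Y226.ZG Pool.Agent.Y226.ZM Pool.Agent.Y226.ZU

/-- units from elements of given valuation -/
theorem nu_unit {C : Type} [NormedField C] [IsUltrametricDist C] {p : ℕ} [hpf : Fact p.Prime]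
    (hp0 : 0 < ‖(p : C)‖) {x : C} {pu : Cˣ} (m : ℤ) (hx : ‖x‖ = ‖(p : C)‖ ^ m)
    (hNr : x * (p : C) ^ (-m) ∈ Nr C p) (hpu : (pu : C) = p) :
    ∃ u : Cˣ, (u : C) = x ∧ u * pu ^ (-m) ∈ GG C p 0 le_rfl one_pos := by
  have hx0 : x ≠ 0 := norm_pos_iff.1 (by rw [hx]; exact zpow_pos hp0 _)
  refine ⟨Units.mk0 x hx0, rfl, ?_⟩
  refine GG_of_close hNr ?_ ?_
  · rw [norm_mul, norm_zpow, hx, ← zpow_add₀ hp0.ne', add_neg_cancel, zpow_zero]
  · rw [Units.val_mul, Units.val_mk0, Units.val_zpow_eq_zpow_val, hpu, sub_self, norm_zero]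

/-- the package at one place, uniformly -/
theorem pk_uni (hRe : S_RED) (hPT : S_PT) (hGM : S_GMCC) (hNF : S_NF) (hPK : S_PK)
    (n d₀ W : ℕ) : ∃ D : ℕ, ∀ (K : Type) [Field K] [NumberField K] (σ : K →+* ℂ)
    (σ' : K →+* QA), (∀ x, rA (σ' x) = σ x) →
    ∀ (v : HeightOneSpectrum (𝓞 K)) (p : ℕ), p.Prime → D < p → (p : 𝓞 K) ∈ v.asIdeal →
    (p : 𝓞 K) ∉ v.asIdeal ^ 2 → ∀ (κ : Type) (F : κ → MvPolynomial (Fin n × Bool) (𝓞 K)),
    GoodRed v d₀ F → ∀ (lam : Fin n → K) (e : ℕ) (w : Fin n → ℕ), 0 < e →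
    (∀ i, 0 < w i ∧ w i ≤ W ∧ v.valuation K (lam i) = WithZero.exp ((w i * e : ℕ) : ℤ)) →
    ∀ (nu : Fin n → K) (val : Fin n → ℤ), (∀ i, v.valuation K (nu i) = WithZero.exp (-val i)) →
    ∀ Γ : Set ℂ, Γ ⊆ intAt σ v →
    Nonempty (PK (fun P => ∀ t, MvPolynomial.eval (chv none P)
      (MvPolynomial.map (σ'.comp (algebraMap (𝓞 K) K)) (F t)) = 0) Γ W p
      (fun i => σ' (lam i)) (fun i => σ' (nu i)) val) ∧
    Gen (fun t => MvPolynomial.map (σ'.comp (algebraMap (𝓞 K) K)) (F t)) := by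
  obtain ⟨B₀, hB₀⟩ := hRe n d₀ W
  set B := B₀ + 1 with hBdef
  refine ⟨16 * B ^ 2 * B ^ 2 + (16 * B ^ 2 + 2) + (B + 2) + W + 2 * B ^ 2 +
    (B * (B + 1) + 1) + (B ^ 2 + 1), ?_⟩
  intro K _ _ σ σ' hσ' v p hp hDp hpv hpv2 κ F hF lam e w he hw nu val hnu Γ hΓ
  haveI hpf : Fact p.Prime := ⟨hp⟩
  obtain ⟨C, _, _, _, _, _, k, _, _, _, red, 𝕜, _, _, _, ρ, ι, φ, σ₁, hσ₁, hp0, hp1, hker, hρs,
    hι, hNr, hv1, hval⟩ := hNF p K σ v hpv hpv2
  obtain rfl : σ' = σ₁ := RingHom.ext fun x => rA.injective ((hσ' x).trans (hσ₁ x).symm)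
  have hle1 : ∀ x : 𝓞 K, v.valuation K (algebraMap (𝓞 K) K x) ≤ 1 := fun x =>
    v.valuation_le_one x
  -- the map to the ring of almost unramified elements
  let θ₀ : 𝓞 K →+* C := (φ.comp σ').comp (algebraMap (𝓞 K) K)
  let θ : 𝓞 K →+* Nr C p := θ₀.codRestrict (Nr C p) fun x => hNr _ (hle1 x)
  have hθ : ∀ x, ((θ x : Nr C p) : C) = φ (σ' (algebraMap (𝓞 K) K x)) := fun x => rfl
  have hρ0 : ∀ r : Nr C p, ρ r = 0 ↔ ‖(r : C)‖ < 1 := by
    intro r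
    rw [← map_eq_zero ι, hι, hker]
  have hkerπ : RingHom.ker (ρ.comp θ) = v.asIdeal := by
    ext x
    rw [RingHom.mem_ker, RingHom.comp_apply, hρ0, hθ, hv1]
  have hkerk : RingHom.ker (ι.comp (ρ.comp θ)) = v.asIdeal := by
    rw [← hkerπ]
    ext x
    rw [RingHom.mem_ker, RingHom.mem_ker, RingHom.comp_apply, map_eq_zero]
  have hGM' : GM d₀ ρ (fun t => MvPolynomial.map θ (F t)) := (hF.gm hkerπ).map
  obtain ⟨N, M, d, D, 𝓡, hN, hNB, hM, hMB, hdB, hDB, hRB, hRel⟩ := hB₀ p (by omega) 𝕜 _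
    (hGM _ _ n κ d₀ ρ _ hGM')
  obtain ⟨ht, rho, hht, hpt⟩ := hPT C p 𝕜 ρ hρs hp0 hp1 hρ0 n d₀ κ _ hGM' N W M d D 𝓡 hRel
  set pu : Cˣ := Units.mk0 (p : C) (norm_pos_iff.1 hp0) with hpu
  have hΛex : ∀ i, ∃ Λ : Cˣ, (Λ : C) = φ (σ' (lam i)) ∧
      Λ * pu ^ (w i * e) ∈ GG C p 0 le_rfl one_pos := by
    intro i
    refine Lam_unit2 hp0 (hval _ _ (hw i).2.2) ?_ rfl
    have h1 : φ (σ' (lam i)) * (p : C) ^ (w i * e) = φ (σ' (lam i * (p : K) ^ (w i * e))) := by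
      simp
    rw [h1]
    apply hNr
    rw [map_mul, map_pow, (hw i).2.2, val_p hpv hpv2, ← WithZero.exp_nsmul, ← WithZero.exp_add]
    simp
  choose Λ hΛ1 hΛ2 using hΛex
  have q1 : N ≤ B := by omega
  have q2 : M ≤ B := by omega
  have q3 : d ≤ B := by omega
  have q4 : D ≤ B := by omega
  have e1 : 16 * D ^ 2 * d ^ 2 ≤ 16 * B ^ 2 * B ^ 2 := by gcongr
  have e2 : 16 * d ^ 2 + 2 ≤ 16 * B ^ 2 + 2 := by gcongr
  have e3 : 2 * M ^ 2 ≤ 2 * B ^ 2 := by gcongr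
  have e4 : B * (D + 1) + 1 ≤ B * (B + 1) + 1 := by gcongr
  let 𝓛 : LB C p k 𝕜 n N W M d D B :=
    { φ := φ, red := red, hker := hker, hp0 := hp0, hp1 := hp1, ρ := ρ, hρs := hρs, ι := ι
      hι := hι, 𝓡 := 𝓡, h𝓡 := hRB.mono (by omega), ht := ht, hht := hht, rho := rho
      Λ := Λ, w := w, hw := fun i => ⟨(hw i).1, (hw i).2.1⟩, e := e, he := he, pu := pu
      hpu := rfl, hΛ := hΛ2
      b1 := by omega
      b2 := by omega
      b3 := by omega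
      b4 := by omega
      b5 := by omega
      b6 := by omega
      b7 := by omega
      b8 := by omega
      hB := by omega
      hN := hN
      hM := hM }
  -- the model over `QA`
  set F' : κ → MvPolynomial (Fin n × Bool) QA := fun t =>
    MvPolynomial.map (σ'.comp (algebraMap (𝓞 K) K)) (F t) with hF'
  have hgen : ∀ i j : Fin n, i ≠ j → ∃ (a b : ℕ) (g : ℕ → ℕ → QA), g 0 0 ≠ 0 ∧ g a 0 ≠ 0 ∧
      g 0 b ≠ 0 ∧ g a b ≠ 0 ∧ (∀ c : QA, ∃ v ≤ b, ∑ u ∈ Finset.range (a + 1), g u v * c ^ u ≠ 0) ∧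
      bh i j a b g ∈ Ideal.span (Set.range F') := by
    intro i j hij
    obtain ⟨a, b, g, -, -, h3, h4, h5, h6, h7, h8⟩ := hF.gen i j hij
    have hn1 : ∀ x : 𝓞 K, x ∉ v.asIdeal → ‖φ (σ' (algebraMap (𝓞 K) K x))‖ = 1 := fun x hx =>
      le_antisymm (Nr_le (hNr _ (hle1 x))) (not_lt.1 fun h => hx ((hv1 x).1 h))
    have hn0 : ∀ x : 𝓞 K, x ∉ v.asIdeal → σ' (algebraMap (𝓞 K) K x) ≠ 0 := fun x hx h0 => by
      have := hn1 x hx
      rw [h0, map_zero, norm_zero] at this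
      exact zero_ne_one this
    refine ⟨a, b, fun u v => (σ'.comp (algebraMap (𝓞 K) K)) (g u v), hn0 _ h3, hn0 _ h4,
      hn0 _ h5, hn0 _ h6, ?_, bh_span_map _ h8⟩
    refine nonvert φ red hker (fun u v => Nr_le (hNr _ (hle1 (g u v)))) (hn1 _ h6) ?_
    intro c
    obtain ⟨v', hv', hne⟩ := h7 k (ι.comp (ρ.comp θ)) hkerk c
    refine ⟨v', hv', ?_⟩
    convert hne using 3 with u hu
    exact (hι (θ (g u v'))).symm
  have hnuU : ∀ i, ∃ u : Cˣ, (u : C) = φ (σ' (nu i)) ∧ u * pu ^ (-val i) ∈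
      GG C p 0 le_rfl one_pos := by
    intro i
    refine nu_unit hp0 (hpu := rfl) (x := φ (σ' (nu i))) (val i) ?_ ?_
    · have h1 := hval _ _ (hnu i)
      rw [neg_neg] at h1
      exact h1
    · have h1 : φ (σ' (nu i)) * (p : C) ^ (-val i) = φ (σ' (nu i * (p : K) ^ (-val i))) := by
        simp
      rw [h1]
      apply hNr
      rw [map_mul, map_zpow₀, hnu i, val_p hpv hpv2, ← WithZero.exp_zsmul, ← WithZero.exp_add]
      simp
  refine ⟨hPK C p k 𝕜 n N W M d D B 𝓛 _ ?_ _ _ val (fun i => (hΛ1 i).symm) hnuU Γ ?_, hgen⟩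
  · intro s hs
    refine hpt _ fun t => ?_
    have h1 := congrArg φ (hs t)
    rw [map_zero, MvPolynomial.eval_map] at h1
    rw [MvPolynomial.eval₂_map, chv_map φ none s, ← h1]
    exact (MvPolynomial.eval₂_comp_left φ (σ'.comp (algebraMap (𝓞 K) K)) (chv none s) (F t)).symm
  · intro γ hγ
    obtain ⟨x, hx, rfl⟩ := hΓ hγ
    exact ⟨σ' x, hσ' x, Nr_le (hNr x hx)⟩

/-- the package at one place for a family -/
theorem pk_fam (hFam : S_FAM) (hPT : S_PT2) (hNF : S_NF) (hPK : S_PK)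
    (n m W : ℕ) (κ : Type) [Finite κ] (d₀ : ℕ)
    (F : κ → MvPolynomial (Fin n × Bool) (MvPolynomial (Fin m) QA))
    (hF : GM d₀ (MvPolynomial.eval (0 : Fin m → QA)) F) :
    ∃ D : ℕ, ∀ (K : Type) [Field K] [NumberField K] (σ : K →+* ℂ) (σ' : K →+* QA),
    (∀ x, rA (σ' x) = σ x) → ∀ (v : HeightOneSpectrum (𝓞 K)) (p : ℕ), p.Prime → D < p →
    (p : 𝓞 K) ∈ v.asIdeal → (p : 𝓞 K) ∉ v.asIdeal ^ 2 →
    ∀ s : Fin m → K, (∀ l, v.valuation K (s l) < 1) →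
    ∀ (lam : Fin n → K) (e : ℕ) (w : Fin n → ℕ), 0 < e →
    (∀ i, 0 < w i ∧ w i ≤ W ∧ v.valuation K (lam i) = WithZero.exp ((w i * e : ℕ) : ℤ)) →
    ∀ (nu : Fin n → K) (val : Fin n → ℤ), (∀ i, v.valuation K (nu i) = WithZero.exp (-val i)) →
    ∀ Γ : Set ℂ, Γ ⊆ intAt σ v →
    Nonempty (PK (fun P => ∀ t, MvPolynomial.eval (chv none P)
      (MvPolynomial.map (MvPolynomial.eval fun l => σ' (s l)) (F t)) = 0) Γ W p
      (fun i => σ' (lam i)) (fun i => σ' (nu i)) val) ∧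
    Gen (fun t => MvPolynomial.map (MvPolynomial.eval fun l => σ' (s l)) (F t)) := by
  classical
  obtain ⟨N, M, d, D, B₀, S₀, hN, hM, hS⟩ := hFam n m W κ d₀ F hF
  choose Dn hDn using nr_large
  set B := B₀ + N + M + d + D + 1 with hBdef
  refine ⟨16 * B ^ 2 * B ^ 2 + (16 * B ^ 2 + 2) + (B + 2) + W + 2 * B ^ 2 +
    (B * (B + 1) + 1) + (B ^ 2 + 1) + S₀.sup Dn, ?_⟩
  intro K _ _ σ σ' hσ' v p hp hDp hpv hpv2 s hs lam e w he hw nu val hnu Γ hΓ
  haveI hpf : Fact p.Prime := ⟨hp⟩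
  obtain ⟨C, _, _, _, _, _, k, _, _, _, red, 𝕜, _, _, _, ρ, ι, φ, σ₁, hσ₁, hp0, hp1, hker, hρs,
    hι, hNr, hv1, hval⟩ := hNF p K σ v hpv hpv2
  obtain rfl : σ' = σ₁ := RingHom.ext fun x => rA.injective ((hσ' x).trans (hσ₁ x).symm)
  have hρ0 : ∀ r : Nr C p, ρ r = 0 ↔ ‖(r : C)‖ < 1 := by
    intro r
    rw [← map_eq_zero ι, hι, hker]
  -- the ring of coefficients
  let R : Subring QA := (Nr C p).comap φ
  have hRS : ∀ x ∈ S₀, x ∈ R := by
    intro x hx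
    have h1 : Dn x ≤ S₀.sup Dn := Finset.le_sup hx
    exact hDn x p (by omega) C φ hp1
  obtain ⟨FR, hFR, hHom, hdat⟩ := hS R hRS
  let φR : R →+* Nr C p := (φ.comp R.subtype).codRestrict (Nr C p) fun x => x.2
  let χ : R →+* 𝕜 := ρ.comp φR
  obtain ⟨⟨𝓡, hRB, hMem⟩, hCor⟩ := hdat 𝕜 χ
  let sN : Fin m → Nr C p := fun l => ⟨φ (σ' (s l)), hNr _ (hs l).le⟩
  let sQ : Fin m → QA := fun l => σ' (s l)
  let θ : MvPolynomial (Fin m) R →+* Nr C p := MvPolynomial.eval₂Hom φR sN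
  let θQ : MvPolynomial (Fin m) R →+* QA := MvPolynomial.eval₂Hom R.subtype sQ
  have hsN : ∀ l, ρ (sN l) = 0 := by
    intro l
    rw [hρ0]
    show ‖φ (σ' (s l))‖ < 1
    by_cases h0 : s l = 0
    · rw [h0, map_zero, map_zero, norm_zero]
      exact one_pos
    · have h1 : v.valuation K (s l) ≠ 0 := (_root_.map_ne_zero _).2 h0
      obtain ⟨c, hc⟩ : ∃ c : ℤ, v.valuation K (s l) = WithZero.exp c :=
        ⟨WithZero.log (v.valuation K (s l)), (WithZero.exp_log h1).symm⟩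
      rw [hval _ _ hc]
      have h2 : c < 0 := by
        have h3 := hs l
        rw [hc, ← WithZero.exp_zero, WithZero.exp_lt_exp] at h3
        exact h3
      obtain ⟨q, rfl⟩ : ∃ q : ℕ, c = -((q : ℤ) + 1) := ⟨(-c - 1).toNat, by omega⟩
      rw [neg_neg]
      have h3 : ‖(p : C)‖ ^ ((q : ℤ) + 1) = ‖(p : C)‖ ^ (q + 1) := by
        exact_mod_cast zpow_natCast ‖(p : C)‖ (q + 1)
      rw [h3]
      exact pow_lt_one₀ (norm_nonneg _) hp1 (Nat.succ_ne_zero q)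
  have hθ0 : ρ.comp θ = χ.comp (MvPolynomial.eval (0 : Fin m → R)) := by
    refine MvPolynomial.ringHom_ext ?_ ?_
    · intro r
      simp [θ, χ]
    · intro l
      simp [θ, hsN]
  have hθφ : (Nr C p).subtype.comp θ = φ.comp θQ := by
    refine MvPolynomial.ringHom_ext ?_ ?_
    · intro r
      simp only [θ, θQ, RingHom.comp_apply, MvPolynomial.eval₂Hom_C]
      rfl
    · intro l
      simp only [θ, θQ, RingHom.comp_apply, MvPolynomial.eval₂Hom_X']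
      rfl
  have hθφ' : ∀ x, ((θ x : Nr C p) : C) = φ (θQ x) := fun x => congrArg (fun f => f x) hθφ
  have hθ0' : ∀ x, ρ (θ x) = χ (MvPolynomial.eval 0 x) := fun x => congrArg (fun f => f x) hθ0
  have hne1 : ∀ r : Nr C p, ρ r ≠ 0 → ‖(r : C)‖ = 1 := fun r hr =>
    le_antisymm (Nr_le r.2) (not_lt.1 fun h => hr ((hρ0 r).2 h))
  have hMem' : Mem ρ (fun t => MvPolynomial.map θ (FR t)) 𝓡 := by
    constructor
    · intro c i s' j hij h1 h2
      rw [chI_map, hθ0]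
      exact hMem.m1 c i s' j hij h1 h2
    · intro c v' w' h1 h2 h3 h4
      rw [chI_map, hθ0]
      exact hMem.m2 c v' w' h1 h2 h3 h4
  have hCor' : Cor ρ (fun t => MvPolynomial.map θ (FR t)) := by
    intro i j hij
    obtain ⟨a, b, g, h3, h4, h5, h6, -, h8⟩ := hCor i j hij
    exact ⟨a, b, fun u v => θ (g u v), by rw [hθ0']; exact h3, by rw [hθ0']; exact h4,
      by rw [hθ0']; exact h5, by rw [hθ0']; exact h6, bh_span_map θ h8⟩
  obtain ⟨ht, rho, hht, hpt⟩ := hPT C p 𝕜 ρ hρs hp0 hp1 hρ0 n κ _ (fun t => (hHom t).map θ)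
    hCor' N W M d D 𝓡 hMem'
  set pu : Cˣ := Units.mk0 (p : C) (norm_pos_iff.1 hp0) with hpu
  have hΛex : ∀ i, ∃ Λ : Cˣ, (Λ : C) = φ (σ' (lam i)) ∧
      Λ * pu ^ (w i * e) ∈ GG C p 0 le_rfl one_pos := by
    intro i
    refine Lam_unit2 hp0 (hval _ _ (hw i).2.2) ?_ rfl
    have h1 : φ (σ' (lam i)) * (p : C) ^ (w i * e) = φ (σ' (lam i * (p : K) ^ (w i * e))) := by
      simp
    rw [h1]
    apply hNr
    rw [map_mul, map_pow, (hw i).2.2, val_p hpv hpv2, ← WithZero.exp_nsmul, ← WithZero.exp_add]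
    simp
  choose Λ hΛ1 hΛ2 using hΛex
  have q1 : N ≤ B := by omega
  have q2 : M ≤ B := by omega
  have q3 : d ≤ B := by omega
  have q4 : D ≤ B := by omega
  have e1 : 16 * D ^ 2 * d ^ 2 ≤ 16 * B ^ 2 * B ^ 2 := by gcongr
  have e2 : 16 * d ^ 2 + 2 ≤ 16 * B ^ 2 + 2 := by gcongr
  have e3 : 2 * M ^ 2 ≤ 2 * B ^ 2 := by gcongr
  have e4 : B * (D + 1) + 1 ≤ B * (B + 1) + 1 := by gcongr
  let 𝓛 : LB C p k 𝕜 n N W M d D B :=
    { φ := φ, red := red, hker := hker, hp0 := hp0, hp1 := hp1, ρ := ρ, hρs := hρs, ι := ι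
      hι := hι, 𝓡 := 𝓡, h𝓡 := hRB.mono (by omega), ht := ht, hht := hht, rho := rho
      Λ := Λ, w := w, hw := fun i => ⟨(hw i).1, (hw i).2.1⟩, e := e, he := he, pu := pu
      hpu := rfl, hΛ := hΛ2
      b1 := by omega
      b2 := by omega
      b3 := by omega
      b4 := by omega
      b5 := by omega
      b6 := by omega
      b7 := by omega
      b8 := by omega
      hB := by omega
      hN := hN
      hM := hM }
  -- the model over `QA`
  set F' : κ → MvPolynomial (Fin n × Bool) QA := fun t =>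
    MvPolynomial.map (MvPolynomial.eval sQ) (F t) with hF'
  have hF'R : ∀ t, F' t = MvPolynomial.map θQ (FR t) := by
    intro t
    show MvPolynomial.map (MvPolynomial.eval sQ) (F t) = _
    rw [← hFR t, MvPolynomial.map_map]
    congr 1
    refine MvPolynomial.ringHom_ext ?_ ?_
    · intro r
      simp [θQ]
    · intro l
      simp [θQ]
  have hgen : ∀ i j : Fin n, i ≠ j → ∃ (a b : ℕ) (g : ℕ → ℕ → QA), g 0 0 ≠ 0 ∧ g a 0 ≠ 0 ∧
      g 0 b ≠ 0 ∧ g a b ≠ 0 ∧ (∀ c : QA, ∃ v ≤ b, ∑ u ∈ Finset.range (a + 1), g u v * c ^ u ≠ 0) ∧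
      bh i j a b g ∈ Ideal.span (Set.range F') := by
    intro i j hij
    obtain ⟨a, b, g, h3, h4, h5, h6, h7, h8⟩ := (hdat k (ι.comp χ)).2 i j hij
    have hn1 : ∀ x : MvPolynomial (Fin m) R, (ι.comp χ) (MvPolynomial.eval 0 x) ≠ 0 →
        ‖φ (θQ x)‖ = 1 := by
      intro x hx
      rw [← hθφ']
      apply hne1
      rw [hθ0']
      intro h0
      apply hx
      rw [RingHom.comp_apply, h0, map_zero]
    have hn0 : ∀ x : MvPolynomial (Fin m) R, (ι.comp χ) (MvPolynomial.eval 0 x) ≠ 0 →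
        θQ x ≠ 0 := fun x hx h0 => by
      have := hn1 x hx
      rw [h0, map_zero, norm_zero] at this
      exact zero_ne_one this
    refine ⟨a, b, fun u v => θQ (g u v), hn0 _ h3, hn0 _ h4, hn0 _ h5, hn0 _ h6, ?_, ?_⟩
    · refine nonvert φ red hker (fun u v => by rw [← hθφ']; exact Nr_le (θ (g u v)).2)
        (hn1 _ h6) ?_
      intro c
      obtain ⟨v', hv', hne⟩ := h7 c
      refine ⟨v', hv', ?_⟩
      convert hne using 3 with u hu
      have h9 : (⟨φ (θQ (g u v')), by rw [← hθφ']; exact Nr_le (θ (g u v')).2⟩ : OO C) =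
          ⟨((θ (g u v') : Nr C p) : C), Nr_le (θ (g u v')).2⟩ := Subtype.ext (hθφ' _).symm
      rw [h9, ← hι, hθ0']
      rfl
    · have h9 : F' = fun t => MvPolynomial.map θQ (FR t) := funext hF'R
      rw [h9]
      exact bh_span_map θQ h8
  have hnuU : ∀ i, ∃ u : Cˣ, (u : C) = φ (σ' (nu i)) ∧ u * pu ^ (-val i) ∈
      GG C p 0 le_rfl one_pos := by
    intro i
    refine nu_unit hp0 (hpu := rfl) (x := φ (σ' (nu i))) (val i) ?_ ?_
    · have h1 := hval _ _ (hnu i)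
      rw [neg_neg] at h1
      exact h1
    · have h1 : φ (σ' (nu i)) * (p : C) ^ (-val i) = φ (σ' (nu i * (p : K) ^ (-val i))) := by
        simp
      rw [h1]
      apply hNr
      rw [map_mul, map_zpow₀, hnu i, val_p hpv hpv2, ← WithZero.exp_zsmul, ← WithZero.exp_add]
      simp
  refine ⟨hPK C p k 𝕜 n N W M d D B 𝓛 _ ?_ _ _ val (fun i => (hΛ1 i).symm) hnuU Γ ?_, hgen⟩
  · intro s' hs'
    refine hpt _ fun t => ?_
    have h1 := congrArg φ (hs' t)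
    have hF'R' : MvPolynomial.map (MvPolynomial.eval fun l => σ' (s l)) (F t) =
      MvPolynomial.map θQ (FR t) := hF'R t
    rw [map_zero, hF'R', MvPolynomial.eval_map] at h1
    rw [MvPolynomial.eval₂_map, chv_map φ none s', ← h1, hθφ]
    exact (MvPolynomial.eval₂_comp_left φ θQ (chv none s') (FR t)).symm
  · intro γ hγ
    obtain ⟨x, hx, rfl⟩ := hΓ hγ
    exact ⟨σ' x, hσ' x, Nr_le (hNr x hx)⟩

end Pool.Agent.Y92.ZX
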