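import Pool.Agent.Y226.ZU.Facts
import Pool.Agent.Y226.ZU.NF

/-!
# Project ZX: curves with good reduction at one large place

All block statements of the project (`S_...`). The proofs are in other files.
-/

set_option autoImplicit false
set_option linter.unusedSectionVars false

open UpperHalfPlane H294ZP Polynomial IsDedekindDomain NumberField

namespace Pool.Agent.Y92.ZX

open Pool.Agent.Y226 Pool.Agent.Y226.ZG Pool.Agent.Y226.ZM Pool.Agent.Y226.ZU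

/-! ### curves over algebraically closed fields -/

/-- An irreducible curve in general position over a field, given by its ideal. -/
structure CC {𝕜 : Type} [Field 𝕜] {n : ℕ} (d₀ : ℕ) (I : Ideal (MvPolynomial (Fin n) 𝕜)) :
    Prop where
  prime : I.IsPrime
  const : ∀ (i : Fin n) (c : 𝕜), MvPolynomial.X i - MvPolynomial.C c ∉ I
  gen : ∀ i j : Fin n, i ≠ j → ∃ (a b : ℕ) (g : ℕ → ℕ → 𝕜), a ≤ d₀ ∧ b ≤ d₀ ∧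
    g 0 0 ≠ 0 ∧ g a 0 ≠ 0 ∧ g 0 b ≠ 0 ∧ g a b ≠ 0 ∧
    ∑ u ∈ Finset.range (a + 1), ∑ v ∈ Finset.range (b + 1),
      MvPolynomial.C (g u v) * MvPolynomial.X i ^ u * MvPolynomial.X j ^ v ∈ I

/-- Block UL: transfer to characteristic zero by ultraproducts. -/
def S_UL : Prop := ∀ (n d₀ : ℕ) (𝕜 : ℕ → Type) [∀ m, Field (𝕜 m)] [∀ m, IsAlgClosed (𝕜 m)]
  (pp : ℕ → ℕ) [∀ m, CharP (𝕜 m) (pp m)], (∀ m, m < pp m) → (∀ m, (pp m).Prime) →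
  ∀ (I : ∀ m, Ideal (MvPolynomial (Fin n) (𝕜 m))), (∀ m, CC d₀ (I m)) →
  ∃ (𝒦 : Type) (_ : Field 𝒦) (_ : IsAlgClosed 𝒦) (_ : CharZero 𝒦)
    (J : Ideal (MvPolynomial (Fin n) 𝒦)), CC d₀ J ∧
    ∀ S₀ : Finset 𝒦, ∃ R : Subring 𝒦, (∀ s ∈ S₀, s ∈ R) ∧
      ∀ Ps : Set (MvPolynomial (Fin n) R), Ps.Finite →
        (∀ P ∈ Ps, MvPolynomial.map R.subtype P ∈ J) →
        ∀ m₀ : ℕ, ∃ m, m₀ ≤ m ∧ ∃ χ : R →+* 𝕜 m, ∀ P ∈ Ps, MvPolynomial.map χ P ∈ I m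

/-- additional bounds for the integral model `RD` -/
structure RDB {R : Type} [CommRing R] {n N W M d D : ℕ} (𝓡 : RD R n N W M d D) (B : ℕ) :
    Prop where
  card : ∀ i s j, i ≠ j → Multiset.card (𝓡.ys i s j) ≤ B
  br : ∀ i s j k, i ≠ j → i ≠ k → j ≠ k → ∀ y ∈ 𝓡.ys i s j, ∀ y' ∈ 𝓡.ys i s k, ∀ A, A ≤ W →
    ∀ B', B' ≤ W → 0 < B' →
    (∃ m, m ≤ B ∧ IsUnit (PowerSeries.coeff m (E2 (PowerSeries.C (R := R)) (y : PowerSeries R)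
      (y' : PowerSeries R) (𝓡.g j false k))) ∧ ∀ m' < m, PowerSeries.coeff m'
        (E2 (PowerSeries.C (R := R)) (y : PowerSeries R) (y' : PowerSeries R)
          (𝓡.g j false k)) = 0) ∨
    (∃ m, 0 < m ∧ m ≤ D ∧ IsUnit (PowerSeries.coeff m ((y' : PowerSeries R) ^ B' *
      ((y⁻¹ : (PowerSeries R)ˣ) : PowerSeries R) ^ A)))

/-- the relations hold at all zeros of `I` with nonzero coordinates -/
def Rels {𝕜 : Type} [Field 𝕜] {n N W M d D : ℕ} (𝓡 : RD 𝕜 n N W M d D)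
    (I : Ideal (MvPolynomial (Fin n) 𝕜)) : Prop :=
  ∀ (𝔽 : Type) [Field 𝔽] [Algebra 𝕜 𝔽] (x : Fin n → 𝔽),
    (∀ f ∈ I, MvPolynomial.aeval x f = 0) → (∀ i, x i ≠ 0) →
    (∀ i s j, i ≠ j → E2 (algebraMap 𝕜 𝔽) (xs x i s) (x j) (𝓡.g i s j) = 0) ∧
    ∀ v w, Bv M v → Bv M w → LI v w →
      E2 (algebraMap 𝕜 𝔽) (∏ i, x i ^ v i) (∏ i, x i ^ w i) (𝓡.h v w) = 0

/-- Block RED: the data for all curves of bounded degree in large characteristic. -/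
def S_RED : Prop := ∀ (n d₀ W : ℕ), ∃ B : ℕ, ∀ (p : ℕ) [Fact p.Prime], B < p →
  ∀ (𝕜 : Type) [Field 𝕜] [IsAlgClosed 𝕜] [CharP 𝕜 p] (I : Ideal (MvPolynomial (Fin n) 𝕜)),
    CC d₀ I → ∃ (N M d D : ℕ) (𝓡 : RD 𝕜 n N W M d D), 0 < N ∧ N ≤ B ∧ W * N + W ≤ M ∧
      M ≤ B ∧ d ≤ B ∧ D ≤ B ∧ RDB 𝓡 B ∧ Rels 𝓡 I

/-! ### local data -/

/-- The local data. `C` is the field, `k` its residue field, `𝕜` the residue field of the ring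
`Nr C p` of almost unramified elements. -/
structure LB (C : Type) [NormedField C] [IsUltrametricDist C] (p : ℕ) [Fact p.Prime] (k 𝕜 : Type)
    [Field k] [Field 𝕜] (n N W M d D B : ℕ) where
  φ : QA →+* C
  red : OO C →+* k
  hker : ∀ x : OO C, red x = 0 ↔ ‖(x : C)‖ < 1
  hp0 : 0 < ‖(p : C)‖
  hp1 : ‖(p : C)‖ < 1
  ρ : Nr C p →+* 𝕜
  hρs : Function.Surjective ρ
  ι : 𝕜 →+* k
  hι : ∀ r : Nr C p, ι (ρ r) = red ⟨r, Nr_le r.2⟩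
  𝓡 : RD 𝕜 n N W M d D
  h𝓡 : RDB 𝓡 B
  ht : (Fin n → ℤ) → (Fin n → ℤ) → (Nr C p)[X][X]
  hht : ∀ v w, Bv M v → Bv M w → LI v w →
    (ht v w).map (mapRingHom ρ) = 𝓡.h v w ∧ BD d (ht v w)
  rho : (Fin n → ℤ) → (Fin n → ℤ) → MvPolynomial (Fin n × Bool) (OO C)
  Λ : Fin n → Cˣ
  w : Fin n → ℕ
  hw : ∀ i, 0 < w i ∧ w i ≤ W
  e : ℕ
  he : 0 < e
  pu : Cˣ
  hpu : (pu : C) = p
  hΛ : ∀ i, Λ i * pu ^ (w i * e) ∈ GG C p 0 le_rfl one_pos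
  b1 : 16 * D ^ 2 * d ^ 2 < p
  b2 : 16 * d ^ 2 + 2 < p
  b3 : N + 2 < p
  b4 : D + 2 < p
  b5 : W < p
  b6 : 2 * M ^ 2 < p
  b7 : B * (D + 1) + 1 < p
  b8 : B ^ 2 + 1 < p
  hB : 0 < B
  hN : 0 < N
  hM : W * N + W ≤ M

/-- The approximate relations at a point. -/
structure PtA {C : Type} [NormedField C] [IsUltrametricDist C] {p : ℕ} [Fact p.Prime]
    {𝕜 : Type} [Field 𝕜] {n N W M d D : ℕ} (ρ : Nr C p →+* 𝕜) (𝓡 : RD 𝕜 n N W M d D)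
    (ht : (Fin n → ℤ) → (Fin n → ℤ) → (Nr C p)[X][X])
    (rho : (Fin n → ℤ) → (Fin n → ℤ) → MvPolynomial (Fin n × Bool) (OO C)) (x : Fin n → C) :
    Prop where
  ob : ∀ i j, i ≠ j → ‖x i‖ = 1 ∨ ‖x j‖ = 1
  r1 : ∀ (i : Fin n) (s : Bool) (j : Fin n), i ≠ j →
    (s = false ∧ ‖x i‖ ≤ 1 ∨ s = true ∧ 1 < ‖x i‖) → ‖x j‖ ≤ 1 →
    ∀ g' : (Nr C p)[X][X], g'.map (mapRingHom ρ) = 𝓡.g i s j →
      ‖E2 (Nr C p).subtype (xs x i s) (x j) g'‖ ≤ ‖(p : C)‖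
  r2 : ∀ v w, Bv M v → Bv M w → LI v w → (∀ i, v i ≠ 0 ∨ w i ≠ 0 → ‖x i‖ = 1) →
    ‖E2 (Nr C p).subtype (∏ i, x i ^ v i) (∏ i, x i ^ w i) (ht v w)‖ ≤ ‖(p : C)‖
  r3 : ∀ v w, Bv M v → Bv M w → LI v w → (∀ i, ‖x i‖ = 1) →
    E2 (Nr C p).subtype (∏ i, x i ^ v i) (∏ i, x i ^ w i) (ht v w) =
      p * MvPolynomial.eval₂ (OO C).subtype (xx x) (rho v w)

/-- the points of the curve -/
def LB.Pt {C : Type} [NormedField C] [IsUltrametricDist C] {p : ℕ} [Fact p.Prime] {k 𝕜 : Type}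
    [Field k] [Field 𝕜] {n N W M d D B : ℕ} (𝓛 : LB C p k 𝕜 n N W M d D B) (x : Fin n → C) :
    Prop :=
  PtA 𝓛.ρ 𝓛.𝓡 𝓛.ht 𝓛.rho x

/-- Block ROOT: near a zero or a pole of a coordinate the other coordinates are almost given by
power series. -/
def S_ROOT : Prop := ∀ (C : Type) [NormedField C] [IsUltrametricDist C] [CompleteSpace C]
  [IsAlgClosed C] (p : ℕ) [Fact p.Prime] (k 𝕜 : Type) [Field k] [Field 𝕜]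
  (n N W M d D B : ℕ) (𝓛 : LB C p k 𝕜 n N W M d D B) (x : Fin n → C), 𝓛.Pt x →
  ∀ a : Fin n, ‖x a‖ ≠ 1 →
  ∃ (s : Bool) (z : C) (e : PowerSeries (Nr C p) →+* C), ‖z‖ < 1 ∧
    (∀ r : Nr C p, e (PowerSeries.C r) = (r : C)) ∧ e PowerSeries.X = z ∧ (∀ F, ‖e F‖ ≤ 1) ∧
    ((‖x a‖ < 1 ∧ s = false ∧ z ^ N = x a) ∨ (1 < ‖x a‖ ∧ s = true ∧ z ^ N = (x a)⁻¹)) ∧
    ∀ j, j ≠ a → ∃ y ∈ 𝓛.𝓡.ys a s j, ∃ y' : (PowerSeries (Nr C p))ˣ,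
      PowerSeries.map 𝓛.ρ (y' : PowerSeries (Nr C p)) = (y : PowerSeries 𝕜) ∧
      ‖x j - e (y' : PowerSeries (Nr C p))‖ ^ B ≤ ‖(p : C)‖

/-- Block WILD (1): no wild torsion for two distinct pairs. -/
def S_WILD : Prop := ∀ (C : Type) [NormedField C] [IsUltrametricDist C] (p : ℕ) [Fact p.Prime]
  (k 𝕜 : Type) [Field k] [Field 𝕜] (n N W M d D B : ℕ) (𝓛 : LB C p k 𝕜 n N W M d D B)
  (x : Fin n → C), 𝓛.Pt x →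
  ∀ (Y : Fin n → Cˣ) (j l j' l' : Fin n),
    (Y j : C) = x j → (Y l : C) = x l → (Y j' : C) = x j' → (Y l' : C) = x l' →
    ‖x j‖ = 1 → ‖x l‖ = 1 → ‖x j'‖ = 1 → ‖x l'‖ = 1 → j ≠ l → j' ≠ l' →
    ¬ ((j' = j ∧ l' = l) ∨ (j' = l ∧ l' = j)) →
    ∀ A B₁ A' B₁' : ℕ, 0 < A → 0 < B₁ → 0 < B₁' → A ≤ W → B₁ ≤ W → A' ≤ W → B₁' ≤ W →
    ∀ (ε₁ ε₂ : Cˣ) (s : ℕ), IsPrimitiveRoot (ε₁ : C) (p ^ (s + 1)) →
      (ε₂ : C) ^ p ^ (s + 1) = 1 →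
      (Y l ^ B₁ * (Y j ^ A)⁻¹) * ε₁ ∈ GG C p ‖(p : C)‖ (norm_nonneg _) 𝓛.hp1 →
      (Y l' ^ B₁' * (Y j' ^ A')⁻¹) * ε₂ ∈ GG C p ‖(p : C)‖ (norm_nonneg _) 𝓛.hp1 → False

/-- Block WILD (2): no wild torsion when a coordinate is singular. -/
def S_WILDCM : Prop := ∀ (C : Type) [NormedField C] [IsUltrametricDist C] (p : ℕ) [Fact p.Prime]
  (k 𝕜 : Type) [Field k] [Field 𝕜] (n N W M d D B : ℕ) (𝓛 : LB C p k 𝕜 n N W M d D B)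
  (Y : Fin n → Cˣ) (j l : Fin n) (z : C) (e : PowerSeries (Nr C p) →+* C), ‖z‖ < 1 →
    (∀ r : Nr C p, e (PowerSeries.C r) = (r : C)) → e PowerSeries.X = z → (∀ F, ‖e F‖ ≤ 1) →
    ‖z‖ ^ N ≤ ‖(p : C)‖ → ∀ y y' : (PowerSeries (Nr C p))ˣ,
    ‖(Y j : C) - e (y : PowerSeries (Nr C p))‖ ^ B ≤ ‖(p : C)‖ →
    ‖(Y l : C) - e (y' : PowerSeries (Nr C p))‖ ^ B ≤ ‖(p : C)‖ →
    ∀ (A B₁ : ℕ) (ε : Cˣ) (s : ℕ), IsPrimitiveRoot (ε : C) (p ^ (s + 1)) →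
      (Y l ^ B₁ * (Y j ^ A)⁻¹) * ε ∈ GG C p ‖(p : C)‖ (norm_nonneg _) 𝓛.hp1 → False

/-- Block EXC: wild torsion when a bad coordinate is related to a good one. -/
def S_EXC : Prop := ∀ (C : Type) [NormedField C] [IsUltrametricDist C] [CompleteSpace C]
  [CharZero C] [IsAlgClosed C] (p : ℕ) [Fact p.Prime] (k 𝕜 : Type) [Field k] [Field 𝕜]
  (n N W M d D B : ℕ) (𝓛 : LB C p k 𝕜 n N W M d D B) (x : Fin n → C), 𝓛.Pt x →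
  ∀ (Y : Fin n → Cˣ) (X : Fin n → QA), (∀ i, 𝓛.φ (X i) = 𝓛.Λ i * x i) →
  ∀ (a : Fin n) (s : Bool) (z : C) (e : PowerSeries (Nr C p) →+* C), ‖z‖ < 1 →
    (∀ r : Nr C p, e (PowerSeries.C r) = (r : C)) → e PowerSeries.X = z → (∀ F, ‖e F‖ ≤ 1) →
    ((‖x a‖ < 1 ∧ s = false ∧ z ^ N = x a) ∨ (1 < ‖x a‖ ∧ s = true ∧ z ^ N = (x a)⁻¹)) →
    ‖(p : C)‖ < ‖z‖ ^ N → ∀ j l m : Fin n, j ≠ a → l ≠ a → m ≠ a → j ≠ l →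
    ∀ (y y' y'' : (PowerSeries 𝕜)ˣ), y ∈ 𝓛.𝓡.ys a s j → y' ∈ 𝓛.𝓡.ys a s l →
      y'' ∈ 𝓛.𝓡.ys a s m → ∀ (u u' u'' : (PowerSeries (Nr C p))ˣ),
    PowerSeries.map 𝓛.ρ (u : PowerSeries (Nr C p)) = (y : PowerSeries 𝕜) →
    PowerSeries.map 𝓛.ρ (u' : PowerSeries (Nr C p)) = (y' : PowerSeries 𝕜) →
    PowerSeries.map 𝓛.ρ (u'' : PowerSeries (Nr C p)) = (y'' : PowerSeries 𝕜) →
    ‖x j - e (u : PowerSeries (Nr C p))‖ ^ B ≤ ‖(p : C)‖ →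
    ‖x l - e (u' : PowerSeries (Nr C p))‖ ^ B ≤ ‖(p : C)‖ →
    ‖x m - e (u'' : PowerSeries (Nr C p))‖ ^ B ≤ ‖(p : C)‖ →
    (Y j : C) = x j → (Y l : C) = x l → (Y m : C) = x m → ‖x j‖ = 1 → ‖x l‖ = 1 → ‖x m‖ = 1 →
    ∀ A B₁ : ℕ, 0 < A → 0 < B₁ → A ≤ W → B₁ ≤ W → ∀ (ε : Cˣ) (t : ℕ),
      IsPrimitiveRoot (ε : C) (p ^ (t + 1)) →
      (Y l ^ B₁ * (Y j ^ A)⁻¹) * ε ∈ GG C p ‖(p : C)‖ (norm_nonneg _) 𝓛.hp1 →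
    ∀ (τ w : ℍ) (a₁ b₁ c₁ d₁ : ℤ), 0 < a₁ * d₁ - b₁ * c₁ →
      (w : ℂ) * (c₁ * τ + d₁) = a₁ * τ + b₁ → rA (X m) = jj τ → rA (X a) = jj w → t ≤ 1

/-- Block TAME: the tame solutions for two pairs. -/
def S_TAME : Prop := ∀ (C : Type) [NormedField C] [IsUltrametricDist C] [CharZero C]
  [IsAlgClosed C] (p : ℕ) [Fact p.Prime] (k 𝕜 : Type) [Field k] [CharP k p] [IsAlgClosed k]
  [Field 𝕜] (n N W M d D B : ℕ) (𝓛 : LB C p k 𝕜 n N W M d D B) (κ : Fin n → OO C)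
  (j l j' l' : Fin n) (A B₁ A' B₁' : ℕ), j ≠ l → j' ≠ l' →
    ¬ ((j' = j ∧ l' = l) ∨ (j' = l ∧ l' = j)) → 0 < A → 0 < B₁ → 0 < B₁' →
    A ≤ W → B₁ ≤ W → A' ≤ W → B₁' ≤ W →
    𝓛.Λ l ^ B₁ * (𝓛.Λ j ^ A)⁻¹ ∈ GG C p 0 le_rfl one_pos →
    𝓛.Λ l' ^ B₁' * (𝓛.Λ j' ^ A')⁻¹ ∈ GG C p 0 le_rfl one_pos →
    ∃ T : Set (Fin n → k), T.Finite ∧ ∀ (x : Fin n → C), 𝓛.Pt x → ∀ (xO : Fin n → OO C)
      (Y : Fin n → Cˣ), (∀ i, (xO i : C) = x i) → (∀ i, (Y i : C) = xO i) →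
      (∀ i, ‖(xO i : C)‖ = 1) →
      ∀ (ζ ζ' : Cˣ) (f f' : ℕ), 0 < f → (ζ : C) ^ p ^ f = ζ → 0 < f' → (ζ' : C) ^ p ^ f' = ζ' →
      ‖((𝓛.Λ l ^ B₁ * (𝓛.Λ j ^ A)⁻¹ * (Y l ^ B₁ * (Y j ^ A)⁻¹) * ζ : Cˣ) : C) -
        (1 + p * (B₁ * (κ l * ((Y l : Cˣ) : C)⁻¹) - A * (κ j * ((Y j : Cˣ) : C)⁻¹)))‖ ≤
          ‖(p : C)‖ ^ 2 →
      ‖((𝓛.Λ l' ^ B₁' * (𝓛.Λ j' ^ A')⁻¹ * (Y l' ^ B₁' * (Y j' ^ A')⁻¹) * ζ' : Cˣ) : C) -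
        (1 + p * (B₁' * (κ l' * ((Y l' : Cˣ) : C)⁻¹) -
          A' * (κ j' * ((Y j' : Cˣ) : C)⁻¹)))‖ ≤ ‖(p : C)‖ ^ 2 →
      (fun i => 𝓛.red (xO i)) ∈ T

/-- information on a pair of coordinates -/
structure PB {C : Type} [NormedField C] [IsUltrametricDist C] {p : ℕ} [hpf : Fact p.Prime]
    {k 𝕜 : Type} [Field k] [Field 𝕜] {n N W M d D B : ℕ} (𝓛 : LB C p k 𝕜 n N W M d D B)
    (κ : Fin n → OO C) (Y : Fin n → Cˣ) (X : Fin n → QA) (j l : Fin n) (A B₁ g' s : ℕ)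
    (ζ' ε : Cˣ) : Prop where
  hA : 0 < A
  hB : 0 < B₁
  hAW : A ≤ W
  hBW : B₁ ≤ W
  hg : 0 < g'
  hcop : g'.Coprime p
  hζ : IsPrimitiveRoot (ζ' : C) g'
  hε : IsPrimitiveRoot (ε : C) (p ^ s)
  hμ : 𝓛.Λ l ^ B₁ * (𝓛.Λ j ^ A)⁻¹ ∈ GG C p 0 le_rfl one_pos
  hexp : ‖((𝓛.Λ l ^ B₁ * (𝓛.Λ j ^ A)⁻¹ * (Y l ^ B₁ * (Y j ^ A)⁻¹) * (ζ' * ε) : Cˣ) : C) -
        (1 + p * (B₁ * (κ l * ((Y l : Cˣ) : C)⁻¹) - A * (κ j * ((Y j : Cˣ) : C)⁻¹)))‖ ≤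
          ‖(p : C)‖ ^ 2
  hrel : PsiE ιZ (mP (A * B₁ * (g' * p ^ s) ^ 2)) (mD (A * B₁ * (g' * p ^ s) ^ 2))
    (rA (X j)) (rA (X l)) = 0

/-- Block ORD: the order of the tame part is bounded when the residues are in a finite set. -/
def S_ORD : Prop := ∀ (C : Type) [NormedField C] [IsUltrametricDist C] [CharZero C]
  (p : ℕ) [Fact p.Prime] (k 𝕜 : Type) [Field k] [Field 𝕜] (n N W M d D B : ℕ)
  (𝓛 : LB C p k 𝕜 n N W M d D B) (S : Set k), S.Finite → ∃ G : ℕ,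
    ∀ (κ : Fin n → OO C) (Y : Fin n → Cˣ) (X : Fin n → QA) (j l : Fin n) (A B₁ g' s : ℕ)
    (ζ' ε : Cˣ), PB 𝓛 κ Y X j l A B₁ g' s ζ' ε →
    ∀ uj ul : OO C, (uj : C) = Y j → (ul : C) = Y l →
    ‖((Y j : Cˣ) : C)‖ = 1 → ‖((Y l : Cˣ) : C)‖ = 1 → 𝓛.red uj ∈ S → 𝓛.red ul ∈ S → g' ≤ G

/-- Block CORE: the local theorem. -/
def S_CORE : Prop := ∀ (C : Type) [NormedField C] [IsUltrametricDist C] [CompleteSpace C]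
  [CharZero C] [IsAlgClosed C] (p : ℕ) [Fact p.Prime] (k 𝕜 : Type) [Field k] [CharP k p]
  [IsAlgClosed k] [Field 𝕜] (n N W M d D B : ℕ) (𝓛 : LB C p k 𝕜 n N W M d D B), ∃ G : ℕ,
    ∀ (X : Fin n → QA) (x : Fin n → C), 𝓛.Pt x → (∀ i, 𝓛.φ (X i) = 𝓛.Λ i * x i) →
    ∀ (r : ℕ) (cls : Fin n → Option (Fin r)), r + 2 ≤ n →
    (∀ i, cls i = none → ‖𝓛.φ (X i)‖ ≤ 1) →
    (∀ j l c, j ≠ l → cls j = some c → cls l = some c → ∃ (w w' : ℍ) (a b c' d' : ℤ),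
      0 < a * d' - b * c' ∧ (w' : ℂ) * (c' * w + d') = a * w + b ∧ rA (X j) = jj w ∧
      rA (X l) = jj w') → ∃ j l : Fin n, j ≠ l ∧
      ∃ N' : ℕ, 0 < N' ∧ N' ≤ G ∧ PsiE ιZ (mP N') (mD N') (rA (X j)) (rA (X l)) = 0

/-! ### models in `(P¹)^n` -/

/-- the homogeneous coordinates of a point in the chart `a` (`X_a = 1`, the other `Z_i = 1`) -/
def chv {A : Type} [CommRing A] {n : ℕ} (a : Option (Fin n)) (y : Fin n → A)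
    (q : Fin n × Bool) : A :=
  if a = some q.1 then (if q.2 then y q.1 else 1) else (if q.2 then 1 else y q.1)

/-- forms which are homogeneous in each pair of variables `(X_i, Z_i) = ((i, false), (i, true))` -/
def MHom {A : Type} [CommRing A] {n : ℕ} (F : MvPolynomial (Fin n × Bool) A) : Prop :=
  ∃ δ : Fin n → ℕ, ∀ m ∈ F.support, ∀ i, m (i, false) + m (i, true) = δ i

/-- the ideal of the reduction in the chart `a` -/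
noncomputable def chI {A 𝕜 : Type} [CommRing A] [Field 𝕜] {n : ℕ} {κ : Type} (π : A →+* 𝕜)
    (F : κ → MvPolynomial (Fin n × Bool) A) (a : Option (Fin n)) :
    Ideal (MvPolynomial (Fin n) 𝕜) :=
  Ideal.span (Set.range fun t =>
    MvPolynomial.eval₂ (MvPolynomial.C.comp π) (chv a MvPolynomial.X) (F t))

/-- the form `∑ g_uv X_i^u Z_i^(a-u) X_j^v Z_j^(b-v)` -/
noncomputable def bh {A : Type} [CommRing A] {n : ℕ} (i j : Fin n) (a b : ℕ) (g : ℕ → ℕ → A) :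
    MvPolynomial (Fin n × Bool) A :=
  ∑ u ∈ Finset.range (a + 1), ∑ v ∈ Finset.range (b + 1),
    MvPolynomial.C (g u v) * MvPolynomial.X (i, false) ^ u * MvPolynomial.X (i, true) ^ (a - u) *
      MvPolynomial.X (j, false) ^ v * MvPolynomial.X (j, true) ^ (b - v)

/-- A model of a curve with good reduction. -/
structure GM {A 𝕜 : Type} [CommRing A] [Field 𝕜] {n : ℕ} {κ : Type} (d₀ : ℕ) (π : A →+* 𝕜)
    (F : κ → MvPolynomial (Fin n × Bool) A) : Prop where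
  hom : ∀ t, MHom (F t)
  prime : ∀ a, (chI π F a).IsPrime
  const : ∀ (i : Fin n) (c : 𝕜), MvPolynomial.X i - MvPolynomial.C c ∉ chI π F none
  gen : ∀ i j : Fin n, i ≠ j → ∃ (a b : ℕ) (g : ℕ → ℕ → A), a ≤ d₀ ∧ b ≤ d₀ ∧
    π (g 0 0) ≠ 0 ∧ π (g a 0) ≠ 0 ∧ π (g 0 b) ≠ 0 ∧ π (g a b) ≠ 0 ∧
    (∀ c : 𝕜, ∃ v ≤ b, ∑ u ∈ Finset.range (a + 1), π (g u v) * c ^ u ≠ 0) ∧
    bh i j a b g ∈ Ideal.span (Set.range F)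

/-- Block GMCC: the reduction is a curve in general position. -/
def S_GMCC : Prop := ∀ (A 𝕜 : Type) [CommRing A] [Field 𝕜] (n : ℕ) (κ : Type) (d₀ : ℕ)
  (π : A →+* 𝕜) (F : κ → MvPolynomial (Fin n × Bool) A), GM d₀ π F → CC d₀ (chI π F none)

/-- Block CHT: change of charts. -/
def S_CHT : Prop := ∀ (A 𝕜 : Type) [CommRing A] [Field 𝕜] (n : ℕ) (κ : Type) (d₀ : ℕ)
  (π : A →+* 𝕜) (F : κ → MvPolynomial (Fin n × Bool) A), GM d₀ π F → ∀ a : Fin n,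
  (∀ i : Fin n, MvPolynomial.X i ∉ chI π F (some a)) ∧
  ∀ (𝔽 : Type) [Field 𝔽] [Algebra 𝕜 𝔽] (x : Fin n → 𝔽), x a ≠ 0 →
    (∀ f ∈ chI π F (some a), MvPolynomial.aeval x f = 0) →
    ∀ f ∈ chI π F none, MvPolynomial.aeval (Function.update x a (x a)⁻¹) f = 0

/-- Block EVA: values of polynomials whose reduction is in the ideal of the reduction. -/
def S_EVA : Prop := ∀ (C : Type) [NormedField C] [IsUltrametricDist C] (p : ℕ) [Fact p.Prime]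
  (𝕜 : Type) [Field 𝕜] (ρ : Nr C p →+* 𝕜), Function.Surjective ρ → 0 < ‖(p : C)‖ →
  ‖(p : C)‖ < 1 → (∀ r : Nr C p, ρ r = 0 ↔ ‖(r : C)‖ < 1) →
  ∀ (n : ℕ) (κ : Type) (F : κ → MvPolynomial (Fin n × Bool) (Nr C p)) (a : Option (Fin n))
  (f : MvPolynomial (Fin n) (Nr C p)), MvPolynomial.map ρ f ∈ chI ρ F a →
  ∃ R' : MvPolynomial (Fin n) (OO C), ∀ y : Fin n → C,
    (∀ t, MvPolynomial.eval₂ (Nr C p).subtype (chv a y) (F t) = 0) →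
    MvPolynomial.eval₂ (Nr C p).subtype y f = p * MvPolynomial.eval₂ (OO C).subtype y R'

/-- Block PT: the points of a model satisfy the approximate relations. -/
def S_PT : Prop := ∀ (C : Type) [NormedField C] [IsUltrametricDist C] (p : ℕ) [Fact p.Prime]
  (𝕜 : Type) [Field 𝕜] (ρ : Nr C p →+* 𝕜), Function.Surjective ρ → 0 < ‖(p : C)‖ →
  ‖(p : C)‖ < 1 → (∀ r : Nr C p, ρ r = 0 ↔ ‖(r : C)‖ < 1) →
  ∀ (n d₀ : ℕ) (κ : Type) (F : κ → MvPolynomial (Fin n × Bool) (Nr C p)), GM d₀ ρ F →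
  ∀ (N W M d D : ℕ) (𝓡 : RD 𝕜 n N W M d D), Rels 𝓡 (chI ρ F none) →
  ∃ (ht : (Fin n → ℤ) → (Fin n → ℤ) → (Nr C p)[X][X])
    (rho : (Fin n → ℤ) → (Fin n → ℤ) → MvPolynomial (Fin n × Bool) (OO C)),
    (∀ v w, Bv M v → Bv M w → LI v w →
      (ht v w).map (mapRingHom ρ) = 𝓡.h v w ∧ BD d (ht v w)) ∧
    ∀ x : Fin n → C, (∀ t, MvPolynomial.eval₂ (Nr C p).subtype (chv none x) (F t) = 0) →
      PtA ρ 𝓡 ht rho x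

/-! ### finiteness -/

/-- the affine zero set of the model -/
def VF {n : ℕ} {κ : Type} (F : κ → MvPolynomial (Fin n × Bool) QA) : Set (Fin n → ℂ) :=
  {y | ∀ t, MvPolynomial.eval₂ rA (chv none y) (F t) = 0}

/-- Block FIN: finiteness of the intersections with special subvarieties. -/
def S_FIN : Prop := ∀ (n : ℕ) (κ : Type) (F : κ → MvPolynomial (Fin n × Bool) QA),
  (∀ i j : Fin n, i ≠ j → ∃ (a b : ℕ) (g : ℕ → ℕ → QA), g 0 0 ≠ 0 ∧ g a 0 ≠ 0 ∧ g 0 b ≠ 0 ∧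
    g a b ≠ 0 ∧ (∀ c : QA, ∃ v ≤ b, ∑ u ∈ Finset.range (a + 1), g u v * c ^ u ≠ 0) ∧
    bh i j a b g ∈ Ideal.span (Set.range F)) →
  ∀ lam : Fin n → QA, (∀ i, lam i ≠ 0) →
  (∀ j l : Fin n, j ≠ l → ∀ N : ℕ, 0 < N → {y : Fin n → ℂ | y ∈ VF F ∧
    PsiE ιZ (mP N) (mD N) (rA (lam j) * y j) (rA (lam l) * y l) = 0}.Finite) ∧
  ∀ (Γ : Set ℂ) (r : ℕ) (Z : SV Γ n r), r < n → (∀ i, ∃ c : QA, rA c = Z.const i) →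
    {y : Fin n → ℂ | y ∈ VF F ∧ (fun i => rA (lam i) * y i) ∈ Z.locus}.Finite ∧
    ∀ y ∈ VF F, (fun i => rA (lam i) * y i) ∈ Z.locus → ∃ s : Fin n → QA, ∀ i, rA (s i) = y i

/-! ### number fields -/

/-- Block NF: the local field at an unramified place of a number field. -/
def S_NF : Prop := ∀ (p : ℕ) [Fact p.Prime] (K : Type) [Field K] [NumberField K] (σ : K →+* ℂ)
  (v : HeightOneSpectrum (𝓞 K)), (p : 𝓞 K) ∈ v.asIdeal → (p : 𝓞 K) ∉ v.asIdeal ^ 2 →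
  ∃ (C : Type) (_ : NormedField C) (_ : IsUltrametricDist C) (_ : CompleteSpace C)
    (_ : CharZero C) (_ : IsAlgClosed C) (k : Type) (_ : Field k) (_ : CharP k p)
    (_ : IsAlgClosed k) (red : OO C →+* k) (𝕜 : Type) (_ : Field 𝕜) (_ : IsAlgClosed 𝕜)
    (_ : CharP 𝕜 p) (ρ : Nr C p →+* 𝕜) (ι : 𝕜 →+* k) (φ : QA →+* C) (σ' : K →+* QA),
    (∀ x, rA (σ' x) = σ x) ∧ 0 < ‖(p : C)‖ ∧ ‖(p : C)‖ < 1 ∧
    (∀ x : OO C, red x = 0 ↔ ‖(x : C)‖ < 1) ∧ Function.Surjective ρ ∧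
    (∀ r : Nr C p, ι (ρ r) = red ⟨r, Nr_le r.2⟩) ∧
    (∀ x : K, v.valuation K x ≤ 1 → φ (σ' x) ∈ Nr C p) ∧
    (∀ x : 𝓞 K, ‖φ (σ' (algebraMap (𝓞 K) K x))‖ < 1 ↔ x ∈ v.asIdeal) ∧
    ∀ (x : K) (m : ℤ), v.valuation K x = WithZero.exp m → ‖φ (σ' x)‖ = ‖(p : C)‖ ^ (-m)

end Pool.Agent.Y92.ZX
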