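import Pool.Agent.Y92.ZX.Pb
import Pool.Agent.Y92.ZX.Stm3

/-!
# Project ZX, second part: curves in `Y(1)^n × G_m^k`

All block statements (`S_...`).
-/

set_option autoImplicit false
set_option linter.unusedSectionVars false

open UpperHalfPlane H294ZP Polynomial IsDedekindDomain NumberField

namespace Pool.Agent.Y92.ZX

open Pool.Agent.Y226 Pool.Agent.Y226.ZG Pool.Agent.Y226.ZM Pool.Agent.Y226.ZU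

/-- Block WGEN: no wild torsion for two independent monomials. -/
def S_WGEN : Prop := ∀ (C : Type) [NormedField C] [IsUltrametricDist C] (p : ℕ) [Fact p.Prime]
  (k 𝕜 : Type) [Field k] [Field 𝕜] (n N W M d D B : ℕ) (𝓛 : LB C p k 𝕜 n N W M d D B)
  (x : Fin n → C), 𝓛.Pt x → ∀ (v w : Fin n → ℤ), Bv M v → Bv M w → LI v w →
  (∀ i, v i ≠ 0 ∨ w i ≠ 0 → ‖x i‖ = 1) → ∀ (F₁ F₂ : Cˣ), (F₁ : C) = ∏ i, x i ^ v i →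
  (F₂ : C) = ∏ i, x i ^ w i → ∀ (ε₁ ε₂ : Cˣ) (s : ℕ), IsPrimitiveRoot (ε₁ : C) (p ^ (s + 1)) →
  (ε₂ : C) ^ p ^ (s + 1) = 1 → F₁ * ε₁ ∈ GG C p ‖(p : C)‖ (norm_nonneg _) 𝓛.hp1 →
  F₂ * ε₂ ∈ GG C p ‖(p : C)‖ (norm_nonneg _) 𝓛.hp1 → False

/-- Block TMIX: the tame solutions for a pair and a multiplicative relation. -/
def S_TMIX : Prop := ∀ (C : Type) [NormedField C] [IsUltrametricDist C] [CharZero C]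
  [IsAlgClosed C] (p : ℕ) [Fact p.Prime] (k 𝕜 : Type) [Field k] [CharP k p] [IsAlgClosed k]
  [Field 𝕜] (n N W M d D B : ℕ) (𝓛 : LB C p k 𝕜 n N W M d D B) (κ : Fin n → OO C)
  (j l : Fin n) (A B₁ : ℕ), j ≠ l → 0 < B₁ → A ≤ W → B₁ ≤ W →
    𝓛.Λ l ^ B₁ * (𝓛.Λ j ^ A)⁻¹ ∈ GG C p 0 le_rfl one_pos →
    ∀ (b : Fin n → ℤ), Bv M b → b l = 0 → b ≠ 0 → ∀ (ν : Cˣ), ν ∈ GG C p 0 le_rfl one_pos →
    ∃ T : Set (Fin n → k), T.Finite ∧ ∀ (x : Fin n → C), 𝓛.Pt x → ∀ (xO : Fin n → OO C)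
      (Y : Fin n → Cˣ), (∀ i, (xO i : C) = x i) → (∀ i, (Y i : C) = xO i) →
      (∀ i, ‖(xO i : C)‖ = 1) →
      ∀ (ζ ζ' : Cˣ) (f f' : ℕ), 0 < f → (ζ : C) ^ p ^ f = ζ → 0 < f' → (ζ' : C) ^ p ^ f' = ζ' →
      ‖((𝓛.Λ l ^ B₁ * (𝓛.Λ j ^ A)⁻¹ * (Y l ^ B₁ * (Y j ^ A)⁻¹) * ζ : Cˣ) : C) -
        (1 + p * (B₁ * (κ l * ((Y l : Cˣ) : C)⁻¹) - A * (κ j * ((Y j : Cˣ) : C)⁻¹)))‖ ≤
          ‖(p : C)‖ ^ 2 →
      (ν : C) * ∏ i, x i ^ b i = ζ' →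
      (fun i => 𝓛.red (xO i)) ∈ T

/-- Block LMIX: all coordinates are good, an isogeny and a multiplicative relation. -/
def S_LMIX : Prop := ∀ (C : Type) [NormedField C] [IsUltrametricDist C] [CompleteSpace C]
  [CharZero C] [IsAlgClosed C] (p : ℕ) [Fact p.Prime] (k 𝕜 : Type) [Field k] [CharP k p]
  [IsAlgClosed k] [Field 𝕜] (n N W M d D B : ℕ) (𝓛 : LB C p k 𝕜 n N W M d D B)
  (b : Fin n → ℤ), Bv M b → b ≠ 0 → ∀ ν : Cˣ, ν ∈ GG C p 0 le_rfl one_pos → ∃ G : ℕ,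
    ∀ (X : Fin n → QA) (x : Fin n → C), 𝓛.Pt x → (∀ i, 𝓛.φ (X i) = 𝓛.Λ i * x i) →
    (∀ i, ‖x i‖ = 1) → ∀ j l : Fin n, j ≠ l → b j = 0 → b l = 0 →
    ∀ (τ w : ℍ) (a b' c d' : ℤ), 0 < a * d' - b' * c →
    (w : ℂ) * (c * τ + d') = a * τ + b' → rA (X j) = jj τ → rA (X l) = jj w →
    ∀ (ζ : C) (o : ℕ), 0 < o → IsPrimitiveRoot ζ o → (ν : C) * ∏ i, x i ^ b i = ζ →
    ∃ N' : ℕ, 0 < N' ∧ N' ≤ G ∧ PsiE ιZ (mP N') (mD N') (rA (X j)) (rA (X l)) = 0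

/-- Block LEV: the minimal level of an isogeny between good coordinates. -/
def S_LEV : Prop := ∀ (C : Type) [NormedField C] [IsUltrametricDist C] [CompleteSpace C]
  [CharZero C] [IsAlgClosed C] (p : ℕ) [Fact p.Prime] (k 𝕜 : Type) [Field k] [CharP k p]
  [IsAlgClosed k] [Field 𝕜] (n N W M d D B : ℕ) (𝓛 : LB C p k 𝕜 n N W M d D B), ∃ G : ℕ,
    ∀ (X : Fin n → QA) (x : Fin n → C), 𝓛.Pt x → (∀ i, 𝓛.φ (X i) = 𝓛.Λ i * x i) →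
    ∀ j l : Fin n, ‖x j‖ = 1 → ‖x l‖ = 1 → ∀ τ w : ℍ, rA (X j) = jj τ → rA (X l) = jj w →
    ∀ N₀ : ℕ, 0 < N₀ → PsiE ιZ (mP N₀) (mD N₀) (jj τ) (jj w) = 0 →
    (∀ N', 0 < N' → PsiE ιZ (mP N') (mD N') (jj τ) (jj w) = 0 → N₀ ≤ N') →
    ∃ A B₁ g' s : ℕ, 0 < A ∧ 0 < B₁ ∧ A ≤ W ∧ B₁ ≤ W ∧ 0 < g' ∧ g'.Coprime p ∧
      N₀ = A * B₁ * (g' * p ^ s) ^ 2 ∧ ((∃ a, ‖x a‖ ≠ 1) → g' ≤ G)

/-- Block MULB: a multiplicative relation near a zero or a pole of a coordinate. -/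
def S_MULB : Prop := ∀ (C : Type) [NormedField C] [IsUltrametricDist C] [CompleteSpace C]
  [CharZero C] [IsAlgClosed C] (p : ℕ) [Fact p.Prime] (k 𝕜 : Type) [Field k] [CharP k p]
  [IsAlgClosed k] [Field 𝕜] (n N W M d D B : ℕ) (𝓛 : LB C p k 𝕜 n N W M d D B)
  (ν : Cˣ), ‖(ν : C)‖ = 1 → ∀ b : Fin n → ℤ, ∃ G : ℕ, ∀ (x : Fin n → C),
    𝓛.Pt x → (∃ a, ‖x a‖ ≠ 1) → (∀ i, b i ≠ 0 → ‖x i‖ = 1) → ∀ (ζ : C) (o : ℕ), 0 < o →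
    IsPrimitiveRoot ζ o → (ν : C) * ∏ i, x i ^ b i = ζ →
    ∃ o' s : ℕ, 0 < o' ∧ o' ≤ G ∧ o'.Coprime p ∧ o = o' * p ^ s

/-- The information at one place, for the algebraic points `P` of a curve (`OnV P`); the
coordinates are scaled by `lam` (modular) and `nu` (multiplicative), `val` are the valuations of
the `nu i`. -/
structure PK {n : ℕ} (OnV : (Fin n → QA) → Prop) (Γ : Set ℂ) (W p : ℕ) (lam nu : Fin n → QA)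
    (val : Fin n → ℤ) where
  bad : (Fin n → QA) → Fin n → Prop
  G : ℕ
  one : ∀ P, OnV P → ∀ i j, bad P i → bad P j → i = j
  orth : ∀ P, OnV P → ∀ b : Fin n → ℤ, (∀ i, b i ≠ 0 → ¬ bad P i) → ∀ o : ℕ, 0 < o →
    (∏ i, (nu i * P i) ^ b i) ^ o = 1 → ∑ i, b i * val i = 0
  const : ∀ P, OnV P → ∀ i, IsIntegral (Algebra.adjoin ℤ Γ) (rA (lam i * P i)) → bad P i
  level : ∀ P, OnV P → ∀ j l, ¬ bad P j → ¬ bad P l → ∀ τ w : ℍ,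
    rA (lam j * P j) = jj τ → rA (lam l * P l) = jj w →
    ∀ N₀ : ℕ, 0 < N₀ → PsiE ιZ (mP N₀) (mD N₀) (jj τ) (jj w) = 0 →
    (∀ N', 0 < N' → PsiE ιZ (mP N') (mD N') (jj τ) (jj w) = 0 → N₀ ≤ N') →
    ∃ A B g' s : ℕ, 0 < A ∧ 0 < B ∧ A ≤ W ∧ B ≤ W ∧ 0 < g' ∧ g'.Coprime p ∧
      N₀ = A * B * (g' * p ^ s) ^ 2 ∧ ((∃ a, bad P a) → g' ≤ G)
  mulb : ∀ P, OnV P → ∀ b : Fin n → ℤ, Bv W b → ∑ i, b i * val i = 0 →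
    (∃ a, bad P a) → (∀ i, b i ≠ 0 → ¬ bad P i) → ∀ (ρ : QA) (o : ℕ), 0 < o →
    IsPrimitiveRoot ρ o → ∏ i, (nu i * P i) ^ b i = ρ →
    ∃ o' s : ℕ, 0 < o' ∧ o' ≤ G ∧ o'.Coprime p ∧ o = o' * p ^ s
  mix : ∀ P, OnV P → ∀ b : Fin n → ℤ, Bv W b → b ≠ 0 → ∑ i, b i * val i = 0 →
    (∀ a, ¬ bad P a) → ∀ j l, j ≠ l → b j = 0 → b l = 0 → ∀ (τ w : ℍ) (a b' c d' : ℤ),
    0 < a * d' - b' * c → (w : ℂ) * (c * τ + d') = a * τ + b' →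
    rA (lam j * P j) = jj τ → rA (lam l * P l) = jj w →
    ∀ (ρ : QA) (o : ℕ), 0 < o → IsPrimitiveRoot ρ o → ∏ i, (nu i * P i) ^ b i = ρ →
    ∃ N' : ℕ, 0 < N' ∧ N' ≤ G ∧ PsiE ιZ (mP N') (mD N') (jj τ) (jj w) = 0
  core : ∀ P, OnV P → ∀ (r : ℕ) (cls : Fin n → Option (Fin r)), r + 2 ≤ n →
    (∀ i, cls i = none → IsIntegral (Algebra.adjoin ℤ Γ) (rA (lam i * P i))) →
    (∀ j l c, j ≠ l → cls j = some c → cls l = some c → ∃ (w w' : ℍ) (a b c' d' : ℤ),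
      0 < a * d' - b * c' ∧ (w' : ℂ) * (c' * w + d') = a * w + b ∧ rA (lam j * P j) = jj w ∧
      rA (lam l * P l) = jj w') → ∃ j l : Fin n, j ≠ l ∧ ∃ N' : ℕ, 0 < N' ∧ N' ≤ G ∧
      PsiE ιZ (mP N') (mD N') (rA (lam j * P j)) (rA (lam l * P l)) = 0

/-- Block PK: the local data give the information. -/
def S_PK : Prop := ∀ (C : Type) [NormedField C] [IsUltrametricDist C] [CompleteSpace C]
  [CharZero C] [IsAlgClosed C] (p : ℕ) [Fact p.Prime] (k 𝕜 : Type) [Field k] [CharP k p]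
  [IsAlgClosed k] [Field 𝕜] (n N W M d D B : ℕ) (𝓛 : LB C p k 𝕜 n N W M d D B)
  (OnV : (Fin n → QA) → Prop), (∀ P, OnV P → 𝓛.Pt fun i => 𝓛.φ (P i)) →
  ∀ (lam nu : Fin n → QA) (val : Fin n → ℤ), (∀ i, 𝓛.φ (lam i) = 𝓛.Λ i) →
  (∀ i, ∃ u : Cˣ, (u : C) = 𝓛.φ (nu i) ∧ u * 𝓛.pu ^ (-val i) ∈ GG C p 0 le_rfl one_pos) →
  ∀ Γ : Set ℂ, (∀ γ ∈ Γ, ∃ c : QA, rA c = γ ∧ ‖𝓛.φ c‖ ≤ 1) →
  Nonempty (PK OnV Γ W p lam nu val)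

/-- Block COMB: the combination of the places. -/
def S_COMB : Prop := ∀ (n k K : ℕ) (OnV : (Fin (n + k) → QA) → Prop) (Γ : Set ℂ) (W : ℕ)
  (p : Fin K → ℕ) (lam : Fin n → QA) (nu : Fin k → QA) (lamu : Fin K → Fin k → QA),
  3 ≤ K → k * (k - 1) ≤ K → ∀ c : Fin K → Fin k → ℤ, Indep c →
  (∀ S : Finset (Fin K), (∃ a : Fin k → ℤ, a ≠ 0 ∧ ∀ i ∈ S, ∑ l, a l * c i l = 0) →
    ∃ b : Fin k → ℤ, Bv W b ∧ b ≠ 0 ∧ ∀ i ∈ S, ∑ l, b l * c i l = 0) →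
  (∀ i, (p i).Prime) → Function.Injective p → ∀ f : Fin K → ℕ, (∀ i, 0 < f i) →
  (∀ i, Nonempty (PK OnV Γ W (p i) (Fin.append lam (lamu i)) (Fin.append (fun _ => 1) nu)
    (Fin.append (fun _ => 0) fun l => (f i : ℤ) * c i l))) →
  ∃ G : ℕ, ∀ P : Fin (n + k) → QA, OnV P → ∀ (r : ℕ) (cls : Fin n → Option (Fin r))
    (M : Submodule ℤ (Fin k → ℤ)), r + 2 ≤ n + Module.finrank ℤ M → 1 ≤ Module.finrank ℤ M →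
    Atyp Γ (fun j => rA (lam j * P (Fin.castAdd k j))) (fun l => nu l * P (Fin.natAdd n l))
      cls M →
    (∃ j l : Fin n, j ≠ l ∧ ∃ N' : ℕ, 0 < N' ∧ N' ≤ G ∧
      PsiE ιZ (mP N') (mD N') (rA (lam j * P (Fin.castAdd k j)))
        (rA (lam l * P (Fin.castAdd k l))) = 0) ∨
    ∃ b : Fin k → ℤ, Bv W b ∧ b ≠ 0 ∧ ∃ o : ℕ, 0 < o ∧ o ≤ G ∧
      (∏ l, (nu l * P (Fin.natAdd n l)) ^ b l) ^ o = 1

/-- the pair relations over the algebraic numbers -/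
def Gen {n : ℕ} {κ : Type} (F : κ → MvPolynomial (Fin n × Bool) QA) : Prop :=
  ∀ i j : Fin n, i ≠ j → ∃ (a b : ℕ) (g : ℕ → ℕ → QA), g 0 0 ≠ 0 ∧ g a 0 ≠ 0 ∧ g 0 b ≠ 0 ∧
    g a b ≠ 0 ∧ (∀ c : QA, ∃ v ≤ b, ∑ u ∈ Finset.range (a + 1), g u v * c ^ u ≠ 0) ∧
    bh i j a b g ∈ Ideal.span (Set.range F)

/-- Block MFIN: finiteness of the intersections with cosets and with special subvarieties. -/
def S_MFIN : Prop :=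
  (∀ (n : ℕ) (κ : Type) (F : κ → MvPolynomial (Fin n × Bool) QA), Gen F →
    ∀ b : Fin n → ℤ, b ≠ 0 → ∀ τ : QA,
    {y : Fin n → ℂ | y ∈ VF F ∧ (∀ i, b i ≠ 0 → y i ≠ 0) ∧ ∏ i, y i ^ b i = rA τ}.Finite ∧
    ∀ y ∈ VF F, (∀ i, b i ≠ 0 → y i ≠ 0) → ∏ i, y i ^ b i = rA τ →
      ∃ s : Fin n → QA, ∀ i, rA (s i) = y i) ∧
  ∀ (n k : ℕ) (κ : Type) (F : κ → MvPolynomial (Fin (n + k) × Bool) QA), Gen F →
    ∀ lam : Fin n → QA, (∀ i, lam i ≠ 0) → ∀ (Γ : Set ℂ) (r : ℕ) (Z : SV Γ n r), r < n →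
    (∀ i, ∃ c : QA, rA c = Z.const i) →
    {y : Fin (n + k) → ℂ | y ∈ VF F ∧
      (fun j => rA (lam j) * y (Fin.castAdd k j)) ∈ Z.locus}.Finite ∧
    ∀ y ∈ VF F, (fun j => rA (lam j) * y (Fin.castAdd k j)) ∈ Z.locus →
      ∃ s : Fin (n + k) → QA, ∀ i, rA (s i) = y i

/-- Block MIXX: finiteness for the mixed special subvarieties from the information at the
places. -/
def S_MIXX : Prop := ∀ (n k K : ℕ) (κ : Type) (F : κ → MvPolynomial (Fin (n + k) × Bool) QA),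
  Gen F → ∀ (Γ : Set ℂ), (∀ γ ∈ Γ, ∃ c : QA, rA c = γ) → ∀ (W : ℕ) (p : Fin K → ℕ)
  (lam : Fin n → QA) (nu : Fin k → QA) (lamu : Fin K → Fin k → QA), (∀ j, lam j ≠ 0) →
  (∀ l, nu l ≠ 0) → (∀ i l, lamu i l ≠ 0) →
  3 ≤ K → k * (k - 1) ≤ K → ∀ c : Fin K → Fin k → ℤ, Indep c →
  (∀ S : Finset (Fin K), (∃ a : Fin k → ℤ, a ≠ 0 ∧ ∀ i ∈ S, ∑ l, a l * c i l = 0) →
    ∃ b : Fin k → ℤ, Bv W b ∧ b ≠ 0 ∧ ∀ i ∈ S, ∑ l, b l * c i l = 0) →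
  (∀ i, (p i).Prime) → Function.Injective p → ∀ f : Fin K → ℕ, (∀ i, 0 < f i) →
  (∀ i, Nonempty (PK (fun P => ∀ t, MvPolynomial.eval (chv none P) (F t) = 0) Γ W (p i)
    (Fin.append lam (lamu i)) (Fin.append (fun _ => 1) nu)
    (Fin.append (fun _ => 0) fun l => (f i : ℤ) * c i l))) →
  {x : Fin (n + k) → ℂ | (∃ y ∈ VF F, (∀ j, x (Fin.castAdd k j) = rA (lam j) * y (Fin.castAdd k j)) ∧
      ∀ l, x (Fin.natAdd n l) = rA (nu l) * y (Fin.natAdd n l)) ∧ (∀ l, x (Fin.natAdd n l) ≠ 0) ∧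
      ∃ (r : ℕ) (Z : SV Γ n r) (M : Submodule ℤ (Fin k → ℤ)) (η : Fin k → ℂ),
        (∀ l, ∃ o : ℕ, 0 < o ∧ η l ^ o = 1) ∧ r + 2 ≤ n + Module.finrank ℤ M ∧
        (fun j => x (Fin.castAdd k j)) ∈ Z.locus ∧
        ∀ a ∈ M, ∏ l, x (Fin.natAdd n l) ^ a l = ∏ l, η l ^ a l}.Finite ∧
  ∀ (r : ℕ) (Z : SV Γ n r) (M : Submodule ℤ (Fin k → ℤ)) (η : Fin k → ℂ),
    (∀ l, ∃ o : ℕ, 0 < o ∧ η l ^ o = 1) → r + 1 ≤ n + Module.finrank ℤ M →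
    {x : Fin (n + k) → ℂ | (∃ y ∈ VF F,
      (∀ j, x (Fin.castAdd k j) = rA (lam j) * y (Fin.castAdd k j)) ∧
      ∀ l, x (Fin.natAdd n l) = rA (nu l) * y (Fin.natAdd n l)) ∧ (∀ l, x (Fin.natAdd n l) ≠ 0) ∧
      (fun j => x (Fin.castAdd k j)) ∈ Z.locus ∧
      ∀ a ∈ M, ∏ l, x (Fin.natAdd n l) ^ a l = ∏ l, η l ^ a l}.Finite

end Pool.Agent.Y92.ZX
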